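import Pool.Agent.H50.AVG.Ase
import Pool.Agent.H4.D2.Vfa

/-!
# The moved place 2 is full in the boxes

`yZT_yF`: the near path `yZT` of one place is a function of `yF`. `vfG_vu`: `VfG` for the place `2` of
the chain over the place `1`, from `VuAt`.
-/

set_option autoImplicit false

namespace Pool.AVG50

open Finset Real MvPolynomial
open Pool.Agent.H49.Ent Pool.Agent.H32.Dense Pool.STK Pool.KA Pool.KSAT Pool.K2S Pool.PB Pool.GEN
open Pool.S6C Pool.RCD Pool.LA91 Pool.AVG96 Pool.AVG57 Pool.OWN83 Pool.D2F2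
open Pool.OWN17 (yF)

variable {m : ℕ} {S : PCl m} {c : ℕ → Fin m} {A B Λ : ℝ} {sn : ℝ → ℕ → ℝ} {G : Set ℝ}

/-- The near path of one place is a function of its position and of more digits of its velocity. -/
theorem yZT_yF {p₀ lam lam₀ : ℝ} (hp : p₀ ≤ 1) (hlam : lam ≤ lam₀) (J : ℕ) (F : Fam m J)
    (ω ω' : F.Ω) (h : yF F (c 0) ⌊lam₀ * J⌋₊ ω = yF F (c 0) ⌊lam₀ * J⌋₊ ω') :
    yZT ((range 1).image c) p₀ lam J F ω = yZT ((range 1).image c) p₀ lam J F ω' := by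
  have h1 : YkV ((range 1).image c) lam₀ (yZT (m := m) ((range 1).image c) p₀ lam) :=
    ykV_of hp hlam fun J F => ⟨fun x => (x.1.2, x.1.1, x.2.1, x.2.2), fun _ => rfl⟩
  obtain ⟨ψ, hψ⟩ := h1 J F
  have e1 : (range 1).image c = {c 0} := by simp
  rw [hψ ω, hψ ω']
  unfold yF at h
  simp only [Prod.mk.injEq] at h
  obtain ⟨h1, h2, h3, h4⟩ := h
  congr 1
  refine Prod.ext (Prod.ext (funext fun i => ?_) (Prod.ext h1 h4)) (funext fun i => ?_)
  · show (if i ∈ (range 1).image c then F.X J ω i else 0) =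
      if i ∈ (range 1).image c then F.X J ω' i else 0
    by_cases hi : i ∈ (range 1).image c
    · rw [if_pos hi, if_pos hi]
      rw [e1, Finset.mem_singleton] at hi
      rw [hi]
      exact h2
    · rw [if_neg hi, if_neg hi]
  · show (if i ∈ (range 1).image c then F.D ⌊lam₀ * J⌋₊ ω i else 0) =
      if i ∈ (range 1).image c then F.D ⌊lam₀ * J⌋₊ ω' i else 0
    by_cases hi : i ∈ (range 1).image c
    · rw [if_pos hi, if_pos hi]
      rw [e1, Finset.mem_singleton] at hi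
      rw [hi]
      exact h3
    · rw [if_neg hi, if_neg hi]

/-- **The moved place 2 is full in the boxes**, from `VuAt`. -/
theorem vfG_vu
    (hpos : ∀ (τ : ℝ) (J : ℕ) (F : Fam m J) (A : F.Ω → Prop), S.St τ J F A → 0 < Pe F.p A)
    {L₁ L₂ : ℝ → ℝ} {g : ℝ} (h : VuAt S c L₁ L₂ g) {Sl : ℕ → ℝ} (hd : HasDerivAt L₂ (Sl 2) g)
    {ρ₀ : ℝ} (hρ₀ : 0 < ρ₀) (hs : ∀ w ∈ G, g - ρ₀ ≤ w → w ≤ g + ρ₀ → sn w 1 = L₁ w ∧ sn w 2 = L₂ w) :
    VfG S c 1 2 A B Λ sn G g Sl := by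
  intro e C Cd he hC hCd
  obtain ⟨κ, hκ, i₀, H⟩ := h.vfc hpos (C := C + Cd) (by positivity) he one_pos
  obtain ⟨ρ₁, hρ₁, H⟩ := H i₀ le_rfl
  obtain ⟨ρ₂, hρ₂, H2⟩ := lin_near hd (show 0 < κ / 4 by positivity)
  refine ⟨i₀, κ, hκ, fun A₁ B₁ Λ₁ p₀ lam hx g1 g2 g3 => ⟨min ρ₀ (min ρ₁ ρ₂),
    lt_min hρ₀ (lt_min hρ₁ hρ₂), ?_⟩⟩
  intro R hR hRρ w hw j x w1 x2 δW q ξ μ ν φ' p s D hD N hφ'
  have r0 := hRρ.trans_le (min_le_left _ _)
  have r1 := hRρ.trans_le ((min_le_right _ _).trans (min_le_left _ _))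
  have r2 := hRρ.trans_le ((min_le_right _ _).trans (min_le_right _ _))
  obtain ⟨d1, d2, -⟩ := hD 1 le_rfl one_lt_two
  have hwx := N.wx
  obtain ⟨s1, s2⟩ := hs w hw (by linarith) (by linarith)
  have hsv := N.sc 2 (by norm_num) (by norm_num)
  have hq := N.q0
  have hξ := N.ξ0
  have hμ := N.μ0
  have hν := N.ν0
  have hqC := N.qC
  have hxn := N.xn 2 (by norm_num) le_rfl
  have hp1 := N.pc 1 le_rfl (by norm_num)
  have hp2 := N.pc 2 (by norm_num) (by norm_num)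
  have hφν := N.φν
  have hR1 : (2 * C + 1) * R ≤ D 1 * R := mul_le_mul_of_nonneg_right d1 hR.le
  have hR2 : D 1 * R ≤ Cd * R := mul_le_mul_of_nonneg_right d2 hR.le
  have hCR : 0 < C * R := by positivity
  have hCdR : 0 < Cd * R := by positivity
  have eC : (C + Cd) * R = C * R + Cd * R := by ring
  have eC2 : (2 * C + 1) * R = C * R + C * R + R := by ring
  have hνq : ν ≤ q := by
    have k1 := N.jn 3 (by norm_num) le_rfl
    have k2 := N.xq
    have k3 : 0 ≤ Sl 3 * (x - w) := hq.le.trans k2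
    have k4 : 0 ≤ x - w := by linarith
    rcases le_or_gt (Sl 3) 0 with h5 | h5
    · have h6 := mul_nonpos_of_nonpos_of_nonneg h5 k4
      linarith
    · have h6 := mul_nonneg h5.le (show 0 ≤ j - w by linarith [N.wj])
      linarith
  have b1 : nB 1 (p₀ : ℝ) sn w D R 1 = sn w 1 + D 1 * R := nB_ge le_rfl
  have b2 : nB 1 ((lam : ℝ) + w) sn w D R 1 = sn w 1 + D 1 * R := nB_ge le_rfl
  have hlam : (lam : ℝ) ≤ (1 / 2) ^ i₀ :=
    g3.trans (pow_le_pow_left₀ (by norm_num) (by norm_num) i₀)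
  have e1 : (1 : ℝ) * R = R := one_mul R
  refine H R hR r1 w x w1 hwx x2 p _ _ _ _ _ ?_ ?_ ?_ ?_ ?_ ?_ ?_ ?_ ?_ ?_ _
    (fun J F ω ω' hh => yZT_yF hx.p1 hlam J F ω ω' hh)
  · rw [← s1]
    linarith [hp1.1]
  · rw [← s2]
    linarith [hp2.1]
  · rw [b1, ← s1]
    linarith
  · rw [b2, ← s1]
    linarith
  · rw [b2, ← s1, e1]
    linarith
  · have k1 := abs_le.1 (H2 R hR r2 x (by rw [abs_le]; constructor <;> linarith))
    have k2 := abs_le.1 (H2 R hR r2 w (by rw [abs_le]; constructor <;> linarith))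
    rw [hsv, s2]
    have k3 : κ / 4 * R = κ * R / 4 := by ring
    have k4 : 0 < κ * R := by positivity
    have k5 : Sl 2 * (x - g) - Sl 2 * (w - g) = Sl 2 * (x - w) := by ring
    linarith [k1.2, k2.1]
  · linarith
  · rw [b1, hsv, e1, s1, s2]
    linarith
  · rw [b1, hsv, e1, s1, s2]
    linarith
  · rw [b2, hsv, e1, s1, s2]
    linarith

end Pool.AVG50
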