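import Pool.Agent.H50.AVG.Asd

/-!
# The closed gradient in a class, one place in the base

`CodU`: the codes, with numbers which do not depend on the near path of the base. `VfG`: the moved
place is full in the boxes, for near paths with few digits of the velocity. `AsmC`: the data of the
class; `asmC_ex`: they exist in one subclass. `asm_v`: the closed gradient in all small boxes at almost
every `g`. `vfG_one`: `VfG` for the first place of the chain. `asm_one`: the closed gradient in the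
direction of the first place of the chain.
-/

set_option autoImplicit false

namespace Pool.AVG50

open Finset Real MvPolynomial MeasureTheory Filter
open Pool.Agent.H49.Ent Pool.Agent.H32.Dense Pool.STK Pool.KA Pool.KSAT Pool.K2S Pool.PB Pool.GEN
open Pool.S6C Pool.RCD Pool.LA91 Pool.AVG96 Pool.AVG57 Pool.OWN68 Pool.OWN83 Pool.CDX

variable {m : ℕ} {S : PCl m} {c : ℕ → Fin m} {r₀ v K : ℕ} {s₀ A B Λ : ℝ} {sn : ℝ → ℕ → ℝ}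
  {G : Set ℝ}

/-- **The inputs of codes** in the boxes at `g`; the numbers do not depend on `y`. `Lb Cm κ R`: the
labels at the windows near `g`. -/
def CodU (S : PCl m) (c : ℕ → Fin m) (r₀ v K : ℕ) (s₀ : ℝ) (sn : ℝ → ℕ → ℝ) (G : Set ℝ) (g : ℝ)
    (Sl : ℕ → ℝ) (Lb : ℝ → ℝ → ℝ → Prop) : Prop :=
  ∀ e C ν₀ γ₀ : ℝ, 0 < e → 0 < C → 0 < ν₀ → 0 < γ₀ → ∃ D : ℕ → ℝ,
    (∀ l ≤ v, C ≤ D l) ∧ (∀ l < v, D (l + 1) + γ₀ ≤ D l) ∧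
    ∃ Cm κ : ℝ, 0 < Cm ∧ 0 < κ ∧ (∀ l ≤ v, D l ≤ Cm) ∧
    ∀ (γ : ∀ J : ℕ, Fam m J → Type) (y : ∀ (J : ℕ) (F : Fam m J), F.Ω → γ J F) (A B Λ : ℝ),
      GCh S (fun J F => ptr F J) y c r₀ (v + 1) s₀ A B Λ sn G → A < g → g < B →
      ∃ ρ : ℝ, 0 < ρ ∧ ∀ R : ℝ, 0 < R → R < ρ → Lb Cm κ R →
        CodB S y c r₀ v K sn G g Sl e C ν₀ D Cm κ R

/-- **The moved place is full in the boxes** at `g`, for near paths of the base with few digits of the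
velocity. `C`: the size of the boxes, `Cd`: the digits of the lower places. -/
def VfG (S : PCl m) (c : ℕ → Fin m) (r₀ v : ℕ) (A B Λ : ℝ) (sn : ℝ → ℕ → ℝ) (G : Set ℝ)
    (g : ℝ) (Sl : ℕ → ℝ) : Prop :=
  ∀ e C Cd : ℝ, 0 < e → 0 < C → 0 < Cd → ∃ (k : ℕ) (φ : ℝ), 0 < φ ∧
    ∀ A₁ B₁ Λ₁ p₀ lam : ℚ, IxV A B Λ A₁ B₁ Λ₁ p₀ lam → (A₁ : ℝ) < g → g < B₁ →
    (lam : ℝ) ≤ (1 / 8) ^ k → ∃ ρ : ℝ, 0 < ρ ∧ ∀ R : ℝ, 0 < R → R < ρ → ∀ w ∈ G,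
    ∀ j x : ℝ, g - R ≤ w → x ≤ g + R → ∀ (δW q ξ μ ν φ' : ℝ) (p s D : ℕ → ℝ),
    (∀ l, r₀ ≤ l → l < v → 2 * C + 1 ≤ D l ∧ D l ≤ Cd ∧ D (l + 1) + 1 ≤ D l) →
    Bx2 sn r₀ v Sl w j x δW q ξ μ ν φ' (C * R) p s → φ' ≤ φ * R →
    VfC S (yZT ((range r₀).image c) p₀ lam) c r₀ v w x p (nB r₀ p₀ sn w D R)
      (nB r₀ (lam + w) sn w D R) (s v + q) (s v + q + ξ) (s v + (q + ξ + μ + ν) - w) (e * R)

/-- **The data of the class.** -/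
structure AsmC (S : PCl m) (c : ℕ → Fin m) (r₀ v : ℕ) (s₀ A B Λ : ℝ) (sn : ℝ → ℕ → ℝ)
    (G : Set ℝ) : Prop where
  gch : ∃ (γ : ∀ J : ℕ, Fam m J → Type) (y : ∀ (J : ℕ) (F : Fam m J), F.Ω → γ J F),
    GCh S (fun J F => ptr F J) y c r₀ (v + 1) s₀ A B Λ sn G
  vel : ∃ θ : ℕ → ℚ → ℝ, VelN S (fun J F => ptr F J) ((range r₀).image c) s₀ A B θ
  vnum : VNumA S (fun J F => ptr F J) c r₀ s₀ A B Λ sn G
  hnum : HNumA S (fun J F => ptr F J)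
    (fun p₀ lam : ℚ => yZT (m := m) ((range r₀).image c) p₀ lam) c r₀ (v + 1) s₀ A B Λ sn G
  atv : ∀ w ∈ G, A ≤ w → w < B → AtV S c r₀ w
  sn0 : ∀ w ∈ G, A ≤ w → w < B → 0 ≤ sn w r₀

/-- Passage to a subclass. -/
theorem AsmC.sub {S' : PCl m} (hne : S'.Ne)
    (hs : ∀ (τ : ℝ) (J : ℕ) (F : Fam m J) (A : F.Ω → Prop), S'.St τ J F A → S.St τ J F A)
    (h : AsmC S c r₀ v s₀ A B Λ sn G) : AsmC S' c r₀ v s₀ A B Λ sn G where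
  gch := by
    obtain ⟨γ, y, hy⟩ := h.gch
    exact ⟨γ, y, hy.sub hne hs⟩
  vel := by
    obtain ⟨θ, hθ⟩ := h.vel
    exact ⟨θ, hθ.sub hs⟩
  vnum := h.vnum.sub hs
  hnum := h.hnum.sub hs
  atv := fun w hw a b => (h.atv w hw a b).sub hs
  sn0 := h.sn0

/-- **The data exist in one subclass.** -/
theorem asmC_ex {γ : ∀ J : ℕ, Fam m J → Type} {y : ∀ (J : ℕ) (F : Fam m J), F.Ω → γ J F}
    (h : GCh S (fun J F => ptr F J) y c r₀ (v + 1) s₀ A B Λ sn G) (hr : r₀ ≤ v + 1)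
    (hV : ∀ w ∈ G, A ≤ w → w < B → AtV S c r₀ w) (h0 : ∀ w ∈ G, A ≤ w → w < B → 0 ≤ sn w r₀) :
    ∃ S' : PCl m, S'.Ne ∧
      (∀ (τ : ℝ) (J : ℕ) (F : Fam m J) (A : F.Ω → Prop), S'.St τ J F A → S.St τ J F A) ∧
      AsmC S' c r₀ v s₀ A B Λ sn G := by
  obtain ⟨S', h1, h2, h3, h4, h5⟩ := num_all h hr
  exact ⟨S', h1, h2, ⟨γ, y, h.sub h1 h2⟩, h3, h4, h5, fun w hw a b => (hV w hw a b).sub h2, h0⟩

/-- A larger error. -/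
theorem vfC_mono {γ : ∀ J : ℕ, Fam m J → Type} {y : ∀ (J : ℕ) (F : Fam m J), F.Ω → γ J F}
    {w x : ℝ} {p n n' : ℕ → ℝ} {Na Nb Nd θ θ' : ℝ}
    (h : VfC S y c r₀ v w x p n n' Na Nb Nd θ) (hθ : θ ≤ θ') :
    VfC S y c r₀ v w x p n n' Na Nb Nd θ' := by
  obtain ⟨k', hk', e₀, he₀, H⟩ := h
  refine ⟨k', hk', e₀, he₀, fun K => Bas.mono 0 (H K) ?_⟩
  rintro J - F A H V₁ V₂ z zx hz hzx u₀ a b d hu₀ ha hb hd'
  refine le_trans ?_ (H V₁ V₂ z zx hz hzx u₀ a b d hu₀ ha hb hd')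
  exact mul_le_mul_of_nonneg_right (by linarith) (Nat.cast_nonneg J)

/-- **The closed gradient in the direction of the last place `v` of the chain**, in all small boxes at
almost every `g`; the base is one place. The constants depend on `v`, `K`, `hd`, `ε` only. -/
theorem asm_v (v K : ℕ) {hd ε : ℝ} (hh : 0 < hd) (hh1 : hd ≤ 1) (hε : 0 < ε) :
    ∃ (κ₂ ι θ : ℝ) (k₁ : ℕ), 0 < κ₂ ∧ κ₂ ≤ 1 ∧ 0 < ι ∧ 0 < θ ∧ θ ≤ 1 ∧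
      ∀ {m : ℕ} {S : PCl m} {c : ℕ → Fin m} {s₀ A B Λ : ℝ} {sn : ℝ → ℕ → ℝ} {G : Set ℝ}
        (_ : AsmC S c 1 v s₀ A B Λ sn G) (_ : 1 ≤ v),
      ∀ᵐ g : ℝ, A < g → g < B → ∀ Sl : ℕ → ℝ, SlpG sn 1 (v + 1) G g Sl → 1 < Sl (v + 1) →
        AtTg S c (v + 1) sn G g → RawG S c sn G g hd (v + 1) →
        ∀ Lb : ℝ → ℝ → ℝ → Prop, CodU S c 1 v K s₀ sn G g Sl Lb → VfG S c 1 v A B Λ sn G g Sl →
        ∀ ξ₀ ν₀ C : ℝ, 0 < ξ₀ → 0 < ν₀ → 0 < C →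
          ∃ Cm κ φ ρ : ℝ, 0 < Cm ∧ 0 < κ ∧ 0 < φ ∧ 0 < ρ ∧
          ∀ R : ℝ, 0 < R → R < ρ → Lb Cm κ R → ∀ w ∈ G, ∀ j x : ℝ, g - R ≤ w → j ≤ g + R →
            x ≤ g + R → ∀ (δW q ξ μ ν φ' : ℝ) (p s : ℕ → ℝ),
            Bx2 sn 1 v Sl w j x δW q ξ μ ν φ' (C * R) p s → φ' ≤ φ * R → ξ₀ * R ≤ ξ →
            ν₀ * R ≤ ν → μ ≤ θ * ξ → ν ≤ θ * ξ → θ * ξ + ν ≤ q →
            CGr S c v K w δW j x p s q ξ μ κ₂ ι k₁ ε := by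
  obtain ⟨κ₂, ι, θ, k₁, a1, a2, a3, a4, a5, HB⟩ := asm_ae v K hh hh1 hε
  refine ⟨κ₂, ι, θ, k₁, a1, a2, a3, a4, a5, ?_⟩
  intro m S c s₀ A B Λ sn G X hv
  obtain ⟨γ, y, h⟩ := X.gch
  filter_upwards [HB h X.hnum X.atv hv] with g hg hgA hgB Sl hSl hσ hT hraw Lb hcod hvf ξ₀ ν₀ C hξ
    hν hC
  obtain ⟨D, D1, D2, Cm, κ, b1, b2, D3, hcod⟩ := hcod (θ * ξ₀) (2 * C + 1) ν₀ 1 (by positivity)
    (by positivity) hν one_pos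
  obtain ⟨k, φ₁, hφ₁, hk⟩ := hvf (θ * ξ₀) C Cm (by positivity) hC b1
  obtain ⟨A₁, B₁, Λ₁, p₀, lam, hx, g1, g2, hlam⟩ := prm_ex (Λ := Λ) hgA hgB h.B1 h.Λ0
    (show (0 : ℝ) < (1 / 8) ^ k by positivity)
  have hc := gch_ix h hx (y' := yZT ((range 1).image c) (p₀ : ℝ) lam) kn_yZT
  have hp0 := hx.p0
  have hΛ1 := hx.h0
  have hpm := hx.pm
  have hA0 := hc.A0
  obtain ⟨ρ₁, hρ₁, H1⟩ := hk A₁ B₁ Λ₁ p₀ lam hx g1 g2 hlam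
  obtain ⟨φ, ρ₂, b3, b4, H2⟩ := hg hgA hgB Sl hSl hσ hT hraw A₁ B₁ Λ₁ p₀ lam hx g1 g2
    (base_one h.pos kn_yZT ykZ_yZT hA0 (by linarith) (by linarith) hx.pl K) ξ₀ ν₀ C (2 * C + 1) Cm
    κ hξ hν hC (by linarith) b1 b2 D (fun l _ l1 => by linarith [D1 l l1]) (fun l _ l1 => D3 l l1)
    (Lb Cm κ) (hcod _ _ _ _ _ hc g1 g2)
  refine ⟨Cm, κ, min φ φ₁, min ρ₁ ρ₂, b1, b2, lt_min b3 hφ₁, lt_min hρ₁ b4, ?_⟩
  intro R hR hRρ hLb w hw j x w1 j2 x2 δW q ξ μ ν φ' p s N hφ' hξR hνR hμθ hνθ hqθ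
  have f1 : φ' ≤ φ * R := hφ'.trans (mul_le_mul_of_nonneg_right (min_le_left _ _) hR.le)
  have f2 : φ' ≤ φ₁ * R := hφ'.trans (mul_le_mul_of_nonneg_right (min_le_right _ _) hR.le)
  refine H2 R hR (hRρ.trans_le (min_le_right _ _)) hLb w hw j x w1 j2 x2 δW q ξ μ ν φ' p s N f1
    hξR hνR hμθ hνθ hqθ ?_
  refine vfC_mono (H1 R hR (hRρ.trans_le (min_le_left _ _)) w hw j x w1 x2 δW q ξ μ ν φ' p s D
    (fun l _ l1 => ⟨D1 l l1.le, D3 l l1.le, D2 l l1⟩) N f2) ?_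
  rw [mul_assoc]
  exact mul_le_mul_of_nonneg_left hξR a4.le

/-- **The moved place is full** (`VfG`): it is the first place of the chain. -/
theorem vfG_one (X : AsmC S c v v s₀ A B Λ sn G) :
    ∀ᵐ g : ℝ, A < g → g < B → ∀ Sl : ℕ → ℝ, SlpG sn v (v + 1) G g Sl →
      (Sl v < 2 ∨ AfG S c sn G g v) → VfG S c v v A B Λ sn G g Sl := by
  obtain ⟨γ, y, h⟩ := X.gch
  obtain ⟨θ, hθ⟩ := X.vel
  filter_upwards [vel_one h (Nat.lt_succ_self v) X.sn0 hθ X.vnum] with g hg hgA hgB Sl hS h2 e C Cd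
    he hC _
  obtain ⟨k, hk⟩ := hg hgA hgB Sl hS (hS.gt v le_rfl (Nat.lt_succ_self v)) h2 e (2 * C) he
    (by positivity)
  refine ⟨k, 1, one_pos, fun A₁ B₁ Λ₁ p₀ lam hx g1 g2 g3 => ?_⟩
  obtain ⟨ρ, hρ, H⟩ := vfC_of (hk A₁ B₁ Λ₁ p₀ lam hx g1 g2 g3 _ _ ykZ_yZT) h.pos
  refine ⟨ρ, hρ, fun R hR hRρ w hw j x w1 x2 δW q ξ μ ν φ' p s D _ N _ => ?_⟩
  have hsv := N.sc v le_rfl (by omega)
  have hq := N.q0
  have hξ := N.ξ0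
  have hμ := N.μ0
  have hν := N.ν0
  have hqC := N.qC
  have hwx := N.wx
  have hxn := N.xn v le_rfl le_rfl
  have hpc := (N.pc v le_rfl (by omega)).1
  have hφν := N.φν
  have hSl0 := hS.nn v le_rfl (by omega)
  have e0 := mul_nonneg hSl0 (show 0 ≤ x - w by linarith)
  have e1 : 2 * C * R = C * R + C * R := by ring
  have e2 : 0 < e / 32 * R := by positivity
  have e3 : 0 < C * R := by positivity
  refine H R hR hRρ w hw x w1 hwx x2 p _ _ _ _ _ ?_ ?_ ?_ ?_ ?_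
  · rw [e1]
    linarith
  · rw [hsv]
    linarith
  · linarith
  · rw [hsv, e1]
    linarith
  · rw [hsv, e1]
    linarith

/-- **The closed gradient in the direction of the first place of the chain**, in all small boxes at
almost every `g`; the base is one place. -/
theorem asm_one (K : ℕ) {hd ε : ℝ} (hh : 0 < hd) (hh1 : hd ≤ 1) (hε : 0 < ε) :
    ∃ (κ₂ ι θ : ℝ) (k₁ : ℕ), 0 < κ₂ ∧ κ₂ ≤ 1 ∧ 0 < ι ∧ 0 < θ ∧ θ ≤ 1 ∧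
      ∀ {m : ℕ} {S : PCl m} {c : ℕ → Fin m} {s₀ A B Λ : ℝ} {sn : ℝ → ℕ → ℝ} {G : Set ℝ}
        (_ : AsmC S c 1 1 s₀ A B Λ sn G),
      ∀ᵐ g : ℝ, A < g → g < B → ∀ Sl : ℕ → ℝ, SlpG sn 1 2 G g Sl → 1 < Sl 2 →
        (Sl 1 < 2 ∨ AfG S c sn G g 1) → AtTg S c 2 sn G g → RawG S c sn G g hd 2 →
        ∀ Lb : ℝ → ℝ → ℝ → Prop, CodU S c 1 1 K s₀ sn G g Sl Lb →
        ∀ ξ₀ ν₀ C : ℝ, 0 < ξ₀ → 0 < ν₀ → 0 < C →
          ∃ Cm κ φ ρ : ℝ, 0 < Cm ∧ 0 < κ ∧ 0 < φ ∧ 0 < ρ ∧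
          ∀ R : ℝ, 0 < R → R < ρ → Lb Cm κ R → ∀ w ∈ G, ∀ j x : ℝ, g - R ≤ w → j ≤ g + R →
            x ≤ g + R → ∀ (δW q ξ μ ν φ' : ℝ) (p s : ℕ → ℝ),
            Bx2 sn 1 1 Sl w j x δW q ξ μ ν φ' (C * R) p s → φ' ≤ φ * R → ξ₀ * R ≤ ξ →
            ν₀ * R ≤ ν → μ ≤ θ * ξ → ν ≤ θ * ξ → θ * ξ + ν ≤ q →
            CGr S c 1 K w δW j x p s q ξ μ κ₂ ι k₁ ε := by
  obtain ⟨κ₂, ι, θ, k₁, a1, a2, a3, a4, a5, HB⟩ := asm_v 1 K hh hh1 hε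
  refine ⟨κ₂, ι, θ, k₁, a1, a2, a3, a4, a5, ?_⟩
  intro m S c s₀ A B Λ sn G X
  filter_upwards [HB X le_rfl, vfG_one X] with g hg hvf hgA hgB Sl hSl hσ hs1 hT hraw Lb hcod
  exact hg hgA hgB Sl hSl hσ hT hraw Lb hcod (hvf hgA hgB Sl hSl hs1)

end Pool.AVG50
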