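import Pool.Agent.H50.AVG.Rwg
import Pool.Agent.H71.CDX.Cdn
import Pool.Agent.H83.OWN.Hna
import Pool.Agent.H83.OWN.Yft

/-!
# The closed gradient in a class: parameters, codes, rows

`yZT_W`: the near path `yZT` knows the time and the side information. `prm_ex`: parameters with few
digits of the velocity. `srcG_all`: the codes of all places of the chain. `rawN_sub`: the rows of
smaller intervals.
-/

set_option autoImplicit false

namespace Pool.AVG50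

open Finset Real MvPolynomial MeasureTheory Filter
open Pool.Agent.H49.Ent Pool.Agent.H32.Dense Pool.STK Pool.KA Pool.KSAT Pool.K2S Pool.PB Pool.GEN
open Pool.S6C Pool.RCD Pool.LA91 Pool.AVG96 Pool.OWN68 Pool.OWN83 Pool.CDX

variable {m : ℕ} {γ : ∀ J : ℕ, Fam m J → Type} {y : ∀ (J : ℕ) (F : Fam m J), F.Ω → γ J F}
  {S : PCl m} {c : ℕ → Fin m} {r₀ r K : ℕ} {s₀ A B Λ : ℝ} {sn : ℝ → ℕ → ℝ} {G : Set ℝ} {g : ℝ}
  {Sl : ℕ → ℝ}

theorem yZT_W {I : Finset (Fin m)} {p₀ lam : ℝ} (J : ℕ) (F : Fam m J) :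
    ∃ φ : F.ζ × ℕ × (Fin m → ℤ) × (Fin m → ℤ) → F.ζ × ℕ, ∀ ω,
      φ (yZT I p₀ lam J F ω) = (F.Z ω, F.T ω) :=
  ⟨fun v => (v.1, v.2.1), fun _ => rfl⟩

/-- **Parameters with few digits of the velocity.** -/
theorem prm_ex (hAg : A < g) (hgB : g < B) (hB : B < 1) (hΛ : 0 < Λ) {x : ℝ} (hx : 0 < x) :
    ∃ A₁ B₁ Λ₁ p₀ lam : ℚ, IxV A B Λ A₁ B₁ Λ₁ p₀ lam ∧ (A₁ : ℝ) < g ∧ g < B₁ ∧ (lam : ℝ) ≤ x := by
  obtain ⟨lam, l1, l2⟩ := exists_rat_btwn (show (0 : ℝ) < min x (1 - g) from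
    lt_min hx (by linarith))
  have l3 : (lam : ℝ) ≤ x := l2.le.trans (min_le_left _ _)
  have l4 : (lam : ℝ) ≤ 1 - g := l2.le.trans (min_le_right _ _)
  obtain ⟨A₁, a1, a2⟩ := exists_rat_btwn (show max A (g - lam / 8) < g from
    max_lt hAg (by linarith))
  obtain ⟨B₁, b1, b2⟩ := exists_rat_btwn (show g < min B (g + lam / 8) from
    lt_min hgB (by linarith))
  obtain ⟨Λ₁, c1, c2⟩ := exists_rat_btwn (show (0 : ℝ) < min Λ (lam / 8) from
    lt_min hΛ (by linarith))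
  have a3 := (le_max_left A (g - lam / 8)).trans a1.le
  have a4 := (le_max_right A (g - lam / 8)).trans a1.le
  have b3 := b2.le.trans (min_le_left B (g + lam / 8))
  have b4 := b2.le.trans (min_le_right B (g + lam / 8))
  have c3 := c2.le.trans (min_le_left Λ (lam / 8))
  have c4 := c2.le.trans (min_le_right Λ (lam / 8))
  refine ⟨A₁, B₁, Λ₁, A₁ + lam, lam, ⟨a3, b3, c1, c3, ?_, ?_, ?_, ?_⟩, a2, b1, l3⟩
  · push_cast
    linarith
  · linarith
  · push_cast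
    linarith
  · push_cast
    linarith

/-! ### The codes -/

/-- **The codes of all places of the chain**: places of slope less than `2`, or places with affine
labels. -/
theorem srcG_all {v : ℕ} (h : GCh S (fun J F => ptr F J) y c r₀ (v + 1) s₀ A B Λ sn G)
    (hgA : A < g) (hgB : g < B) (hS : SlpG sn r₀ (v + 1) G g Sl)
    (H : ∀ l, r₀ ≤ l → l ≤ v → Sl l < 2 ∨ AfG S c sn G g l) :
    ∀ l, r₀ ≤ l → l ≤ v → SrcG S y c r₀ K sn G g l := by
  intro l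
  induction l using Nat.strong_induction_on with
  | _ l ih =>
    intro l0 l1
    have hs : ∀ l', r₀ ≤ l' → l' < l → SrcG S y c r₀ K sn G g l' := fun l' a b =>
      ih l' b a (by omega)
    rcases H l l0 l1 with h1 | h1
    · exact src_nat h hgA hgB hS l0 (by omega) h1 hs
    · exact src_aff h hgA hgB l0 (by omega) h1 hs

/-- The rows of a smaller interval. -/
theorem rawN_sub {I : Finset (Fin m)} {κ : Fin m} {p q h δ P₁ P₂ : ℝ}
    (H : RawN S I κ p q h δ) (h1 : p ≤ P₁) (h2 : P₂ = p + q) :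
    RawN S I κ P₁ (P₂ - P₁) h δ := by
  intro x hx0 hx
  have h3 := H (P₁ - p + x) (by linarith) (by linarith)
  have e1 : p + (P₁ - p + x) = P₁ + x := by ring
  have e2 : P₁ + (P₂ - P₁) = p + q := by rw [h2]; ring
  have e3 : q - (P₁ - p + x) = P₂ - P₁ - x := by rw [h2]; ring
  rw [e1, e3] at h3
  rw [e2]
  exact h3

/-- **The near digits of the first place are full given its velocity**, places of any slope with
affine labels included. -/
theorem vel_one (h : GCh S (fun J F => ptr F J) y c r₀ r s₀ A B Λ sn G) (hr : r₀ < r)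
    (hsn : ∀ w ∈ G, A ≤ w → w < B → 0 ≤ sn w r₀) {θ : ℕ → ℚ → ℝ}
    (hθ : VelN S (fun J F => ptr F J) ((range r₀).image c) s₀ A B θ)
    (hV : VNumA S (fun J F => ptr F J) c r₀ s₀ A B Λ sn G) :
    ∀ᵐ g : ℝ, A < g → g < B → ∀ Sl : ℕ → ℝ, SlpG sn r₀ r G g Sl → 1 < Sl r₀ →
      (Sl r₀ < 2 ∨ AfG S c sn G g r₀) →
      ∀ e C : ℝ, 0 < e → 0 < C → ∃ k : ℕ, ∀ A₁ B₁ Λ₁ p₀ lam : ℚ, IxV A B Λ A₁ B₁ Λ₁ p₀ lam →
        (A₁ : ℝ) < g → g < B₁ → (lam : ℝ) ≤ (1 / 8) ^ k →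
        ∀ (γ' : ∀ J : ℕ, Fam m J → Type) (y' : ∀ (J : ℕ) (F : Fam m J), F.Ω → γ' J F),
        YkZ ((range r₀).image c) p₀ lam y' →
        VelGre S (fun J F => ptr F J) y' (Qt.fn fun _ _ _ => ()) c r₀ sn G (Sl r₀) g e (e / 32)
          C := by
  filter_upwards [vel_ae_jet h (fun J F => ⟨fun x => x, fun _ => rfl⟩) hr hsn hθ hV] with g hg hgA
    hgB Sl hS h1 h2 e C he hC
  obtain ⟨k, hk⟩ := hg hgA hgB Sl hS h1 e C he hC
  refine ⟨k, fun A₁ B₁ Λ₁ p₀ lam hx g1 g2 g3 => hk A₁ B₁ Λ₁ p₀ lam hx g1 g2 g3 ?_⟩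
  have hc := (gch_cut h hx.hA hx.hB hx.h0 hx.hΛ).yT (p₀ := p₀) (lam' := lam) hx.p1 hx.pm hx.p0
  rcases h2 with h2 | h2
  · exact Pool.AVG71.jetG_slow hc hr.le g1 g2 hS h2
  · exact jetG_aff hc g1 g2 h2

end Pool.AVG50
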