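import Pool.Agent.H50.AVG.Asb

/-!
# The closed gradient in a class: the inputs of all boxes at a point

`Bx2`: the numbers of a box without the digits; `nB`: the digits. `CodB`: the codes in the boxes of one
scale. `asm_pt`: the inputs `C1X` and `C1R` of the closed gradient in all boxes at a point, from the
fullness of the moved place.
-/

set_option autoImplicit false

namespace Pool.AVG50

open Finset Real MvPolynomial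
open Pool.Agent.H49.Ent Pool.Agent.H32.Dense Pool.STK Pool.KA Pool.KSAT Pool.K2S Pool.PB Pool.GEN
open Pool.S6C Pool.RCD Pool.LA91 Pool.AVG96 Pool.AVG57 Pool.OWN68 Pool.OWN83 Pool.CDX

/-- **The numbers of a box.** `q`, `ξ`, `μ`: the parameters; `ν`: the margin; `φ`: the loss of the
labels; `s`, `p`: the levels and the precisions of the labels. -/
structure Bx2 (sn : ℝ → ℕ → ℝ) (r₀ v : ℕ) (Sl : ℕ → ℝ) (w j x δW q ξ μ ν φ C : ℝ)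
    (p s : ℕ → ℝ) : Prop where
  q0 : 0 < q
  ξ0 : 0 < ξ
  μ0 : 0 < μ
  ν0 : 0 < ν
  δ0 : 0 < δW
  δν : δW ≤ ν / 8
  δξ : δW ≤ ξ
  φν : φ ≤ ν / 8
  φμ : φ < μ
  wj : w ≤ j
  wx : w ≤ x
  jn : ∀ l, r₀ ≤ l → l ≤ v + 1 → Sl l * (j - w) + ν ≤ q
  xn : ∀ l, r₀ ≤ l → l ≤ v → Sl l * (x - w) + ν ≤ q
  xq : q ≤ Sl (v + 1) * (x - w)
  qC : q + ξ + μ ≤ C
  base : ∀ l < r₀, 0 ≤ p l ∧ p l ≤ s l ∧ s l ≤ w + C
  sc : ∀ l, r₀ ≤ l → l ≤ v + 1 → s l = sn w l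
  p0 : ∀ l, r₀ ≤ l → l ≤ v + 1 → 0 ≤ p l
  pc : Rgh sn r₀ (v + 1) w φ p

/-- **The digits**: `b` for the base, `D l * R` more than the level for the chain. -/
noncomputable def nB (r₀ : ℕ) (b : ℝ) (sn : ℝ → ℕ → ℝ) (w : ℝ) (D : ℕ → ℝ) (R : ℝ) (l : ℕ) : ℝ :=
  if l < r₀ then b else sn w l + D l * R

theorem nB_lt {r₀ : ℕ} {b : ℝ} {sn : ℝ → ℕ → ℝ} {w : ℝ} {D : ℕ → ℝ} {R : ℝ} {l : ℕ}
    (h : l < r₀) : nB r₀ b sn w D R l = b := if_pos h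

theorem nB_ge {r₀ : ℕ} {b : ℝ} {sn : ℝ → ℕ → ℝ} {w : ℝ} {D : ℕ → ℝ} {R : ℝ} {l : ℕ}
    (h : r₀ ≤ l) : nB r₀ b sn w D R l = sn w l + D l * R := if_neg (not_lt.2 h)

/-- The numbers with the digits. -/
theorem Bx2.bx1 {sn : ℝ → ℕ → ℝ} {r₀ v : ℕ} {Sl : ℕ → ℝ} {w j x δW q ξ μ ν φ C : ℝ}
    {p s : ℕ → ℝ} (N : Bx2 sn r₀ v Sl w j x δW q ξ μ ν φ C p s) {b b' C' R : ℝ} {D : ℕ → ℝ}
    (hb : w + C + C < b) (hbb : b ≤ b') (hD : ∀ l, r₀ ≤ l → l ≤ v → C < D l * R)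
    (hC : C ≤ C') (hD' : ∀ l, r₀ ≤ l → l ≤ v → D l * R ≤ C') :
    Bx1 sn r₀ v Sl w j x δW q ξ μ ν φ C' p s (nB r₀ b sn w D R) (nB r₀ b' sn w D R) where
  q0 := N.q0
  ξ0 := N.ξ0
  μ0 := N.μ0
  ν0 := N.ν0
  δ0 := N.δ0
  δν := N.δν
  δξ := N.δξ
  φν := N.φν
  φμ := N.φμ
  wj := N.wj
  wx := N.wx
  jn := N.jn
  xn := N.xn
  qC := N.qC.trans hC
  base := fun l hl => by
    obtain ⟨h1, h2, h3⟩ := N.base l hl
    have h4 := N.qC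
    rw [nB_lt hl, nB_lt hl]
    exact ⟨h1, h2, by linarith, hbb⟩
  sc := N.sc
  p0 := N.p0
  pc := N.pc
  nc := fun l l0 l1 => by
    rw [nB_ge l0, nB_ge l0]
    have h4 := N.qC
    have h5 := hD l l0 l1
    have h6 := hD' l l0 l1
    exact ⟨by linarith, by linarith, rfl⟩

variable {m : ℕ} {γ : ∀ J : ℕ, Fam m J → Type} {S : PCl m}
  {y : ∀ (J : ℕ) (F : Fam m J), F.Ω → γ J F} {c : ℕ → Fin m} {r₀ v K : ℕ}
  {s₀ A B Λ : ℝ} {sn : ℝ → ℕ → ℝ} {G : Set ℝ} {g : ℝ} {Sl : ℕ → ℝ}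

/-- **The inputs of codes** (`cd`, `dj`, `jt`) in the boxes of the scale `R`. -/
def CodB (S : PCl m) (y : ∀ (J : ℕ) (F : Fam m J), F.Ω → γ J F) (c : ℕ → Fin m) (r₀ v K : ℕ)
    (sn : ℝ → ℕ → ℝ) (G : Set ℝ) (g : ℝ) (Sl : ℕ → ℝ) (e C ν₀ : ℝ) (D : ℕ → ℝ)
    (Cm κ R : ℝ) : Prop :=
  ∀ w ∈ G, g - R ≤ w → ∀ x : ℝ, w ≤ x → x ≤ g + R → ∀ (a p s n n' : ℕ → ℝ) (q ξ ν : ℝ),
    (∀ l, r₀ ≤ l → l ≤ v + 1 → sn w l - κ * R ≤ p l) → s v = sn w v →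
    s (v + 1) = sn w (v + 1) →
    (∀ l, r₀ ≤ l → l ≤ v → sn w l + (D l - 1) * R ≤ n l ∧ n l ≤ sn w l + D l * R ∧
      n' l = n l) →
    (∀ j : ℕ, j ≤ 1 → sn w v + Cm * R ≤ nD sn a v j + (j : ℝ) * w) →
    (∀ l, r₀ ≤ l → l ≤ v → Sl l * (x - w) + ν ≤ q) → q ≤ Sl (v + 1) * (x - w) →
    0 ≤ ξ → q + ξ ≤ C * R → ν₀ * R ≤ ν →
    (∀ l, r₀ ≤ l → l ≤ v → CdC S y c l K 2 w w (p l) (n' l) (e * R)
      (jetQ m c r₀ l w p (nd n n' w))) ∧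
    CdC S y c (v + 1) K 1 w w (p (v + 1)) (s (v + 1) + q + ξ) (e * R)
      (jetQ m c r₀ (v + 1) w p (ddN sn a n n' w v)) ∧
    CdC S y c (v + 1) K 0 w x (p (v + 1)) (s (v + 1) + q - ν) (e * R)
      (qJets m c r₀ (v + 1) (K + 2) (fun _ _ => w) (fun l _ => p l)
        (fun l j' => ntN s n (q - ν / 4) v l - (j' : ℝ) * w))

/-- **The rows in the boxes.** -/
theorem row_pt (h : GCh S (fun J F => ptr F J) y c r₀ (v + 1) s₀ A B Λ sn G) (hr : r₀ ≤ v)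
    (hV : ∀ w ∈ G, A ≤ w → w < B → AtV S c r₀ w) (hgA : A < g) (hgB : g < B)
    (hSl : SlpG sn r₀ (v + 1) G g Sl) (hσ : 1 < Sl (v + 1)) (hT : AtTg S c (v + 1) sn G g)
    (hyW : ∀ (J : ℕ) (F : Fam m J), ∃ ψ : γ J F → F.ζ × ℕ, ∀ ω, ψ (y J F ω) = (F.Z ω, F.T ω))
    {hd : ℝ} (hd1 : hd ≤ 1) (hraw : RawG S c sn G g hd (v + 1)) {ξ₀ C θ : ℝ} (hξ : 0 < ξ₀)
    (hC : 0 < C) (hθ : 0 < θ) (hθ1 : θ ≤ 1) :
    ∃ φ : ℝ, 0 < φ ∧ ∃ ρ : ℝ, 0 < ρ ∧ ∀ R : ℝ, 0 < R → R < ρ → ∀ w ∈ G, g - R ≤ w →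
      ∀ (j x δW q ξ μ ν φ' : ℝ) (p s n n' : ℕ → ℝ), x ≤ g + R →
        Bx1 sn r₀ v Sl w j x δW q ξ μ ν φ' (C * R) p s n n' → q ≤ Sl (v + 1) * (x - w) →
        φ' ≤ φ * R → ξ₀ * R ≤ ξ →
        ∀ P₁ P₂ : ℝ, s (v + 1) ≤ P₁ → P₁ ≤ P₂ → P₂ ≤ s (v + 1) + q + ξ + θ * ξ →
          RwC S y c r₀ v w p (fun l => if l = v then s v + q + ξ else n l) P₁ P₂ hd (θ * ξ) := by
  by_cases hS : ∀ l, r₀ ≤ l → l ≤ v → Sl l ≤ Sl (v + 1)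
  · obtain ⟨φ, hφ, ρ₁, hρ₁, H⟩ := rwc_box h hr hV hgA hgB hSl hσ hS hT hyW hd1 hξ hC
      (show 0 < θ * ξ₀ / 16 by positivity)
    obtain ⟨ρ₂, hρ₂, H2⟩ := hraw (θ * ξ₀ / 16) (2 * C) (by positivity) (by positivity)
    refine ⟨φ, hφ, min ρ₁ ρ₂, lt_min hρ₁ hρ₂, ?_⟩
    intro R hR hRρ w hw hw1 j x δW q ξ μ ν φ' p s n n' hx N hxq hφ' hξR P₁ P₂ h1 h2 h3
    have r1 := hRρ.trans_le (min_le_left _ _)
    have r2 := hRρ.trans_le (min_le_right _ _)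
    have hw2 : w ≤ g + R := N.wx.trans hx
    have hst := N.sc (v + 1) (by omega) le_rfl
    have hq := N.q0
    have hξ' := N.ξ0
    have hμ := N.μ0
    have hqC := N.qC
    have hθξ : θ * ξ ≤ ξ := by
      have := mul_le_mul_of_nonneg_right hθ1 hξ'.le
      linarith
    have hs0 : 0 ≤ s (v + 1) := by
      rw [hst]
      exact (N.p0 (v + 1) (by omega) le_rfl).trans (N.pc (v + 1) (by omega) le_rfl).2
    refine H R hR r1 w hw hw1 hw2 j x δW q ξ μ ν φ' p s n n' (s (v + 1))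
      (s (v + 1) + q + ξ + θ * ξ) (θ * ξ₀ / 16 * R) (θ * ξ) N hφ' (by linarith) hs0 ?_ ?_ P₁ P₂
      h1 h2 h3
    · intro Q₁ Q₂ a1 a2 a3
      rw [min_self] at a1
      have a4 : sn w (v + 1) ≤ Q₁ := hst ▸ a1
      refine rawN_sub (H2 R hR r2 w hw hw1 hw2 (Q₂ - sn w (v + 1)) (by linarith) ?_) a4 (by ring)
      have e1 : 2 * C * R = C * R + C * R := by ring
      rw [e1, ← hst]
      linarith
    · have e1 : s (v + 1) + q + ξ + θ * ξ - (s (v + 1) + q + ξ) = θ * ξ := by ring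
      rw [e1, max_eq_right (by positivity)]
      have e2 : θ * ξ * Real.log 2 ≤ θ * ξ * (7 / 8) := by
        refine mul_le_mul_of_nonneg_left ?_ (by positivity)
        have := Real.log_two_lt_d9
        linarith
      have e3 : θ * (ξ₀ * R) ≤ θ * ξ := mul_le_mul_of_nonneg_left hξR hθ.le
      have e4 : θ * ξ₀ / 16 * R = θ * (ξ₀ * R) / 16 := by ring
      rw [e4]
      linarith
  · refine ⟨1, one_pos, 1, one_pos, ?_⟩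
    intro R hR hRρ w hw hw1 j x δW q ξ μ ν φ' p s n n' hx N hxq hφ' hξR
    exfalso
    apply hS
    intro l l0 l1
    have h1 := N.xn l l0 l1
    have h2 := N.ν0
    have h3 : Sl l * (x - w) < Sl (v + 1) * (x - w) := by linarith
    have h4 : 0 ≤ x - w := by linarith [N.wx]
    exact (lt_of_mul_lt_mul_right h3 h4).le

/-- **The inputs of the closed gradient in all boxes at a point**, for given digits `D` of the chain. -/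
theorem asm_pt (h : GCh S (fun J F => ptr F J) y c r₀ (v + 1) s₀ A B Λ sn G) (hr : r₀ ≤ v)
    (hV : ∀ w ∈ G, A ≤ w → w < B → AtV S c r₀ w) (hgA : A < g) (hgB : g < B)
    (hSl : SlpG sn r₀ (v + 1) G g Sl) (hσ : 1 < Sl (v + 1)) (hT : AtTg S c (v + 1) sn G g)
    (hyW : ∀ (J : ℕ) (F : Fam m J), ∃ ψ : γ J F → F.ζ × ℕ, ∀ ω, ψ (y J F ω) = (F.Z ω, F.T ω))
    {hd : ℝ} (hd1 : hd ≤ 1) (hraw : RawG S c sn G g hd (v + 1)) {b lam : ℝ} (hb : B ≤ b)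
    (hbl : b ≤ A + lam)
    (hbase : ∀ (e w : ℝ) (p n n' : ℕ → ℝ), 0 < e → A ≤ w → w ≤ 1 → (∀ l < r₀, n l = b) →
      (∀ l < r₀, n' l = lam + w) → YfC S y c r₀ w p n n' e ∧
      (∀ l < r₀, CdC S y c l K 0 w w (p l) (n l) e (Qt.fn fun _ _ _ => ())) ∧
      ∀ l < r₀, CdC S y c l K 1 w w (p l) (n' l) e (Qt.fn fun _ _ _ => ()))
    (HX : ∀ e ν₀ C δ : ℝ, 0 < e → 0 < ν₀ → 0 < C → 0 < δ → ∃ φ : ℝ, 0 < φ ∧ ∃ a : ℕ → ℝ,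
        (∀ l, r₀ ≤ l → l ≤ v + 1 → a l ∈ G ∧ g < a l ∧ a l < g + δ ∧ a l < B) ∧
        ∃ ρ : ℝ, 0 < ρ ∧ ∃ (lv : ℕ → ℝ) (σ₀ : ℝ),
          FarR sn G r₀ (v + 1) a Λ (g - ρ) (g + ρ) lv σ₀ ∧ C * ρ ≤ σ₀ / 2 ∧
          C * ρ + σ₀ / 2 ≤ Λ ∧
          ∀ R : ℝ, 0 < R → R < ρ → ∀ w ∈ G, ∀ j x : ℝ, g - R ≤ w → j ≤ g + R → x ≤ g + R →
            ∀ (δW q ξ μ ν φ' : ℝ) (p s n n' : ℕ → ℝ), ν₀ * R ≤ ν → φ' ≤ φ * R →
            Bx1 sn r₀ v Sl w j x δW q ξ μ ν φ' (C * R) p s n n' →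
            C1X S y c r₀ v sn a w j x δW q ξ μ ν p s n n' (e * R))
    {ξ₀ ν₀ C C₁ θ Cm κ : ℝ} (hξ : 0 < ξ₀) (hν : 0 < ν₀) (hC : 0 < C) (hθ : 0 < θ)
    (hθ1 : θ ≤ 1) {D : ℕ → ℝ} (hC₁ : C + 1 ≤ C₁) (D1 : ∀ l, r₀ ≤ l → l ≤ v → C + 1 ≤ D l)
    (D3 : ∀ l, r₀ ≤ l → l ≤ v → D l ≤ Cm) (hCm : 0 < Cm) (hκ : 0 < κ) {Lb : ℝ → Prop}
    (hcod : ∃ ρ : ℝ, 0 < ρ ∧ ∀ R : ℝ, 0 < R → R < ρ →
      Lb R → CodB S y c r₀ v K sn G g Sl (θ * ξ₀) C₁ ν₀ D Cm κ R) :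
    ∃ φ ρ : ℝ, 0 < φ ∧ 0 < ρ ∧ ∃ a : ℕ → ℝ,
      ∀ R : ℝ, 0 < R → R < ρ → Lb R → ∀ w ∈ G, ∀ j x : ℝ, g - R ≤ w → j ≤ g + R →
        x ≤ g + R → ∀ (δW q ξ μ ν φ' : ℝ) (p s : ℕ → ℝ),
        Bx2 sn r₀ v Sl w j x δW q ξ μ ν φ' (C * R) p s → φ' ≤ φ * R → ξ₀ * R ≤ ξ →
        ν₀ * R ≤ ν →
        VfC S y c r₀ v w x p (nB r₀ b sn w D R) (nB r₀ (lam + w) sn w D R) (s v + q)
          (s v + q + ξ) (s v + (q + ξ + μ + ν) - w) (θ * ξ) →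
        C1X S y c r₀ v sn a w j x δW q ξ μ ν p s (nB r₀ b sn w D R)
          (nB r₀ (lam + w) sn w D R) (θ * ξ) ∧
        C1R S y c r₀ v K sn a w x q ξ μ ν p s (nB r₀ b sn w D R) (nB r₀ (lam + w) sn w D R) hd
          (s (v + 1)) (s (v + 1) + q + ξ + θ * ξ) (θ * ξ) := by
  obtain ⟨ρ₁, b3, H1⟩ := hcod
  obtain ⟨C₂, hC₂⟩ : ∃ C₂, C₂ = C + Cm := ⟨_, rfl⟩
  have hC₂0 : 0 < C₂ := by rw [hC₂]; linarith
  obtain ⟨φ₂, hφ₂, a, -, ρ₂, hρ₂, lv, σ₀, hF, hC1, -, H2⟩ := HX (θ * ξ₀) ν₀ C₂ 1 (by positivity)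
    hν hC₂0 one_pos
  obtain ⟨φ₃, hφ₃, ρ₃, hρ₃, H3⟩ := row_pt h hr hV hgA hgB hSl hσ hT hyW hd1 hraw hξ hC₂0 hθ hθ1
  obtain ⟨ρ₄, hρ₄, q1, q2⟩ : ∃ ρ₄ : ℝ, 0 < ρ₄ ∧ (1 + C + C) * ρ₄ ≤ B - g ∧ ρ₄ ≤ g - A := by
    have q1 : 0 < B - g := by linarith
    refine ⟨min ((B - g) / (1 + C + C)) (g - A), lt_min (by positivity) (by linarith), ?_,
      min_le_right _ _⟩
    have h2 := mul_le_mul_of_nonneg_left (min_le_left ((B - g) / (1 + C + C)) (g - A))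
      (show (0 : ℝ) ≤ 1 + C + C by linarith)
    have h3 : (1 + C + C) * ((B - g) / (1 + C + C)) = B - g := by field_simp
    linarith
  refine ⟨min (min φ₂ φ₃) κ, min (min ρ₁ ρ₂) (min ρ₃ ρ₄), lt_min (lt_min hφ₂ hφ₃) hκ,
    lt_min (lt_min b3 hρ₂) (lt_min hρ₃ hρ₄), a, ?_⟩
  intro R hR hRρ hLb w hw j x w1 j2 x2 δW q ξ μ ν φ' p s N hφ' hξR hνR hvf
  have r1 := hRρ.trans_le ((min_le_left _ _).trans (min_le_left _ _))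
  have r2 := hRρ.trans_le ((min_le_left _ _).trans (min_le_right _ _))
  have r3 := hRρ.trans_le ((min_le_right _ _).trans (min_le_left _ _))
  have r4 := hRρ.trans_le ((min_le_right _ _).trans (min_le_right _ _))
  have hφ2 : φ' ≤ φ₂ * R := hφ'.trans (mul_le_mul_of_nonneg_right
    ((min_le_left _ _).trans (min_le_left _ _)) hR.le)
  have hφ3 : φ' ≤ φ₃ * R := hφ'.trans (mul_le_mul_of_nonneg_right
    ((min_le_left _ _).trans (min_le_right _ _)) hR.le)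
  have hφκ : φ' ≤ κ * R := hφ'.trans (mul_le_mul_of_nonneg_right (min_le_right _ _) hR.le)
  have hwx := N.wx
  have hξ' := N.ξ0
  have hμ := N.μ0
  have hqC := N.qC
  have hCR : 0 < C * R := by positivity
  have e1 : (1 + C + C) * R < (1 + C + C) * ρ₄ := mul_lt_mul_of_pos_left r4 (by linarith)
  have e2 : (1 + C + C) * R = R + C * R + C * R := by ring
  have hAw : A ≤ w := by linarith
  have hwB : w < B := by linarith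
  have hB1 := h.B1
  have eC2 : C₂ * R = C * R + Cm * R := by rw [hC₂]; ring
  have hCmR : 0 < Cm * R := by positivity
  have hD1 : ∀ l, r₀ ≤ l → l ≤ v → C * R < D l * R := fun l l0 l1 =>
    mul_lt_mul_of_pos_right (by linarith [D1 l l0 l1]) hR
  have hD3 : ∀ l, r₀ ≤ l → l ≤ v → D l * R ≤ C₂ * R := fun l l0 l1 => by
    have := mul_le_mul_of_nonneg_right (D3 l l0 l1) hR.le
    linarith
  have N1 : Bx1 sn r₀ v Sl w j x δW q ξ μ ν φ' (C₂ * R) p s (nB r₀ b sn w D R)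
      (nB r₀ (lam + w) sn w D R) := N.bx1 (by linarith) (by linarith) hD1 (by linarith) hD3
  have hη : θ * ξ₀ * R ≤ θ * ξ := by
    rw [mul_assoc]
    exact mul_le_mul_of_nonneg_left hξR hθ.le
  refine ⟨c1x_mono (H2 R hR r2 w hw j x w1 j2 x2 δW q ξ μ ν φ' p s _ _ hνR hφ2 N1) hη, ?_⟩
  have hfar : ∀ j : ℕ, j ≤ 1 → sn w v + Cm * R ≤ nD sn a v j + (j : ℝ) * w := fun j hj => by
    have k1 := hF.far hw (by linarith) (by linarith) hr (Nat.lt_succ_self v) hj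
    have k2 := hF.lv0 v hr (Nat.lt_succ_self v)
    have k3 := hF.σ0
    have k4 : C₂ * R ≤ C₂ * ρ₂ := mul_le_mul_of_nonneg_left r2.le hC₂0.le
    linarith
  have hC₁R : C * R + R ≤ C₁ * R := by
    have := mul_le_mul_of_nonneg_right hC₁ hR.le
    linarith
  obtain ⟨t1, t2, t3⟩ := H1 R hR r1 hLb w hw w1 x hwx x2 a p s (nB r₀ b sn w D R)
    (nB r₀ (lam + w) sn w D R) q ξ ν (fun l l0 l1 => by linarith [(N.pc l l0 l1).1])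
    (N.sc v hr (by omega)) (N.sc (v + 1) (by omega) le_rfl) (fun l l0 l1 => by
      rw [nB_ge l0, nB_ge l0]
      exact ⟨by linarith, le_rfl, rfl⟩) hfar N.xn N.xq hξ'.le (by linarith) hνR
  obtain ⟨u1, u2, u3⟩ := hbase (θ * ξ) w p (nB r₀ b sn w D R) (nB r₀ (lam + w) sn w D R)
    (by positivity) hAw (by linarith) (fun l hl => nB_lt hl) (fun l hl => nB_lt hl)
  exact
    { yW := hyW
      yf := u1
      y0 := u2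
      y1 := u3
      cd := fun l l0 l1 => cdC_mono (t1 l l0 l1) le_rfl hη
      dj := cdC_mono t2 le_rfl hη
      jt := cdC_mono t3 le_rfl hη
      vf := hvf
      row := H3 R hR r3 w hw w1 j x δW q ξ μ ν φ' p s _ _ x2 N1 N.xq hφ3 hξR }

end Pool.AVG50
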