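import Pool.Agent.H50.AVG.Asc

/-!
# The closed gradient in a class at almost every `g`

`base_one`: the inputs of the base, one place. `asm_ae`: the closed gradient in all small boxes at
almost every `g`, from the fullness of the moved place and the codes, for one near path of the base.
-/

set_option autoImplicit false

namespace Pool.AVG50

open Finset Real MvPolynomial MeasureTheory Filter
open Pool.Agent.H49.Ent Pool.Agent.H32.Dense Pool.STK Pool.KA Pool.KSAT Pool.K2S Pool.PB Pool.GEN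
open Pool.S6C Pool.RCD Pool.LA91 Pool.AVG96 Pool.AVG57 Pool.OWN68 Pool.OWN83 Pool.CDX

/-- **The inputs of the base**, one place. -/
theorem base_one {m : ℕ} {S : PCl m}
    (hpos : ∀ (τ : ℝ) (J : ℕ) (F : Fam m J) (A : F.Ω → Prop), S.St τ J F A → 0 < Pe F.p A)
    {γ : ∀ J : ℕ, Fam m J → Type} {y : ∀ (J : ℕ) (F : Fam m J), F.Ω → γ J F} {c : ℕ → Fin m}
    {b lam A : ℝ} (hk : Kn ((range 1).image c) b lam y) (hy : YkZ ((range 1).image c) b lam y)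
    (hA : 0 ≤ A) (hb : 0 ≤ b) (hl : 0 ≤ lam) (hbl : b ≤ A + lam) (K : ℕ) :
    ∀ (e w : ℝ) (p n n' : ℕ → ℝ), 0 < e → A ≤ w → w ≤ 1 → (∀ l < 1, n l = b) →
      (∀ l < 1, n' l = lam + w) → YfC S y c 1 w p n n' e ∧
      (∀ l < 1, CdC S y c l K 0 w w (p l) (n l) e (Qt.fn fun _ _ _ => ())) ∧
      ∀ l < 1, CdC S y c l K 1 w w (p l) (n' l) e (Qt.fn fun _ _ _ => ()) := by
  intro e w p n n' he hAw hw1 hn hn'
  have hc : c 0 ∈ (range 1).image c := Finset.mem_image.2 ⟨0, Finset.mem_range.2 one_pos, rfl⟩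
  refine ⟨yfC_one (yft hpos (fun J F => ykZ_psi hy J F) hb hl (fun l hl' => (hn l hl').ge)
    (fun l hl' => (hn' l hl').ge) he), fun l hl' => ?_, fun l hl' => ?_⟩
  · obtain rfl : l = 0 := by omega
    exact cdC_zero (cdt hpos hk hc (hA.trans hAw) hw1 (fun _ => (hn 0 one_pos).le)
      (by rw [hn 0 one_pos]; linarith) he _)
  · obtain rfl : l = 0 := by omega
    exact cdC_zero (cdt hpos hk hc (hA.trans hAw) hw1 (fun h => absurd h one_ne_zero)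
      (hn' 0 one_pos).le he _)

/-- **The closed gradient in all small boxes at almost every `g`**, for one near path `yZT p₀ lam` of
the base. The hypotheses at `g`: the slopes, the rows and the labels of the target, the base `hbase`,
the codes; in the boxes: the moved place is full (`VfC`). The constants depend on `v`, `K`, `hd`, `ε`
only. -/
theorem asm_ae (v K : ℕ) {hd ε : ℝ} (hh : 0 < hd) (hh1 : hd ≤ 1) (hε : 0 < ε) :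
    ∃ (κ₂ ι θ : ℝ) (k₁ : ℕ), 0 < κ₂ ∧ κ₂ ≤ 1 ∧ 0 < ι ∧ 0 < θ ∧ θ ≤ 1 ∧
      ∀ {m : ℕ} {γ : ∀ J : ℕ, Fam m J → Type} {S : PCl m}
        {y : ∀ (J : ℕ) (F : Fam m J), F.Ω → γ J F} {c : ℕ → Fin m} {r₀ : ℕ}
        {s₀ A B Λ : ℝ} {sn : ℝ → ℕ → ℝ} {G : Set ℝ}
        (_ : GCh S (fun J F => ptr F J) y c r₀ (v + 1) s₀ A B Λ sn G)
        (_ : HNumA S (fun J F => ptr F J)
          (fun p₀ lam : ℚ => yZT (m := m) ((range r₀).image c) p₀ lam) c r₀ (v + 1) s₀ A B Λ sn G)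
        (_ : ∀ w ∈ G, A ≤ w → w < B → AtV S c r₀ w) (_ : r₀ ≤ v),
      ∀ᵐ g : ℝ, A < g → g < B → ∀ Sl : ℕ → ℝ, SlpG sn r₀ (v + 1) G g Sl → 1 < Sl (v + 1) →
        AtTg S c (v + 1) sn G g → RawG S c sn G g hd (v + 1) →
        ∀ A₁ B₁ Λ₁ p₀ lam : ℚ, IxV A B Λ A₁ B₁ Λ₁ p₀ lam → (A₁ : ℝ) < g → g < B₁ →
        (∀ (e w : ℝ) (p n n' : ℕ → ℝ), 0 < e → (A₁ : ℝ) ≤ w → w ≤ 1 →
          (∀ l < r₀, n l = p₀) → (∀ l < r₀, n' l = lam + w) →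
          YfC S (yZT ((range r₀).image c) p₀ lam) c r₀ w p n n' e ∧
          (∀ l < r₀, CdC S (yZT ((range r₀).image c) p₀ lam) c l K 0 w w (p l) (n l) e
            (Qt.fn fun _ _ _ => ())) ∧
          ∀ l < r₀, CdC S (yZT ((range r₀).image c) p₀ lam) c l K 1 w w (p l) (n' l) e
            (Qt.fn fun _ _ _ => ())) →
        ∀ ξ₀ ν₀ C C₁ Cm κ : ℝ, 0 < ξ₀ → 0 < ν₀ → 0 < C → C + 1 ≤ C₁ → 0 < Cm → 0 < κ →
        ∀ D : ℕ → ℝ, (∀ l, r₀ ≤ l → l ≤ v → C + 1 ≤ D l) → (∀ l, r₀ ≤ l → l ≤ v → D l ≤ Cm) →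
        ∀ Lb : ℝ → Prop, (∃ ρ : ℝ, 0 < ρ ∧ ∀ R : ℝ, 0 < R → R < ρ → Lb R →
          CodB S (yZT ((range r₀).image c) p₀ lam) c r₀ v K sn G g Sl (θ * ξ₀) C₁ ν₀ D Cm κ R) →
          ∃ φ ρ : ℝ, 0 < φ ∧ 0 < ρ ∧
          ∀ R : ℝ, 0 < R → R < ρ → Lb R → ∀ w ∈ G, ∀ j x : ℝ, g - R ≤ w → j ≤ g + R →
            x ≤ g + R → ∀ (δW q ξ μ ν φ' : ℝ) (p s : ℕ → ℝ),
            Bx2 sn r₀ v Sl w j x δW q ξ μ ν φ' (C * R) p s → φ' ≤ φ * R → ξ₀ * R ≤ ξ →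
            ν₀ * R ≤ ν → μ ≤ θ * ξ → ν ≤ θ * ξ → θ * ξ + ν ≤ q →
            VfC S (yZT ((range r₀).image c) p₀ lam) c r₀ v w x p (nB r₀ p₀ sn w D R)
              (nB r₀ (lam + w) sn w D R) (s v + q) (s v + q + ξ)
              (s v + (q + ξ + μ + ν) - w) (θ * ξ) →
            CGr S c v K w δW j x p s q ξ μ κ₂ ι k₁ ε := by
  obtain ⟨κ₂, ι, θ, k₁, a1, a2, a3, a4, a5, HB⟩ := c1_box v K hh hh1 hε
  refine ⟨κ₂, ι, θ, k₁, a1, a2, a3, a4, a5, ?_⟩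
  intro m γ S y c r₀ s₀ A B Λ sn G h hn hV hr
  have key : ∀ᵐ g : ℝ, ∀ x : {x : ℚ × ℚ × ℚ × ℚ × ℚ //
      IxV A B Λ x.1 x.2.1 x.2.2.1 x.2.2.2.1 x.2.2.2.2}, (x.1.1 : ℝ) < g → g < x.1.2.1 →
      ∀ Sl : ℕ → ℝ, SlpG sn r₀ (v + 1) G g Sl → 1 < Sl (v + 1) →
      ∀ e ν₀ C δ : ℝ, 0 < e → 0 < ν₀ → 0 < C → 0 < δ → ∃ φ : ℝ, 0 < φ ∧ ∃ a : ℕ → ℝ,
        (∀ l, r₀ ≤ l → l ≤ v + 1 → a l ∈ G ∧ g < a l ∧ a l < g + δ ∧ a l < (x.1.2.1 : ℝ)) ∧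
        ∃ ρ : ℝ, 0 < ρ ∧ ∃ (lv : ℕ → ℝ) (σ₀ : ℝ),
          FarR sn G r₀ (v + 1) a (x.1.2.2.1 : ℝ) (g - ρ) (g + ρ) lv σ₀ ∧ C * ρ ≤ σ₀ / 2 ∧
          C * ρ + σ₀ / 2 ≤ (x.1.2.2.1 : ℝ) ∧
          ∀ R : ℝ, 0 < R → R < ρ → ∀ w ∈ G, ∀ j x' : ℝ, g - R ≤ w → j ≤ g + R → x' ≤ g + R →
            ∀ (δW q ξ μ ν φ' : ℝ) (p s n n' : ℕ → ℝ), ν₀ * R ≤ ν → φ' ≤ φ * R →
            Bx1 sn r₀ v Sl w j x' δW q ξ μ ν φ' (C * R) p s n n' →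
            C1X S (yZT ((range r₀).image c) x.1.2.2.2.1 x.1.2.2.2.2) c r₀ v sn a w j x' δW q ξ
              μ ν p s n n' (e * R) := by
    rw [ae_all_iff]
    intro x
    exact c1x_ae (gch_ix h x.2 kn_yZT) (hn _ _ _ _ _ x.2) hr
  filter_upwards [key] with g hg hgA hgB Sl hSl hσ hT hraw A₁ B₁ Λ₁ p₀ lam hx g1 g2 hbase ξ₀ ν₀ C
    C₁ Cm κ hξ hν hC hC₁ hCm hκ D D1 D3 Lb hcod
  have hc := gch_ix h hx (y' := yZT ((range r₀).image c) (p₀ : ℝ) lam) kn_yZT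
  have hp0 := hx.p0
  have hΛ1 := hx.h0
  obtain ⟨φ, ρ, b3, b4, a, H⟩ := asm_pt hc hr
    (fun w hw w1 w2 => hV w hw (hx.hA.trans w1) (w2.trans_le hx.hB)) g1 g2 hSl hσ hT
    (fun J F => yZT_W J F) hh1 hraw (b := (p₀ : ℝ)) (lam := (lam : ℝ)) (by linarith) hx.pl hbase
    (hg ⟨(A₁, B₁, Λ₁, p₀, lam), hx⟩ g1 g2 Sl hSl hσ) hξ hν hC a4 a5 hC₁ D1 D3 hCm hκ hcod
  refine ⟨φ, ρ, b3, b4, ?_⟩
  intro R hR hRρ hLb w hw j x w1 j2 x2 δW q ξ μ ν φ' p s N hφ' hξR hνR hμθ hνθ hqθ hvf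
  obtain ⟨X, Y⟩ := H R hR hRρ hLb w hw j x w1 j2 x2 δW q ξ μ ν φ' p s N hφ' hξR hνR hvf
  have hξ' := N.ξ0
  refine HB X Y (by positivity) le_rfl hμθ hνθ ?_ le_rfl
  have h1 := (N.pc (v + 1) (by omega) le_rfl).1
  have h2 := N.sc (v + 1) (by omega) le_rfl
  have h3 := N.φν
  have h4 := N.ν0
  linarith

end Pool.AVG50
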