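import Pool.Agent.H50.AVG.Asf
import Pool.Agent.H71.CDX.Cdr

/-!
# The closed gradient in a class, final form

`srcU_all`: the sources of all places. `codU_of`: the codes. `asm_fin`: the closed gradient in the
direction of the last place of the chain, from the labels near `g` and the fullness of this place.
-/

set_option autoImplicit false

namespace Pool.AVG50

open Finset Real MvPolynomial MeasureTheory Filter
open Pool.Agent.H49.Ent Pool.Agent.H32.Dense Pool.STK Pool.KA Pool.KSAT Pool.K2S Pool.PB Pool.GEN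
open Pool.S6C Pool.RCD Pool.LA91 Pool.AVG96 Pool.AVG57 Pool.OWN68 Pool.OWN83 Pool.CDX

variable {m : ℕ} {S : PCl m} {c : ℕ → Fin m} {r₀ v r K : ℕ} {s₀ A B Λ : ℝ} {sn : ℝ → ℕ → ℝ}
  {G : Set ℝ} {g : ℝ} {Sl : ℕ → ℝ}

/-- **The sources of all places** of the chain below `v + 1`. -/
theorem srcU_all (hS : SlpG sn r₀ r G g Sl) (hv : v ≤ r)
    (haf : ∀ l, r₀ ≤ l → l ≤ v → Sl l < 2 ∨ AfG S c sn G g l) :
    ∀ l, r₀ ≤ l → l ≤ v → SrcU S c r₀ r s₀ K sn G g l := by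
  intro l
  induction l using Nat.strong_induction_on with
  | _ l ih =>
    intro l0 l1
    have h1 : ∀ i, r₀ ≤ i → i < l → SrcU S c r₀ r s₀ K sn G g i := fun i i0 i1 =>
      ih i i1 i0 (by omega)
    rcases haf l l0 l1 with h2 | h2
    · exact src_natU hS l0 (l1.trans hv) h2 h1
    · exact src_affU l0 (l1.trans hv) h2 h1

/-- **The codes in the boxes** at `g`. -/
theorem codU_of (hS : SlpG sn r₀ (v + 1) G g Sl) (hr : r₀ ≤ v) (hσ : 1 ≤ Sl (v + 1)) {hd : ℝ}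
    (hh : 0 < hd) (hh1 : hd ≤ 1) (hraw : RawG S c sn G g hd (v + 1))
    (haf : ∀ l, r₀ ≤ l → l ≤ v → Sl l < 2 ∨ AfG S c sn G g l) :
    CodU S c r₀ v K s₀ sn G g Sl
      (fun Cm κ R => LbR S c r₀ K sn G g (Cm * R) (Cm * R) (κ * R) (v + 1)) :=
  fun _ _ _ _ a b c d => codes_atU hS hr hσ hh hh1 hraw (srcU_all hS (Nat.le_succ v) haf) a b c d

/-- **The closed gradient in the direction of the last place `v` of the chain**, in all small boxes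
with labels, at almost every `g`; the base is one place. -/
theorem asm_fin (v K : ℕ) {hd ε : ℝ} (hh : 0 < hd) (hh1 : hd ≤ 1) (hε : 0 < ε) :
    ∃ (κ₂ ι θ : ℝ) (k₁ : ℕ), 0 < κ₂ ∧ κ₂ ≤ 1 ∧ 0 < ι ∧ 0 < θ ∧ θ ≤ 1 ∧
      ∀ {m : ℕ} {S : PCl m} {c : ℕ → Fin m} {s₀ A B Λ : ℝ} {sn : ℝ → ℕ → ℝ} {G : Set ℝ}
        (_ : AsmC S c 1 v s₀ A B Λ sn G) (_ : 1 ≤ v),
      ∀ᵐ g : ℝ, A < g → g < B → ∀ Sl : ℕ → ℝ, SlpG sn 1 (v + 1) G g Sl → 1 < Sl (v + 1) →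
        (∀ l, 1 ≤ l → l ≤ v → Sl l < 2 ∨ AfG S c sn G g l) →
        AtTg S c (v + 1) sn G g → RawG S c sn G g hd (v + 1) → VfG S c 1 v A B Λ sn G g Sl →
        ∀ ξ₀ ν₀ C : ℝ, 0 < ξ₀ → 0 < ν₀ → 0 < C →
          ∃ Cm κ φ ρ : ℝ, 0 < Cm ∧ 0 < κ ∧ 0 < φ ∧ 0 < ρ ∧
          ∀ R : ℝ, 0 < R → R < ρ → LbR S c 1 K sn G g (Cm * R) (Cm * R) (κ * R) (v + 1) →
            ∀ w ∈ G, ∀ j x : ℝ, g - R ≤ w → j ≤ g + R →
            x ≤ g + R → ∀ (δW q ξ μ ν φ' : ℝ) (p s : ℕ → ℝ),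
            Bx2 sn 1 v Sl w j x δW q ξ μ ν φ' (C * R) p s → φ' ≤ φ * R → ξ₀ * R ≤ ξ →
            ν₀ * R ≤ ν → μ ≤ θ * ξ → ν ≤ θ * ξ → θ * ξ + ν ≤ q →
            CGr S c v K w δW j x p s q ξ μ κ₂ ι k₁ ε := by
  obtain ⟨κ₂, ι, θ, k₁, a1, a2, a3, a4, a5, HB⟩ := asm_v v K hh hh1 hε
  refine ⟨κ₂, ι, θ, k₁, a1, a2, a3, a4, a5, ?_⟩
  intro m S c s₀ A B Λ sn G X hv
  filter_upwards [HB X hv] with g hg hgA hgB Sl hSl hσ haf hT hraw hvf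
  exact hg hgA hgB Sl hSl hσ hT hraw _ (codU_of hSl hv hσ.le hh hh1 hraw haf) hvf

end Pool.AVG50
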