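import Pool.Agent.H50.V0F.Row

/-!
# The heights of a chain over the labels of an earlier window

`Wnd`: a chain of places with labels at the windows of a closed set `G` between `w` and `x`, the
levels `sn i u` are arbitrary; `nn i u`: digits of the place `i` over labels of `u`. `Wnd.pos_up`: the
heights over labels of a later window. `Wnd.hgt`: the height of a place over labels of `w` is few bits
given the record at `x` and the lower heights. `few_rpos`: the rough positions from the heights.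
-/

set_option autoImplicit false

namespace Pool.AVG50

open Finset Real MvPolynomial
open Pool.Agent.H49.Ent Pool.Agent.H32.Dense Pool.STK Pool.KA Pool.KSAT Pool.K2S Pool.PB Pool.GEN
open Pool.S6C Pool.RCD Pool.LA91 Pool.AVG96 Pool.OWN68
open Pool.GRD (LbP)
open Pool.EXW (abs_floor_sub)

variable {m : ℕ} {U : Type} {α γ : ∀ J : ℕ, Fam m J → Type}
  {f : ∀ (J : ℕ) (F : Fam m J), F.Ω → α J F} {y : ∀ (J : ℕ) (F : Fam m J), F.Ω → γ J F}

/-- **The windows** from `w` to `x` and the digits `nn i u` of the places over labels of `u`. -/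
structure Wnd (S : PCl m) (c : ℕ → Fin m) (r : ℕ) (sn : ℕ → ℝ → ℝ) (G : Set ℝ) (w x φ : ℝ)
    (nn : ℕ → ℝ → ℝ) : Prop where
  tm : ∃ C₀, TmC S C₀
  pos : ∀ (τ : ℝ) (J : ℕ) (F : Fam m J) (A : F.Ω → Prop), S.St τ J F A → 0 < Pe F.p A
  ch : ChG S c r sn G
  wG : w ∈ G
  xG : x ∈ G
  wx : w ≤ x
  φ0 : 0 < φ
  gap : ∀ u, w ≤ u → u ≤ x → ∃ v ∈ G, |v - u| ≤ φ
  up : ∀ i < r, ∀ u ∈ G, ∀ u' ∈ G, w ≤ u → u ≤ u' → u' ≤ x → sn i u ≤ sn i u' + φ
  lo : ∀ i < r, ∀ u ∈ G, w ≤ u → u ≤ x → sn i u + 2 * φ ≤ nn i u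
  mo : ∀ i < r, ∀ u ∈ G, ∀ u' ∈ G, w ≤ u → u ≤ u' → u' ≤ x → nn i u' ≤ nn i u
  t0 : ∀ i < r, ∀ u ∈ G, ∀ u' ∈ G, w ≤ u → u ≤ u' → u' ≤ x → u' ≤ u + 3 * φ →
    nn i u' + 4 * φ ≤ sn i u + (1 - u')
  ne : ∀ i < r, ∀ l < i, ∀ u ∈ G, ∀ u' ∈ G, w ≤ u → u ≤ u' → u' ≤ x → u' ≤ u + 3 * φ →
    nn i u' + 4 * φ ≤ sn i u + (nn l u' - sn l u')

section wnd

variable {S : PCl m} {c : ℕ → Fin m} {r : ℕ} {sn : ℕ → ℝ → ℝ} {G : Set ℝ} {w x φ : ℝ}
  {nn : ℕ → ℝ → ℝ}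

/-- The last window is below one. -/
theorem Wnd.x1 (L : Wnd S c r sn G w x φ nn) : x < 1 := by
  obtain ⟨u₁, rd, hrd, hch⟩ := L.ch.ch x L.xG
  exact hch.u0

theorem Wnd.w0 (L : Wnd S c r sn G w x φ nn) : 0 ≤ w := by
  obtain ⟨u₁, rd, hrd, hch⟩ := L.ch.ch w L.wG
  exact hch.w0

/-- **One step** for the heights of the chain. -/
theorem Wnd.step (L : Wnd S c r sn G w x φ nn)
    (hf : ∀ (J : ℕ) (F : Fam m J), ∃ χ : α J F → PtT F, ∀ ω, ptr F J ω = χ (f J F ω))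
    (hy : Kn ((range 0).image c) 1 1 y) {k : ℕ} (hk : k ≤ r) {low up : ℝ} (hl : low ∈ G)
    (hu : up ∈ G) (hwl : w ≤ low) (hlu : low ≤ up) (hux : up ≤ x) (hh : up ≤ low + 3 * φ)
    {pv Nv : ℕ → ℝ} (hpv : ∀ i < k, sn i low - φ ≤ pv i) (hNv : ∀ i < k, nn i up ≤ Nv i) :
    Few S f (vg up) y (qJets m c 0 k 0 (fun _ _ => low) (fun l _ => pv l) (fun l _ => Nv l))
      (qJets m c 0 k 0 (fun _ _ => up) (fun l _ => sn l up) (fun l _ => nn l up)) := by
  obtain ⟨C₀, htm⟩ := L.tm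
  obtain ⟨u₁, rd, hrd, hch⟩ := L.ch.ch up hu
  have hφ := L.φ0
  have hup1 := hch.u0
  have hup0 : 0 ≤ up := hch.w0
  have hwu : w ≤ up := hwl.trans hlu
  have hmin : min (1 : ℝ) (1 - up) = 1 - up := min_eq_right (by linarith)
  have hpm : ∀ i < k, sn i low - φ ≤ min (pv i) (sn i up) := fun i hi =>
    le_min (hpv i hi) (by linarith [L.up i (by omega) low hl up hu hwl hlu hux])
  have h0 := fun i (hi : i < k) => L.t0 i (by omega) low hl up hu hwl hlu hux hh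
  have h1 := fun i (hi : i < k) l (hl' : l < i) =>
    L.ne i (by omega) l hl' low hl up hu hwl hlu hux hh
  refine few_jets htm L.pos (hch.take (Nat.zero_le k) hk) (lv := fun l => nn l up - sn l up - φ)
    (p₀ := 1) (lam := 1) (σ₀ := φ) (fun _ _ _ _ _ => hlu) (fun _ _ _ _ _ => le_rfl) hup1 le_rfl
    one_pos hφ ?_ ?_ ?_ ?_ ?_ ?_ ?_ hf hy
  · intro i _ hir
    linarith [L.lo i (by omega) up hu hwu hux]
  · intro i _ hir j' hj'
    obtain rfl : j' = 0 := by omega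
    push_cast
    linarith [hNv i hir]
  · intro i _ hir j' hj'
    rw [hmin]
    linarith [h0 i hir, hpm i hir]
  · intro i _ hir j' hj' l _ hl'
    linarith [h1 i hir l hl', hpm i hir]
  · intro i _ hir j' hj'
    exact hNv i hir
  · intro i _ hir j' hj'
    obtain rfl : j' = 0 := by omega
    rw [hmin]
    push_cast
    linarith [h0 i hir, hpm i hir]
  · intro i _ hir j' hj' l _ hl'
    obtain rfl : j' = 0 := by omega
    push_cast
    linarith [h1 i hir l hl', hpm i hir]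

/-- The quantities of the chain exist. -/
theorem Wnd.exs (L : Wnd S c r sn G w x φ nn) {v : ℝ} (hv : v ∈ G) {k : ℕ} (hk : k ≤ r)
    {N : ℕ → ℕ → ℝ} : Exs S (qJets m c 0 k 0 (fun _ _ => v) (fun l _ => sn l v) N) := by
  obtain ⟨u₁, rd, hrd, hch⟩ := L.ch.ch v hv
  exact exs_qjets fun l _ hl j' _ => exs_jet (hrd l (by omega)) (hch.att l (Nat.zero_le _)
    (by omega))

/-- The windows. -/
theorem Wnd.seq (L : Wnd S c r sn G w x φ nn) {v : ℝ} (hv : v ∈ G) (hwv : w ≤ v) (hvx : v ≤ x) :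
    ∃ (N : ℕ) (b : ℕ → ℝ), b 0 = v ∧ b N = w ∧ (∀ t ≤ N, b t ∈ G ∧ w ≤ b t ∧ b t ≤ v) ∧
      ∀ t < N, b (t + 1) ≤ b t ∧ b t ≤ b (t + 1) + 3 * φ := by
  have hφ := L.φ0
  obtain ⟨n', hn'⟩ := exists_nat_ge ((v - w) / φ)
  obtain ⟨N', b, b0, bN, hb, hs⟩ := gseq (h := 3 * φ) (ρ₀ := φ) L.wG (by linarith) n' v hv hwv (by
    rw [div_le_iff₀ hφ] at hn'
    linarith) (fun x h1 h2 => L.gap x h1 (h2.trans hvx))
  exact ⟨N', b, b0, bN, hb, hs⟩

/-- **The heights of the chain over labels of a later window.** -/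
theorem Wnd.pos_up (L : Wnd S c r sn G w x φ nn)
    (hf : ∀ (J : ℕ) (F : Fam m J), ∃ χ : α J F → PtT F, ∀ ω, ptr F J ω = χ (f J F ω))
    (hy : Kn ((range 0).image c) 1 1 y) {k : ℕ} (hk : k ≤ r) {v : ℝ} (hv : v ∈ G) (hwv : w ≤ v)
    (hvx : v ≤ x) {p n : ℕ → ℝ} (hp : ∀ i < k, sn i w - φ ≤ p i) (hn : ∀ i < k, nn i w ≤ n i) :
    Few S f (vg v) y (qJets m c 0 k 0 (fun _ _ => w) (fun l _ => p l) (fun l _ => n l))
      (qJets m c 0 k 0 (fun _ _ => v) (fun l _ => sn l v) (fun l _ => nn l v)) := by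
  have hφ := L.φ0
  have hv1 : v ≤ 1 := hvx.trans L.x1.le
  obtain ⟨N', b, b0, bN, hb, hs⟩ := L.seq hv hwv hvx
  have hup : ∀ t ≤ N', ∀ (J : ℕ) (F : Fam m J), ∃ φ : LnT F → LnT F, ∀ ω,
      vg (b t) J F ω = φ (vg v J F ω) := fun t ht J F => vg_mono (hb t ht).2.2 hv1 J F
  have key : ∀ t ≤ N', Few S f (vg v) y
      (qJets m c 0 k 0 (fun _ _ => w) (fun l _ => p l) (fun l _ => n l))
      (qJets m c 0 k 0 (fun _ _ => b (N' - t)) (fun l _ => sn l (b (N' - t)))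
        (fun l _ => nn l (b (N' - t)))) := by
    intro t
    induction t with
    | zero =>
      intro _
      rw [Nat.sub_zero, bN]
      have h1 := L.step hf hy hk (pv := p) (Nv := n) L.wG L.wG le_rfl le_rfl L.wx (by linarith)
        hp hn
      have h2 := hup N' le_rfl
      rw [bN] at h2
      exact Few.up (f' := f) (y' := y) L.pos (fun J F => ⟨fun x => x, fun _ => rfl⟩) h2
        (fun J F => ⟨fun x => x, fun _ => rfl⟩) h1
    | succ t ih =>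
      intro ht
      have h3 := ih (by omega)
      have e1 : N' - t = (N' - (t + 1)) + 1 := by omega
      rw [e1] at h3
      obtain ⟨q1, q2⟩ := hs (N' - (t + 1)) (by omega)
      obtain ⟨g1, g2, g3⟩ := hb (N' - (t + 1)) (by omega)
      obtain ⟨g4, g5, g6⟩ := hb (N' - (t + 1) + 1) (by omega)
      have h4 := L.step hf hy hk (pv := fun l => sn l (b (N' - (t + 1) + 1)))
        (Nv := fun l => nn l (b (N' - (t + 1) + 1))) g4 g1 g5 q1 (g3.trans hvx) q2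
        (fun i _ => by linarith) (fun i hi => L.mo i (by omega) _ g4 _ g1 g5 q1 (g3.trans hvx))
      exact Few.trans L.pos (L.exs g4 hk) h3 (Few.up (f' := f) (y' := y) L.pos
        (fun J F => ⟨fun x => x, fun _ => rfl⟩) (hup _ (by omega))
        (fun J F => ⟨fun x => x, fun _ => rfl⟩) h4)
  have h5 := key N' le_rfl
  rw [Nat.sub_self, b0] at h5
  exact h5

/-- **The height of a place over labels of `w`** is few bits given the record at `x` and the lower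
heights over labels of `w`. -/
theorem Wnd.hgt (L : Wnd S c r sn G w x φ nn)
    (hf : ∀ (J : ℕ) (F : Fam m J), ∃ χ : α J F → PtT F, ∀ ω, ptr F J ω = χ (f J F ω))
    (hy : Kn ((range 0).image c) 1 1 y) {i : ℕ} (hi : i ≤ r)
    (hat : ∀ u ∈ G, w ≤ u → u ≤ x → ∀ N : ℝ,
      Exs S (qJet m ((range i).image c) (c i) 0 u (sn i u) N))
    (hup : ∀ u ∈ G, ∀ u' ∈ G, w ≤ u → u ≤ u' → u' ≤ x → sn i u ≤ sn i u' + φ)
    {p n : ℕ → ℝ} (hp : ∀ l < i, sn l w - φ ≤ p l) (hn : ∀ l < i, nn l w ≤ n l) {pr N : ℝ}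
    (hpr : sn i w - φ ≤ pr) (hNx : N ≤ sn i x)
    (hN0 : ∀ u ∈ G, ∀ u' ∈ G, w ≤ u → u ≤ u' → u' ≤ x → u' ≤ u + 3 * φ →
      N + 4 * φ ≤ sn i u + (1 - u'))
    (hN1 : ∀ l < i, ∀ u ∈ G, ∀ u' ∈ G, w ≤ u → u ≤ u' → u' ≤ x → u' ≤ u + 3 * φ →
      N + 4 * φ ≤ sn i u + (nn l u' - sn l u')) :
    Few S f (vg x) y (qJets m c 0 i 0 (fun _ _ => w) (fun l _ => p l) (fun l _ => n l))
      (qJet m ((range i).image c) (c i) 0 w pr N) := by
  obtain ⟨C₀, htm⟩ := L.tm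
  have hφ := L.φ0
  have hx1 : x ≤ 1 := L.x1.le
  obtain ⟨N', b, b0, bN, hb, hs⟩ := L.seq L.xG L.wx le_rfl
  have hup' : ∀ v : ℝ, v ≤ x → ∀ (J : ℕ) (F : Fam m J), ∃ φ : LnT F → LnT F, ∀ ω,
      vg v J F ω = φ (vg x J F ω) := fun v hv J F => vg_mono hv hx1 J F
  have hpos : ∀ v ∈ G, w ≤ v → v ≤ x → Few S f (vg x) y
      (qJets m c 0 i 0 (fun _ _ => w) (fun l _ => p l) (fun l _ => n l))
      (qJets m c 0 i 0 (fun _ _ => v) (fun l _ => sn l v) (fun l _ => nn l v)) := by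
    intro v hv h1 h2
    exact Few.up (f' := f) (y' := y) L.pos (fun J F => ⟨fun x => x, fun _ => rfl⟩) (hup' v h2)
      (fun J F => ⟨fun x => x, fun _ => rfl⟩) (L.pos_up hf hy hi hv h1 h2 hp hn)
  have htx : ∀ v ∈ G, w ≤ v → v ≤ x →
      Exs S (qJet m ((range i).image c) (c i) 0 v (sn i v) N) := by
    intro v hv h1 h2
    exact hat v hv h1 h2 N
  -- one step, any precision
  have hstep : ∀ up ∈ G, ∀ low ∈ G, ∀ p₂ : ℝ, w ≤ low → low ≤ up → up ≤ x → up ≤ low + 3 * φ →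
      sn i low - φ ≤ p₂ → Few S f (vg x) y
      (qJets m c 0 i 0 (fun _ _ => w) (fun l _ => p l) (fun l _ => n l))
      (qJet m ((range i).image c) (c i) 0 up (sn i up) N) → Few S f (vg x) y
      (qJets m c 0 i 0 (fun _ _ => w) (fun l _ => p l) (fun l _ => n l))
      (qJet m ((range i).image c) (c i) 0 low p₂ N) := by
    intro up hu low hl p₂ h1 h2 h3 h4 h5 h6
    have hwu : w ≤ up := h1.trans h2
    obtain ⟨u₁, rd, hrd, hch⟩ := L.ch.ch up hu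
    have hup1 := hch.u0
    have hmin : min (1 : ℝ) (1 - up) = 1 - up := min_eq_right (by linarith [hch.w0])
    have hm : sn i low - φ ≤ min (sn i up) p₂ :=
      le_min (by linarith [hup low hl up hu h1 h2 h3]) h5
    have k0 := fun l (hl' : l < i) => L.t0 l (by omega) up hu up hu hwu le_rfl h3 (by linarith)
    have k1 := fun l (hl' : l < i) l' (hl'' : l' < l) =>
      L.ne l (by omega) l' hl'' up hu up hu hwu le_rfl h3 (by linarith)
    have h7 : Few S f (vg up) y ((qJets m c 0 i 0 (fun _ _ => up) (fun l _ => sn l up)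
        (fun l _ => nn l up)).prod (qJet m ((range i).image c) (c i) 0 up (sn i up) N))
        (qJet m ((range i).image c) (c i) 0 low p₂ N) := by
      refine few_jetN htm (hch.take (Nat.zero_le i) hi) (k := c i) (j := 0) (wv := fun _ _ => up)
        (pv := fun l _ => sn l up) (Nv := fun l _ => nn l up)
        (lv := fun l => nn l up - sn l up - φ) (w₁ := up) (w₂ := low) (p₁ := sn i up) (p₂ := p₂)
        (N₁ := N) (N₂ := N) (p₀ := 1) (lam := 1) (σ₀ := φ) (fun _ _ _ _ _ => le_rfl) le_rfl h2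
        hup1 le_rfl one_pos hφ ?_ ?_ ?_ ?_ le_rfl ?_ ?_ hf hy
      · intro l _ hl'
        linarith [L.lo l (by omega) up hu hwu h3]
      · intro l _ hl' j' hj'
        obtain rfl : j' = 0 := by omega
        push_cast
        linarith
      · intro l _ hl' j' hj'
        rw [hmin, min_self]
        linarith [k0 l hl']
      · intro l _ hl' j' hj' l' _ hl''
        rw [min_self]
        linarith [k1 l hl' l' hl'']
      · rw [hmin]
        push_cast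
        linarith [hN0 low hl up hu h1 h2 h3 h4]
      · intro l _ hl'
        push_cast
        linarith [hN1 l hl' low hl up hu h1 h2 h3 h4]
    exact Few.trans L.pos (Exs.prod (L.exs hu hi) (htx up hu hwu h3))
      (Few.pair L.pos (hpos up hu hwu h3) h6)
      (Few.up (f' := f) (y' := y) L.pos (fun J F => ⟨fun x => x, fun _ => rfl⟩) (hup' up h3)
        (fun J F => ⟨fun x => x, fun _ => rfl⟩) h7)
  have key : ∀ t ≤ N', Few S f (vg x) y
      (qJets m c 0 i 0 (fun _ _ => w) (fun l _ => p l) (fun l _ => n l))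
      (qJet m ((range i).image c) (c i) 0 (b t) (sn i (b t)) N) := by
    intro t
    induction t with
    | zero =>
      intro _
      rw [b0]
      refine Few0.few L.pos (few0_jet htm (L.w0.trans L.wx) L.x1 ?_ _ _ _)
      push_cast
      linarith
    | succ t ih =>
      intro ht
      obtain ⟨q1, q2⟩ := hs t (by omega)
      obtain ⟨g1, g2, g3⟩ := hb t (by omega)
      obtain ⟨g4, g5, g6⟩ := hb (t + 1) ht
      exact hstep _ g1 _ g4 _ g5 q1 g3 q2 (by linarith) (ih (by omega))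
  have h8 := key N' le_rfl
  rw [bN] at h8
  exact hstep w L.wG w L.wG pr le_rfl le_rfl L.wx (by linarith) hpr h8

end wnd

/-! ### Rough positions -/

/-- The rough positions of the first places. -/
noncomputable def qPd (m : ℕ) (c : ℕ → Fin m) (n : ℕ) (p₀ : ℝ) : Qt m (Fin n → ℤ) :=
  Qt.fn (fun J F ω (l : Fin n) => F.X ⌊p₀ * J⌋₊ ω (c l))

/-- **The rough position from the height** and the lower rough positions. -/
theorem few_lpd {S : PCl m}
    (hpos : ∀ (τ : ℝ) (J : ℕ) (F : Fam m J) (A : F.Ω → Prop), S.St τ J F A → 0 < Pe F.p A)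
    (hf : ∀ (J : ℕ) (F : Fam m J), ∃ φ : α J F → PtT F, ∀ ω, ptr F J ω = φ (f J F ω))
    (hT : ∀ (J : ℕ) (F : Fam m J), ∃ φ : γ J F → ℕ, ∀ ω, F.T ω = φ (y J F ω)) {c : ℕ → Fin m}
    {i : ℕ} {w p rd p₀ : ℝ} (hw : w ≤ 1) (hrd : rd < p₀) (hp₀ : 0 ≤ p₀) :
    Few S f (vg w) y ((qPd m c i p₀).prod (qLp m ((range i).image c) (c i) w p rd p₀))
      (qXd m (c i) p₀) := by
  intro h hh
  obtain ⟨J₀, hJ₀⟩ := log_room (m := m) (half_pos hh)
  obtain ⟨e, hee⟩ : ∃ e : ℝ, e = min (h / 2) (p₀ - rd) := ⟨_, rfl⟩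
  have he : 0 < e := by rw [hee]; exact lt_min (half_pos hh) (by linarith)
  have he1 : e ≤ h / 2 := by rw [hee]; exact min_le_left _ _
  have he2 : rd + e ≤ p₀ := by
    have : e ≤ p₀ - rd := by rw [hee]; exact min_le_right _ _
    linarith
  have hl2 : 0 < Real.log 2 := Real.log_pos one_lt_two
  have hl21 : Real.log 2 ≤ 1 := by
    have := Real.log_two_lt_d9
    linarith
  refine ⟨e, he, fun K => Bas.mono J₀ (pos_bas hpos) ?_⟩
  rintro J hJ F A hA u u' ⟨hu1, hc, V, z, z', G, hlb, hu2⟩ hu'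
  have hcl := isLaw_cond F.isLaw hA
  have hJ0 : (0 : ℝ) ≤ J := Nat.cast_nonneg J
  refine ⟨V, fun ω => z' (slam F ⌊w * J⌋₊ ω), lb_cl2 le_rfl hw (LbP.of hlb) (hf J F), ?_⟩
  obtain ⟨φ, hφ⟩ := hT J F
  have hfl : ⌊(rd + e) * J⌋₊ ≤ ⌊p₀ * J⌋₊ :=
    Nat.floor_le_floor (mul_le_mul_of_nonneg_right he2 hJ0)
  have hm0 : (0 : ℝ) ≤ m := Nat.cast_nonneg m
  have hNp : (0 : ℝ) < 2 ^ (p₀ * J) := Real.rpow_pos_of_pos (by norm_num) _
  obtain ⟨nd1, nd2⟩ := nd_floor hp₀ J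
  have b1 : (1 : ℝ) ≤ 2 ^ (e * J) := by
    rw [← exp_p2]
    exact Real.one_le_exp (by positivity)
  have a2 : (2 : ℝ) ^ ⌊e * J⌋₊ ≤ 2 ^ (e * J) := p2_le (by positivity)
  have hu0 : (0 : ℝ) < 2 ^ ⌊p₀ * J⌋₊ := by positivity
  have key := CH_le_int hcl.nonneg hcl.sum_one u'
    (fun ω => (u ω, (z' (slam F ⌊w * J⌋₊ ω), y J F ω))) (fun _ => 2 ^ (e * J) * (m + 4)) (by
    intro ω ω' hω hω' hh
    simp only [Prod.mk.injEq] at hh
    have hωA := of_cond_pos hω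
    have hωA' := of_cond_pos hω'
    have hx : ∀ l : Fin i, F.X ⌊p₀ * J⌋₊ ω (c l) = F.X ⌊p₀ * J⌋₊ ω' (c l) := by
      intro l
      have h1 := hu1 ω hωA
      have h2 := hu1 ω' hωA'
      have h0 : (u ω).1 = (u ω').1 := by rw [hh.1]
      exact congrFun (h1.symm.trans (h0.trans h2)) l
    have hTT : F.T ω = F.T ω' := by rw [hφ ω, hφ ω', hh.2.2]
    have h1 := lb_near hlb hfl hωA (ω' := ω') (by
      intro k hk
      obtain ⟨l, hl, rfl⟩ := Finset.mem_image.1 hk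
      exact X_near' (hx ⟨l, Finset.mem_range.1 hl⟩)) hh.2.1 hTT
    have h0 : (u ω).2 = (u ω').2 := by rw [hh.1]
    have h2 : ⌊(2 : ℝ) ^ (p₀ * J) * ojet F (c i) 0 (G (z' (slam F ⌊w * J⌋₊ ω))) ω⌋ =
        ⌊(2 : ℝ) ^ (p₀ * J) * ojet F (c i) 0 (G (z' (slam F ⌊w * J⌋₊ ω'))) ω'⌋ := by
      rw [← hu2 ω hωA, ← hu2 ω' hωA']
      exact h0
    have h3 := Int.abs_sub_lt_one_of_floor_eq_floor h2
    rw [ojet_zero, ojet_zero, ← mul_sub, abs_mul, abs_of_pos hNp] at h3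
    rw [hu' ω hωA, hu' ω' hωA']
    change |((⌊(2 : ℝ) ^ ⌊p₀ * J⌋₊ * F.x ω (c i)⌋ -
      ⌊(2 : ℝ) ^ ⌊p₀ * J⌋₊ * F.x ω' (c i)⌋ : ℤ) : ℝ)| ≤ _
    refine (abs_floor_sub _ _).trans ?_
    rw [← mul_sub, abs_mul, abs_of_pos hu0]
    obtain ⟨a, ha⟩ : ∃ a : ℝ, a = F.x ω (c i) - eval (bt F ω) (G (z' (slam F ⌊w * J⌋₊ ω))) -
        (F.x ω' (c i) - eval (bt F ω') (G (z' (slam F ⌊w * J⌋₊ ω')))) := ⟨_, rfl⟩
    obtain ⟨b, hb⟩ : ∃ b : ℝ, b = eval (bt F ω') (G (z' (slam F ⌊w * J⌋₊ ω'))) -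
        eval (bt F ω) (G (z' (slam F ⌊w * J⌋₊ ω))) := ⟨_, rfl⟩
    rw [← ha] at h3
    rw [← hb] at h1
    have h4 : F.x ω (c i) - F.x ω' (c i) = a - b := by
      rw [ha, hb]
      ring
    rw [h4]
    have h5 : (2 : ℝ) ^ ⌊p₀ * J⌋₊ * |a| ≤ 1 :=
      (mul_le_mul_of_nonneg_right nd1 (abs_nonneg a)).trans h3.le
    have h6 : (2 : ℝ) ^ ⌊p₀ * J⌋₊ * |b| ≤ 2 ^ (e * J) * (m + 1) := by
      refine (mul_le_mul_of_nonneg_left h1 hu0.le).trans ?_
      have e2 : (2 : ℝ) ^ ⌊p₀ * J⌋₊ * (2 ^ ⌊e * J⌋₊ * ((m + 1) * (1 / 2 ^ ⌊p₀ * J⌋₊))) =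
          2 ^ ⌊e * J⌋₊ * (m + 1) := by
        field_simp
      rw [e2]
      exact mul_le_mul_of_nonneg_right a2 (show (0 : ℝ) ≤ m + 1 by positivity)
    have h7 : (2 : ℝ) ^ ⌊p₀ * J⌋₊ * |a - b| ≤
        2 ^ ⌊p₀ * J⌋₊ * |a| + 2 ^ ⌊p₀ * J⌋₊ * |b| := by
      rw [← mul_add]
      exact mul_le_mul_of_nonneg_left (abs_sub _ _) hu0.le
    nlinarith)
  rw [Ex_const hcl.sum_one] at key
  refine key.trans ((hJ₀ J hJ _ e he.le (by positivity) le_rfl).trans ?_)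
  refine mul_le_mul_of_nonneg_right ?_ hJ0
  nlinarith

/-- **The rough positions from the heights** over labels with bounded gradients. -/
theorem few_rpos {S : PCl m}
    (hpos : ∀ (τ : ℝ) (J : ℕ) (F : Fam m J) (A : F.Ω → Prop), S.St τ J F A → 0 < Pe F.p A)
    (hf : ∀ (J : ℕ) (F : Fam m J), ∃ φ : α J F → PtT F, ∀ ω, ptr F J ω = φ (f J F ω))
    (hT : ∀ (J : ℕ) (F : Fam m J), ∃ φ : γ J F → ℕ, ∀ ω, F.T ω = φ (y J F ω)) {c : ℕ → Fin m}
    {r₀ : ℕ} {w p₀ : ℝ} {s rd : ℕ → ℝ} (hw : w ≤ 1) (hrd : ∀ i < r₀, rd i < p₀) (hp₀ : 0 ≤ p₀)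
    {k : ℕ} (hk : k ≤ r₀) :
    Few S f (vg w) y (Qt.pi fun l : Fin r₀ =>
      qLp m ((range (l : ℕ)).image c) (c l) w (s l) (rd l) p₀) (qPd m c k p₀) := by
  induction k with
  | zero =>
    intro a ha
    refine ⟨1, one_pos, fun K => Bas.mono 0 (pos_bas hpos) ?_⟩
    rintro J - F A hA u u' - -
    have hcl := isLaw_cond F.isLaw hA
    refine ⟨Unit, fun _ => (), ⟨⟨fun _ => (), fun _ _ => rfl⟩, fun _ => (), fun _ _ => rfl⟩, ?_⟩
    rw [CH_eq_zero hcl.nonneg fun ω ω' _ _ _ => funext fun i => i.elim0]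
    positivity
  | succ k ih =>
    have h1 := (ih (by omega)).fewC
    have h0 := (few_lpd (c := c) (i := k) (p := s k) hpos hf hT hw (hrd k (by omega)) hp₀).fewC
    have h2 : FewC S f (vg w) y ((Qt.pi fun l : Fin r₀ =>
        qLp m ((range (l : ℕ)).image c) (c l) w (s l) (rd l) p₀).prod (qPd m c k p₀))
        (qXd m (c k) p₀) 0 := by
      refine FewC.pre hpos (fun x : (Fin r₀ → ℤ) × (Fin k → ℤ) => (x.2, x.1 ⟨k, by omega⟩)) ?_ h0
      intro K e J F A u hu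
      exact ⟨hu.2, hu.1 ⟨k, by omega⟩⟩
    have h3 := FewC.seq hpos h1 h2
    rw [zero_add] at h3
    refine FewC.few (FewC.post (Q'' := qPd m c (k + 1) p₀) hpos (fun x : Fin (k + 1) → ℤ =>
      ((fun l : Fin k => x l.castSucc), x (Fin.last k))) ?_ h3)
    intro K e J F A u hu
    refine ⟨⟨fun ω hω => ?_, fun ω hω => ?_⟩, fun ω ω' _ _ hh => ?_⟩
    · have h4 := hu ω hω
      funext l
      exact congrFun h4 l.castSucc
    · have h4 := hu ω hω
      exact congrFun h4 (Fin.last k)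
    · have h4 := Prod.ext_iff.mp hh
      refine funext fun l => ?_
      refine Fin.lastCases h4.2 (fun l => congrFun h4.1 l) l

end Pool.AVG50
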