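import Pool.Agent.H50.AVG.Rwa

/-!
# The positions are full given the heights over an earlier window

`Wnd.ful`: the positions are full given the record. `Wnd.hts`: the heights over labels of `w` given
the record at `x`. `Wnd.low`: the positions are full given the heights of the chain and of the target
over labels of `w`, the rough positions of the first places and the record at `x`.
-/

set_option autoImplicit false

namespace Pool.AVG50

open Finset Real MvPolynomial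
open Pool.Agent.H49.Ent Pool.Agent.H32.Dense Pool.STK Pool.KA Pool.KSAT Pool.K2S Pool.PB Pool.GEN
open Pool.S6C Pool.RCD Pool.LA91 Pool.AVG96 Pool.OWN68
open Pool.GRD (LbP)

variable {m : ℕ} {U : Type} {α γ : ∀ J : ℕ, Fam m J → Type}
  {f : ∀ (J : ℕ) (F : Fam m J), F.Ω → α J F} {y : ∀ (J : ℕ) (F : Fam m J), F.Ω → γ J F}

/-- The digits: `p₀` for the first places. -/
noncomputable def nh (r₀ : ℕ) (p₀ : ℝ) (n : ℕ → ℝ) (l : ℕ) : ℝ := if l < r₀ then p₀ else n l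

/-- **The digits `N i`** of the heights over labels of `w` which are known at `x`. -/
structure Ngt (r : ℕ) (sn : ℕ → ℝ → ℝ) (G : Set ℝ) (w x φ : ℝ) (nn : ℕ → ℝ → ℝ) (i : ℕ)
    (N : ℝ) : Prop where
  nx : N ≤ sn i x
  t0 : ∀ u ∈ G, ∀ u' ∈ G, w ≤ u → u ≤ u' → u' ≤ x → u' ≤ u + 3 * φ → N + 4 * φ ≤ sn i u + (1 - u')
  ne : ∀ l < i, ∀ u ∈ G, ∀ u' ∈ G, w ≤ u → u ≤ u' → u' ≤ x → u' ≤ u + 3 * φ →
    N + 4 * φ ≤ sn i u + (nn l u' - sn l u')

section wnd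

variable {S : PCl m} {c : ℕ → Fin m} {r : ℕ} {sn : ℕ → ℝ → ℝ} {G : Set ℝ} {w x φ : ℝ}
  {nn : ℕ → ℝ → ℝ}

/-- **The positions are full given the record.** -/
theorem Wnd.ful (L : Wnd S c r sn G w x φ nn) {ε : ℝ} (hε : 0 < ε) :
    Bas S (fun J F A => ∀ (V : Type) (z : F.Ω → V), Cl2 (ptr F J) (vg x J F) A z →
      (∑ i ∈ range r, (1 - sn i x)) * Real.log 2 * J - ε * J ≤
        CH (Pool.Agent.H49.Ent.cond F.p A True) (fun ω => fun l : Fin r => F.X J ω (c l))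
          (fun ω => (z ω, F.W ω))) := by
  obtain ⟨u₁, rd, -, hch⟩ := L.ch.ch x L.xG
  have hl2 : 0 < Real.log 2 := Real.log_pos one_lt_two
  have hr0 : (0 : ℝ) ≤ r := Nat.cast_nonneg r
  obtain ⟨ρ, hρ⟩ : ∃ ρ : ℝ, ρ = ε / ((r + 1) * Real.log 2) := ⟨_, rfl⟩
  have hρ0 : 0 < ρ := by rw [hρ]; positivity
  have hρε : ρ * ((r + 1) * Real.log 2) = ε := by
    rw [hρ]
    exact div_mul_cancel₀ _ (by positivity)
  refine Bas.mono 0 ((hch.ful ρ hρ0).and (pos_bas L.pos)) ?_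
  rintro J - F A ⟨H, hA⟩ V z ⟨⟨φ', hφ'⟩, ψ, hψ⟩
  have hcl := isLaw_cond F.isLaw hA
  have hJ0 : (0 : ℝ) ≤ J := Nat.cast_nonneg J
  have h1 := H V φ' ψ (fun ω hω => (hφ' ω hω).symm.trans (hψ ω hω))
  rw [CH_finch hcl.nonneg (fun i ω => F.X J ω (c i)) (fun ω => (z ω, F.W ω)) r]
  have h2 : (∑ i ∈ range r, (1 - sn i x)) * Real.log 2 * J - ε * J ≤
      ∑ i ∈ range r, ((1 - sn i x) - ρ) * Real.log 2 * J := by
    have e1 : ∑ i ∈ range r, ((1 - sn i x) - ρ) * Real.log 2 * J =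
        (∑ i ∈ range r, (1 - sn i x)) * Real.log 2 * J - r * (ρ * Real.log 2 * J) := by
      rw [← nsmul_eq_mul, ← Finset.card_range r, ← Finset.sum_const, Finset.card_range,
        Finset.sum_mul, Finset.sum_mul, ← Finset.sum_sub_distrib]
      refine Finset.sum_congr rfl fun i _ => ?_
      ring
    rw [e1]
    have e2 : ε * J = r * (ρ * Real.log 2 * J) + ρ * Real.log 2 * J := by
      rw [← hρε]
      ring
    have e3 : 0 ≤ ρ * Real.log 2 * J := by positivity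
    linarith
  refine h2.trans (Finset.sum_le_sum fun i hi => ?_)
  refine (h1 i (Nat.zero_le _) (Finset.mem_range.1 hi)).trans (le_of_eq ?_)
  refine CH_congr hcl.nonneg (fun _ _ _ _ h => (Prod.ext_iff.mp h).1)
    (fun _ _ _ _ h => (Prod.ext_iff.mp h).1) ?_ ?_
  · intro ω ω' hω hω' hh
    simp only [Prod.mk.injEq] at hh ⊢
    refine ⟨hh.1, ?_, hh.2.2⟩
    rw [hψ ω (of_cond_pos hω), hψ ω' (of_cond_pos hω')]
    exact hh.2.1
  · intro ω ω' hω hω' hh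
    simp only [Prod.mk.injEq] at hh ⊢
    refine ⟨hh.1, ?_, hh.2.2⟩
    have h3 := hh.2.1
    rw [hψ ω (of_cond_pos hω), hψ ω' (of_cond_pos hω')] at h3
    exact h3

/-- The labels of the chain. -/
theorem Wnd.atc (L : Wnd S c r sn G w x φ nn) {i : ℕ} (hi : i < r) :
    ∀ u ∈ G, w ≤ u → u ≤ x → ∀ N : ℝ,
      Exs S (qJet m ((range i).image c) (c i) 0 u (sn i u) N) := by
  intro u hu _ _ N
  obtain ⟨u₁, rd, hrd, hch⟩ := L.ch.ch u hu
  exact exs_jet (hrd i hi) (hch.att i (Nat.zero_le _) hi)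

/-- **The heights over labels of `w` given the record at `x`.** -/
theorem Wnd.hts (L : Wnd S c r sn G w x φ nn)
    (hf : ∀ (J : ℕ) (F : Fam m J), ∃ χ : α J F → PtT F, ∀ ω, ptr F J ω = χ (f J F ω))
    (hy : Kn ((range 0).image c) 1 1 y) {p n N : ℕ → ℝ} (hp : ∀ i < r, sn i w - φ ≤ p i)
    (hn : ∀ i < r, nn i w ≤ n i) (hNn : ∀ i < r, N i ≤ n i)
    (hN : ∀ i < r, Ngt r sn G w x φ nn i (N i)) {k : ℕ} (hk : k ≤ r) :
    FewC S f (vg x) y (tQt m) (qJets m c 0 k 0 (fun _ _ => w) (fun l _ => p l) (fun l _ => n l))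
      ((∑ i ∈ range k, (n i - N i)) * Real.log 2) := by
  induction k with
  | zero =>
    rw [Finset.range_zero, Finset.sum_empty, zero_mul]
    intro a ha
    refine ⟨1, one_pos, fun K => Bas.mono 0 (pos_bas L.pos) ?_⟩
    rintro J - F A hA u u' - hu'
    have hcl := isLaw_cond F.isLaw hA
    refine ⟨Unit, fun _ => (), ⟨⟨fun _ => (), fun _ _ => rfl⟩, fun _ => (), fun _ _ => rfl⟩, ?_⟩
    rw [CH_eq_zero hcl.nonneg fun ω ω' hω hω' _ => ?_, zero_add]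
    · positivity
    · funext i j'
      rw [hu'.2 ω (of_cond_pos hω) i j' (by omega), hu'.2 ω' (of_cond_pos hω') i j' (by omega)]
  | succ k ih =>
    have hkr : k < r := by omega
    have h1 := ih (by omega)
    have h2 := L.hgt hf hy (i := k) hkr.le (L.atc hkr) (fun u hu u' hu' => L.up k hkr u hu u' hu')
      (p := p) (n := n) (fun l hl => hp l (by omega)) (fun l hl => hn l (by omega)) (hp k hkr)
      (hN k hkr).nx (hN k hkr).t0 (hN k hkr).ne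
    have h3 := few_more L.pos (hNn k hkr) h2
    have h4 : FewC S f (vg x) y ((tQt m).prod (qJets m c 0 k 0 (fun _ _ => w) (fun l _ => p l)
        (fun l _ => n l))) (qJet m ((range k).image c) (c k) 0 w (p k) (n k))
        (Real.log 2 * (n k - N k)) := by
      refine FewC.pre L.pos (fun x : Unit × (ℕ → ℕ → ℤ) => x.2) ?_ h3
      intro K e J F A u hu
      exact hu.2
    have h5 := FewC.seq L.pos h1 h4
    rw [Finset.sum_range_succ]
    have h6 := FewC.post (Q'' := qJets m c 0 (k + 1) 0 (fun _ _ => w) (fun l _ => p l)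
      (fun l _ => n l)) L.pos (fun u : ℕ → ℕ → ℤ =>
      ((fun i j' => if 0 ≤ i ∧ i < k ∧ j' ≤ 0 then u i j' else 0), u k 0)) ?_ h5
    · refine h6.mono (le_of_eq ?_)
      ring
    intro K e J F A u hu
    refine ⟨⟨qJets_take (Nat.le_succ k) le_rfl hu, hu.1 k (Nat.zero_le _) (Nat.lt_succ_self k) 0
      le_rfl⟩, fun ω ω' hω hω' hh => ?_⟩
    have h7 := Prod.ext_iff.mp hh
    funext i j'
    by_cases hin : 0 ≤ i ∧ i < k + 1 ∧ j' ≤ 0
    · obtain rfl : j' = 0 := by omega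
      rcases Nat.lt_or_ge i k with h8 | h8
      · have h9 := congrFun (congrFun h7.1 i) 0
        simp only [if_pos (show 0 ≤ i ∧ i < k ∧ 0 ≤ 0 by omega)] at h9
        exact h9
      · obtain rfl : i = k := by omega
        exact h7.2
    · rw [hu.2 ω hω i j' hin, hu.2 ω' hω' i j' hin]

/-- **The positions are full** given the heights of the chain and of the target over labels of `w`,
the rough positions of the first places and the record at `x`. -/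
theorem Wnd.low (L : Wnd S c r sn G w x φ nn)
    (hat : ∀ u ∈ G, w ≤ u → u ≤ x → ∀ N : ℝ,
      Exs S (qJet m ((range r).image c) (c r) 0 u (sn r u) N))
    (hup : ∀ u ∈ G, ∀ u' ∈ G, w ≤ u → u ≤ u' → u' ≤ x → sn r u ≤ sn r u' + φ)
    {r₀ : ℕ} (hr : r₀ ≤ r) {rd : ℕ → ℝ} {p₀ : ℝ} (hp₀ : 0 ≤ p₀)
    (hV : ∀ l < r₀, rd l < p₀ ∧ Att S ((range l).image c) (c l) w (sn l w) (rd l))
    {p n N : ℕ → ℝ} {pr P₁ P₂ : ℝ} (hp : ∀ i, r₀ ≤ i → i < r → sn i w - φ ≤ p i)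
    (hn : ∀ i < r, nn i w ≤ nh r₀ p₀ n i) (hNn : ∀ i < r, N i ≤ nh r₀ p₀ n i)
    (hN : ∀ i < r, Ngt r sn G w x φ nn i (N i)) (hpr : sn r w - φ ≤ pr)
    (hP₁ : Ngt r sn G w x φ nn r P₁) (hP₂ : Ngt r sn G w x φ nn r P₂) {ε : ℝ} (hε : 0 < ε) :
    ∃ k : ℝ, 0 < k ∧ ∃ e₀ : ℝ, 0 < e₀ ∧ ∀ K : ℕ, Bas S (fun J F A =>
      ∀ (V : Type) (z : F.Ω → V), Mx (fun J F => ptr F J) (vg x) k F A z → ∀ u u₁ u₂,
      (qJets m c r₀ r 0 (fun _ _ => w) (fun l _ => p l) (fun l _ => n l)).P K e₀ J F A u →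
      (qJet m ((range r).image c) (c r) 0 w pr P₁).P K e₀ J F A u₁ →
      (qJet m ((range r).image c) (c r) 0 w pr P₂).P K e₀ J F A u₂ →
      ((∑ i ∈ range r, (1 - nh r₀ p₀ n i)) - ∑ i ∈ range r, (sn i x - N i)) * Real.log 2 * J -
          ε * J ≤ CH (Pool.Agent.H49.Ent.cond F.p A True)
        (fun ω => fun l : Fin r => F.X J ω (c l))
        (fun ω => ((u₂ ω, u₁ ω), (u ω, ((fun l : Fin r₀ => F.X ⌊p₀ * J⌋₊ ω (c l)),
          (z ω, F.W ω)))))) := by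
  have hφ := L.φ0
  have hx1 : x ≤ 1 := L.x1.le
  have hf : ∀ (J : ℕ) (F : Fam m J), ∃ χ : PtT F → PtT F, ∀ ω, ptr F J ω = χ (ptr F J ω) :=
    fun J F => ⟨fun x => x, fun _ => rfl⟩
  have hy := kn_W (c := c)
  have hT : ∀ (J : ℕ) (F : Fam m J), ∃ φ : ℕ × F.ζ → ℕ, ∀ ω, F.T ω = φ (F.W ω) := by
    intro J F
    obtain ⟨χ, hχ⟩ := hy J F
    exact ⟨fun x => (χ x).1, fun ω => (congrArg Prod.fst (hχ ω)).symm⟩
  obtain ⟨ρ, hρ⟩ : ∃ ρ : ℝ, ρ = ε / 8 := ⟨_, rfl⟩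
  have hρ0 : 0 < ρ := by rw [hρ]; positivity
  obtain ⟨ph, hph⟩ : ∃ ph : ℕ → ℝ, ph = fun l => if l < r₀ then sn l w else p l := ⟨_, rfl⟩
  have hph' : ∀ i < r, sn i w - φ ≤ ph i := by
    intro i hi
    rw [hph]
    by_cases h : i < r₀
    · simp only [if_pos h]
      linarith
    · simp only [if_neg h]
      exact hp i (by omega) hi
  obtain ⟨e₁, he₁, H₁⟩ := (L.hts hf hy hph' hn hNn hN le_rfl).mx L.pos ρ hρ0
  obtain ⟨e₂, he₂, H₂⟩ := (L.hgt hf hy (i := r) le_rfl hat hup hph' hn hpr hP₂.nx hP₂.t0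
    hP₂.ne).mx L.pos ρ hρ0
  obtain ⟨e₃, he₃, H₃⟩ := (L.hgt hf hy (i := r) le_rfl hat hup hph' hn hpr hP₁.nx hP₁.t0
    hP₁.ne).mx L.pos ρ hρ0
  have k4 := few_rpos (f := fun J F => ptr F J) (y := fun _ F => F.W) (c := c) (w := w)
    (s := fun l => sn l w) (rd := rd) (r₀ := r₀) (p₀ := p₀) L.pos hf hT (L.wx.trans hx1)
    (fun i hi => (hV i hi).1) hp₀ (k := r₀) le_rfl
  have k5 := Few.up (f' := fun J F => ptr F J) (g' := vg x) (y' := fun _ F => F.W) L.pos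
    (fun J F => ⟨fun x => x, fun _ => rfl⟩) (fun J F => vg_mono L.wx hx1 J F)
    (fun J F => ⟨fun x => x, fun _ => rfl⟩) k4
  obtain ⟨e₄, he₄, H₄⟩ := k5.mx L.pos ρ hρ0
  obtain ⟨e₀, he₀, l1, l2, l3, l4⟩ : ∃ e₀ : ℝ, 0 < e₀ ∧ e₀ ≤ e₁ ∧ e₀ ≤ e₂ ∧ e₀ ≤ e₃ ∧ e₀ ≤ e₄ :=
    ⟨min (min e₁ e₂) (min e₃ e₄), lt_min (lt_min he₁ he₂) (lt_min he₃ he₄),
      (min_le_left _ _).trans (min_le_left _ _), (min_le_left _ _).trans (min_le_right _ _),
      (min_le_right _ _).trans (min_le_left _ _), (min_le_right _ _).trans (min_le_right _ _)⟩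
  obtain ⟨K₁, M₁, hex⟩ := exs_pi (S := S) (Q' := fun l : Fin r₀ =>
    qLp m ((range (l : ℕ)).image c) (c l) w (sn l w) (rd l) p₀)
    (fun l => exs_lp (hV l l.2).2) e₀ he₀
  refine ⟨ρ / 2, by positivity, e₀, he₀, fun K => Bas.mono 0 (((H₁ (max K K₁)).and
    (H₂ (max K K₁))).and (((H₃ (max K K₁)).and (H₄ (max K K₁))).and
    ((L.ful hρ0).and (hex.and (pos_bas L.pos))))) ?_⟩
  rintro J - F A ⟨⟨H₁, H₂⟩, ⟨H₃, H₄⟩, H₅, ⟨us, hus, -⟩, hA⟩ V z hz u u₁ u₂ hu hu₁ hu₂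
  have hJ0 : (0 : ℝ) ≤ J := Nat.cast_nonneg J
  have hK : K ≤ max K K₁ := le_max_left _ _
  have hK₁ : K₁ ≤ max K K₁ := le_max_right _ _
  obtain ⟨U, hU⟩ : ∃ U : F.Ω → ℕ → ℕ → ℤ, U = fun ω l j' => if l < r₀ then
    (if h : l < r₀ ∧ j' = 0 then us ω ⟨l, h.1⟩ else 0) else u ω l j' := ⟨_, rfl⟩
  have hUP : ∀ e, e₀ ≤ e → (qJets m c 0 r 0 (fun _ _ => w) (fun l _ => ph l)
      (fun l _ => nh r₀ p₀ n l)).P (max K K₁) e J F A U := by
    intro e hee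
    refine ⟨fun i _ hi j' hj' => ?_, fun ω hω i j' hn' => ?_⟩
    · obtain rfl : j' = 0 := by omega
      by_cases h : i < r₀
      · have h1 := qLp_jet ((qLp m _ _ _ _ _ _).mono hK₁ hee (hus ⟨i, h⟩))
        have e1 : (fun ω => U ω i 0) = fun ω => us ω ⟨i, h⟩ := by
          funext ω
          rw [hU]
          change (if i < r₀ then (if h : i < r₀ ∧ 0 = 0 then us ω ⟨i, h.1⟩ else 0) else u ω i 0) = _
          rw [if_pos h, dif_pos ⟨h, rfl⟩]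
        rw [e1, hph]
        unfold nh
        simp only [if_pos h]
        exact h1
      · have h1 := (qJet m _ _ _ _ _ _).mono hK hee (hu.1 i (by omega) hi 0 le_rfl)
        have e1 : (fun ω => U ω i 0) = fun ω => u ω i 0 := by
          funext ω
          rw [hU]
          simp only [if_neg h]
        rw [e1, hph]
        unfold nh
        simp only [if_neg h]
        exact h1
    · rw [hU]
      by_cases h : i < r₀
      · simp only [if_pos h]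
        exact dif_neg fun h' => hn' ⟨Nat.zero_le _, by omega, by omega⟩
      · simp only [if_neg h]
        exact hu.2 ω hω i j' fun h' => hn' ⟨Nat.zero_le _, h'.2.1, h'.2.2⟩
  have h1 := H₁ V z hz (fun _ => ()) U (fun ω _ => rfl) (hUP _ l1)
  have h2 := H₂ V z hz U u₂ (hUP _ l2) ((qJet m _ _ _ _ _ _).mono hK l2 hu₂)
  have h3 := H₃ V z hz U u₁ (hUP _ l3) ((qJet m _ _ _ _ _ _).mono hK l3 hu₁)
  have h4 := H₄ V z hz us (fun ω => fun l : Fin r₀ => F.X ⌊p₀ * J⌋₊ ω (c l))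
    (fun l => (qLp m _ _ _ _ _ _).mono hK₁ l4 (hus l)) (fun ω _ => rfl)
  have h5 := H₅ V z hz.1
  obtain ⟨q', hq'⟩ : ∃ q' : F.Ω → ℝ, q' = Pool.Agent.H49.Ent.cond F.p A True := ⟨_, rfl⟩
  have hq'l : IsLaw q' := by
    rw [hq']
    exact isLaw_cond F.isLaw hA
  have h0 := hq'l.nonneg
  have hq'A : ∀ ω, 0 < q' ω → A ω := fun ω hω => by
    rw [hq'] at hω
    exact of_cond_pos hω
  rw [← hq'] at h1 h2 h3 h4 h5 ⊢
  obtain ⟨X, hX⟩ : ∃ X : F.Ω → Fin r → ℤ, X = fun ω (l : Fin r) => F.X J ω (c l) := ⟨_, rfl⟩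
  obtain ⟨Xp, hXp⟩ : ∃ Xp : F.Ω → Fin r₀ → ℤ, Xp = fun ω (l : Fin r₀) =>
    F.X ⌊p₀ * J⌋₊ ω (c l) := ⟨_, rfl⟩
  obtain ⟨C, hC⟩ : ∃ C : F.Ω → V × (ℕ × F.ζ), C = fun ω => (z ω, F.W ω) := ⟨_, rfl⟩
  obtain ⟨Y, hY⟩ : ∃ Y : F.Ω → (ℤ × ℤ) × ((ℕ → ℕ → ℤ) × (Fin r₀ → ℤ)), Y = fun ω =>
    ((u₂ ω, u₁ ω), (u ω, Xp ω)) := ⟨_, rfl⟩
  -- the joint quantity
  have s1 := CH_le_add h0 X Y C
  have s2 := CH_le_add h0 Y U C
  have s3 : CH q' Y (fun ω => (U ω, C ω)) ≤ CH q' (fun ω => (u₂ ω, u₁ ω)) (fun ω => (U ω, C ω)) +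
      CH q' (fun ω => (u ω, Xp ω)) (fun ω => (U ω, C ω)) := by
    rw [hY]
    exact CH_subadd h0 _ _ _
  have s4 := CH_subadd h0 u₂ u₁ (fun ω => (U ω, C ω))
  have s5 := CH_subadd h0 u Xp (fun ω => (U ω, C ω))
  have s6 : CH q' u (fun ω => (U ω, C ω)) = 0 := by
    refine CH_eq_zero h0 fun ω ω' hω hω' e => ?_
    have e1 := (Prod.ext_iff.mp e).1
    simp only at e1
    funext i j'
    by_cases h : i < r₀
    · rw [hu.2 ω (hq'A ω hω) i j' (by omega), hu.2 ω' (hq'A ω' hω') i j' (by omega)]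
    · have e2 := congrFun (congrFun e1 i) j'
      rw [hU] at e2
      simp only [if_neg h] at e2
      exact e2
  have s7 : CH q' Xp (fun ω => (U ω, C ω)) ≤ ρ * J := by
    rw [hXp]
    refine le_trans (CH_mono_cond h0 fun ω ω' _ _ e => ?_) h4
    have e1 := (Prod.ext_iff.mp e).1
    have e2 := (Prod.ext_iff.mp e).2
    simp only at e1 e2
    rw [hC] at e2
    refine Prod.ext (funext fun l => ?_) e2
    have e3 := congrFun (congrFun e1 l) 0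
    rw [hU] at e3
    change (if (l : ℕ) < r₀ then (if h : (l : ℕ) < r₀ ∧ 0 = 0 then us ω ⟨l, h.1⟩ else 0)
      else u ω l 0) = (if (l : ℕ) < r₀ then (if h : (l : ℕ) < r₀ ∧ 0 = 0 then us ω' ⟨l, h.1⟩
      else 0) else u ω' l 0) at e3
    rw [if_pos l.2, if_pos l.2, dif_pos ⟨l.2, rfl⟩, dif_pos ⟨l.2, rfl⟩] at e3
    exact e3
  have s8 : CH q' u₂ (fun ω => (U ω, C ω)) ≤ ρ * J := by
    rw [hC]
    exact h2
  have s9 : CH q' u₁ (fun ω => (U ω, C ω)) ≤ ρ * J := by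
    rw [hC]
    exact h3
  have s10 : CH q' U C ≤ ((∑ i ∈ range r, (nh r₀ p₀ n i - N i)) * Real.log 2 + ρ) * J := by
    refine le_trans (CH_mono_cond h0 fun ω ω' _ _ e => ?_) h1
    rw [hC] at e
    exact Prod.ext rfl e
  have s11 : (∑ i ∈ range r, (1 - sn i x)) * Real.log 2 * J - ρ * J ≤ CH q' X C := by
    rw [hX, hC]
    exact h5
  have s12 : CH q' X (fun ω => (Y ω, C ω)) ≤ CH q' X (fun ω => ((u₂ ω, u₁ ω), (u ω, (Xp ω,
      (z ω, F.W ω))))) := by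
    refine CH_mono_cond h0 fun ω ω' _ _ e => ?_
    rw [hY, hC] at e
    simp only [Prod.mk.injEq] at e ⊢
    exact ⟨⟨e.1.1.1, e.1.1.2⟩, e.1.2.1, e.1.2.2, e.2.1, e.2.2⟩
  rw [hX, hXp] at s12
  refine le_trans ?_ s12
  rw [← hX]
  have e1 : ((∑ i ∈ range r, (1 - nh r₀ p₀ n i)) - ∑ i ∈ range r, (sn i x - N i)) *
      Real.log 2 * J = (∑ i ∈ range r, (1 - sn i x)) * Real.log 2 * J -
      (∑ i ∈ range r, (nh r₀ p₀ n i - N i)) * Real.log 2 * J := by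
    rw [← sub_mul, ← sub_mul, ← Finset.sum_sub_distrib, ← Finset.sum_sub_distrib]
    refine congrArg (fun t => t * Real.log 2 * (J : ℝ)) (Finset.sum_congr rfl fun i _ => ?_)
    ring
  rw [e1]
  have e2 : ε * J = 8 * (ρ * J) := by
    rw [hρ]
    ring
  have e3 : ((∑ i ∈ range r, (nh r₀ p₀ n i - N i)) * Real.log 2 + ρ) * J =
      (∑ i ∈ range r, (nh r₀ p₀ n i - N i)) * Real.log 2 * J + ρ * J := by ring
  have hρJ : 0 ≤ ρ * J := by positivity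
  rw [e3] at s10
  rw [e2]
  linarith only [s1, s2, s3, s4, s5, s6, s7, s8, s9, s10, s11, hρJ]

end wnd

end Pool.AVG50
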