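import Pool.Agent.H50.AVG.Rwb
import Pool.Agent.H50.K2.Piece
import Pool.Agent.H57.AVG.C1s
import Pool.Agent.H57.SQ.Cls
import Pool.Agent.H4.D2.Two

/-!
# The rows of the target are not full over an earlier window

`rwc_ev`: the condition `RwC` from the windows `Wnd`, the rows of the coordinate `RawN` and the
numbers.
-/

set_option autoImplicit false

namespace Pool.AVG50

open Finset Real MvPolynomial
open Pool.Agent.H49.Ent Pool.Agent.H32.Dense Pool.STK Pool.KA Pool.KSAT Pool.K2S Pool.PB Pool.GEN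
open Pool.S6C Pool.RCD Pool.LA91 Pool.AVG96 Pool.OWN68
open Pool.UNJ (ceI)
open Pool.V0F (mx_fin)
open Pool.AVG57 (RwC)

variable {m : ℕ} {γ : ∀ J : ℕ, Fam m J → Type} {y : ∀ (J : ℕ) (F : Fam m J), F.Ω → γ J F}

/-- More digits of the position. -/
theorem x_more {J : ℕ} (F : Fam m J) {q : F.Ω → ℝ} (hq : IsLaw q) (k : Fin m) {n : ℝ}
    (hn1 : n ≤ 1) {β : Type} (Y : F.Ω → β) :
    CH q (fun ω => F.X J ω k) (fun ω => (F.X ⌊n * J⌋₊ ω k, Y ω)) ≤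
      (1 - n) * J * Real.log 2 + Real.log 9 := by
  have hJ0 : (0 : ℝ) ≤ J := Nat.cast_nonneg J
  have e1 : (1 : ℝ) ≤ 2 ^ ((1 - n) * J) :=
    Real.one_le_rpow (by norm_num) (mul_nonneg (by linarith) hJ0)
  have hfl : ⌊n * J⌋₊ ≤ J := floor_le hn1 J
  have hlt : n * J < ((⌊n * J⌋₊ : ℕ) : ℝ) + 1 := Nat.lt_floor_add_one _
  have key := CH_pair hq (fun ω => F.X J ω k) (fun ω => (F.X ⌊n * J⌋₊ ω k, Y ω))
    (D := ⌈2 * (2 : ℝ) ^ ((1 - n) * J)⌉₊ + 1) (by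
      intro ω ω' hω hω' e
      have e0 := (Prod.ext_iff.mp e).1
      have g2 := X_near' e0
      refine floor_sub_le ?_
      rw [← mul_sub]
      refine le_trans ?_ (Nat.le_ceil _)
      rw [abs_mul, abs_of_pos (by positivity), abs_sub_comm]
      refine (mul_le_mul_of_nonneg_left g2 (by positivity)).trans ?_
      have e5 : (2 : ℝ) ^ J * (1 / 2 ^ ⌊n * J⌋₊) = 2 ^ ((J : ℝ) - (⌊n * J⌋₊ : ℕ)) := by
        rw [Real.rpow_sub (by norm_num), Real.rpow_natCast, Real.rpow_natCast]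
        ring
      rw [e5]
      have e6 : (2 : ℝ) * 2 ^ ((1 - n) * J) = 2 ^ (1 + (1 - n) * J) := by
        rw [Real.rpow_add (by norm_num), Real.rpow_one]
      rw [e6]
      refine Real.rpow_le_rpow_of_exponent_le (by norm_num) ?_
      nlinarith)
  refine key.trans ?_
  have e2 : 2 * ((⌈2 * (2 : ℝ) ^ ((1 - n) * J)⌉₊ + 1 : ℕ) : ℝ) + 1 ≤ 9 * 2 ^ ((1 - n) * J) := by
    have h3 := Nat.ceil_lt_add_one (by positivity : 0 ≤ 2 * (2 : ℝ) ^ ((1 - n) * J))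
    push_cast
    linarith
  refine (Real.log_le_log (by positivity) e2).trans (le_of_eq ?_)
  rw [Real.log_mul (by norm_num) (by positivity), Real.log_rpow (by norm_num)]
  ring

section ex

variable {S : PCl m} {c : ℕ → Fin m} {r i : ℕ} {s rd : ℕ → ℝ} {w u₁ φ sl pr N rk E : ℝ}

/-- **The height and the digits of the position**, with the record at `w`. -/
theorem exc {C₀ : ℝ} (htm : TmC S C₀)
    (hpos : ∀ (τ : ℝ) (J : ℕ) (F : Fam m J) (A : F.Ω → Prop), S.St τ J F A → 0 < Pe F.p A)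
    (hch : Chn S c 0 r w w u₁ s rd) (hi : i ≤ r) (hφ : 0 < φ) (hrk : rk < 1) (hE : 0 ≤ E)
    (hatt : AttG S ((range i).image c) (c i) w sl rk E) (hp : sl - φ ≤ pr) (hN0 : 0 ≤ N)
    (hNE : N + E ≤ 1) (t0 : N - sl + 20 * ((r : ℝ) + 1) * φ ≤ 1 - w)
    (t1 : ∀ l < i, N - sl + 20 * ((r : ℝ) + 1) * φ ≤ 1 - s l) :
    ∀ ε : ℝ, 0 < ε → ∃ k : ℝ, 0 < k ∧ ∃ e₀ : ℝ, 0 < e₀ ∧ ∀ K : ℕ, Bas S (fun J F A =>
      ∀ (V : Type) (z : F.Ω → V), Mx (fun J F => ptr F J) (vg w) k F A z → ∀ u,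
      (qJet m ((range i).image c) (c i) 0 w pr N).P K e₀ J F A u →
      CH (Pool.Agent.H49.Ent.cond F.p A True) u (fun ω => (F.X ⌊N * J⌋₊ ω (c i),
          (ceI ((range i).image c) (fun _ => J) (F.x ω), (z ω, F.W ω)))) ≤ ε * J ∧
        CH (Pool.Agent.H49.Ent.cond F.p A True) (fun ω => F.X ⌊N * J⌋₊ ω (c i)) (fun ω =>
          (u ω, (ceI ((range i).image c) (fun _ => J) (F.x ω), (z ω, F.W ω)))) ≤ ε * J) := by
  intro ε hε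
  obtain ⟨y, hy⟩ : ∃ y : ∀ (J : ℕ) (F : Fam m J), F.Ω → (Fin m → ℤ) × _, y = fun J F ω =>
    (ceI ((range i).image c) (fun _ => J) (F.x ω), F.W ω) := ⟨_, rfl⟩
  have hf : ∀ (J : ℕ) (F : Fam m J), ∃ χ : PtT F → PtT F, ∀ ω, ptr F J ω = χ (ptr F J ω) :=
    fun J F => ⟨fun x => x, fun _ => rfl⟩
  have hT : Kn ((range 0).image c) 1 1 y := by
    intro J F
    obtain ⟨χ, hχ⟩ := kn_W (c := c) J F
    exact ⟨fun x => χ x.2, fun ω => by rw [hy]; exact hχ ω⟩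
  have hX : KnX c i y := by
    refine ⟨fun J F => ?_, fun J F => ⟨fun x l => x.1 (c l), fun ω l hl => ?_⟩⟩
    · obtain ⟨χ, hχ⟩ := hT J F
      exact ⟨fun x => (χ x).1, fun ω => (congrArg Prod.fst (hχ ω)).symm⟩
    · rw [hy]
      have h1 : c l ∈ (range i).image c := mem_image_of_mem _ (mem_range.2 hl)
      simp only [ceI, if_pos h1]
      rfl
  have k1 := few_xj (f := fun J F => ptr F J) htm hpos hf hT hX hch hi hφ hrk hE hatt hp hN0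
    hNE t0 t1
  have k2 := few_jx (f := fun J F => ptr F J) htm hpos hf hT hX hch hi hφ hrk hE hatt hp hN0
    hNE t0 t1
  obtain ⟨e1, he1, H1⟩ := k1.mx hpos ε hε
  obtain ⟨e2, he2, H2⟩ := k2.mx hpos ε hε
  refine ⟨ε / 2, by positivity, min e1 e2, lt_min he1 he2, fun K => ?_⟩
  refine Bas.mono 0 (((H1 K).and (H2 K)).and (pos_bas hpos)) ?_
  rintro J - F A ⟨⟨H1, H2⟩, hA⟩ V z hz u hu
  have hcl := isLaw_cond F.isLaw hA
  have a1 := H1 V z hz (fun ω => F.X ⌊N * J⌋₊ ω (c i)) u (fun ω _ => rfl)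
    ((qJet m _ _ _ _ _ _).mono le_rfl (min_le_left _ _) hu)
  have a2 := H2 V z hz u (fun ω => F.X ⌊N * J⌋₊ ω (c i))
    ((qJet m _ _ _ _ _ _).mono le_rfl (min_le_right _ _) hu) (fun ω _ => rfl)
  rw [hy] at a1 a2
  constructor
  · refine (CH_mono_cond hcl.nonneg fun ω ω' _ _ hh => ?_).trans a1
    simp only [Prod.mk.injEq] at hh ⊢
    exact ⟨hh.1, hh.2.2.1, hh.2.1, hh.2.2.2⟩
  · refine (CH_mono_cond hcl.nonneg fun ω ω' _ _ hh => ?_).trans a2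
    simp only [Prod.mk.injEq] at hh ⊢
    exact ⟨hh.1, hh.2.2.1, hh.2.1, hh.2.2.2⟩

/-- The digits of the positions of the chain given the heights. -/
theorem exc_all {C₀ : ℝ} (htm : TmC S C₀)
    (hpos : ∀ (τ : ℝ) (J : ℕ) (F : Fam m J) (A : F.Ω → Prop), S.St τ J F A → 0 < Pe F.p A)
    (hch : Chn S c 0 r w w u₁ s rd) (hφ : 0 < φ) {r₀ : ℕ} {p n : ℕ → ℝ}
    (hp : ∀ i, r₀ ≤ i → i < r → s i - φ ≤ p i) (hn : ∀ i, r₀ ≤ i → i < r → 0 ≤ n i ∧ n i ≤ 1)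
    (t0 : ∀ i, r₀ ≤ i → i < r → n i - s i + 20 * ((r : ℝ) + 1) * φ ≤ 1 - w)
    (t1 : ∀ i, r₀ ≤ i → i < r → ∀ l < i, n i - s i + 20 * ((r : ℝ) + 1) * φ ≤ 1 - s l)
    {ε : ℝ} (hε : 0 < ε) {k : ℕ} (hk : k ≤ r) :
    ∃ κ : ℝ, 0 < κ ∧ ∃ e₀ : ℝ, 0 < e₀ ∧ ∀ K : ℕ, Bas S (fun J F A =>
      ∀ (V : Type) (z : F.Ω → V), Mx (fun J F => ptr F J) (vg w) κ F A z → ∀ u,
      (qJets m c r₀ r 0 (fun _ _ => w) (fun l _ => p l) (fun l _ => n l)).P K e₀ J F A u →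
      ∀ i, r₀ ≤ i → i < k → CH (Pool.Agent.H49.Ent.cond F.p A True)
        (fun ω => F.X ⌊n i * J⌋₊ ω (c i)) (fun ω => (u ω i 0,
          (ceI ((range i).image c) (fun _ => J) (F.x ω), (z ω, F.W ω)))) ≤ ε * J) := by
  induction k with
  | zero =>
    refine ⟨1, one_pos, 1, one_pos, fun K => Bas.mono 0 (pos_bas hpos) ?_⟩
    intro J _ F A _ V z _ u _ i _ hi
    omega
  | succ k ih =>
    obtain ⟨κ₁, hκ₁, e₁, he₁, H₁⟩ := ih (by omega)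
    by_cases hr : r₀ ≤ k
    · obtain ⟨κ₂, hκ₂, e₂, he₂, H₂⟩ := exc (i := k) htm hpos hch (by omega) hφ
        (hch.r1 k (Nat.zero_le _) (by omega)) le_rfl
        ((hch.att k (Nat.zero_le _) (by omega)).attG hch.u0.le le_rfl) (hp k hr (by omega))
        (hn k hr (by omega)).1 (by linarith [(hn k hr (by omega)).2]) (t0 k hr (by omega))
        (t1 k hr (by omega)) ε hε
      refine ⟨min κ₁ κ₂, lt_min hκ₁ hκ₂, min e₁ e₂, lt_min he₁ he₂, fun K =>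
        Bas.mono 0 ((H₁ K).and (H₂ K)) ?_⟩
      rintro J - F A ⟨H₁, H₂⟩ V z hz u hu i hi hik
      rcases Nat.lt_or_ge i k with h | h
      · exact H₁ V z (Mx.le' (min_le_left _ _) hz) u
          ((qJets m _ _ _ _ _ _ _).mono le_rfl (min_le_left _ _) hu) i hi h
      · obtain rfl : i = k := by omega
        exact (H₂ V z (Mx.le' (min_le_right _ _) hz) (fun ω => u ω i 0)
          ((qJet m _ _ _ _ _ _).mono le_rfl (min_le_right _ _)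
            (hu.1 i hi (by omega) 0 le_rfl))).2
    · refine ⟨κ₁, hκ₁, e₁, he₁, fun K => Bas.mono 0 (H₁ K) ?_⟩
      intro J _ F A H₁ V z hz u hu i hi hik
      exact H₁ V z hz u hu i hi (by omega)

end ex

section wnd

variable {S : PCl m} {c : ℕ → Fin m} {r : ℕ} {sn : ℕ → ℝ → ℝ} {G : Set ℝ} {w x φ : ℝ}
  {nn : ℕ → ℝ → ℝ}

/-- **The rows of the target are not full.** -/
theorem rwc_ev {v : ℕ} (L : Wnd S c (v + 1) sn G w x φ nn)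
    (hat : ∀ u ∈ G, w ≤ u → u ≤ x → ∀ N : ℝ,
      Exs S (qJet m ((range (v + 1)).image c) (c (v + 1)) 0 u (sn (v + 1) u) N))
    (hup : ∀ u ∈ G, ∀ u' ∈ G, w ≤ u → u ≤ u' → u' ≤ x → sn (v + 1) u ≤ sn (v + 1) u' + φ)
    {r₀ : ℕ} (hr : r₀ ≤ v + 1) {rd : ℕ → ℝ} {p₀ : ℝ} (hp₀ : 0 ≤ p₀) (hp₁ : p₀ ≤ 1)
    (hV : ∀ l < r₀, rd l < p₀ ∧ Att S ((range l).image c) (c l) w (sn l w) (rd l))
    {p n N : ℕ → ℝ} {P₁ P₂ : ℝ} (hp : ∀ i, r₀ ≤ i → i ≤ v + 1 → sn i w - φ ≤ p i)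
    (hn : ∀ i < v + 1, nn i w ≤ nh r₀ p₀ n i) (hNn : ∀ i < v + 1, N i ≤ nh r₀ p₀ n i)
    (hN : ∀ i < v + 1, Ngt (v + 1) sn G w x φ nn i (N i))
    (hP₁ : Ngt (v + 1) sn G w x φ nn (v + 1) P₁) (hP₂ : Ngt (v + 1) sn G w x φ nn (v + 1) P₂)
    {rk E : ℝ} (hrk : rk < 1) (hE : 0 ≤ E)
    (hatt : AttG S ((range (v + 1)).image c) (c (v + 1)) w (sn (v + 1) w) rk E)
    (hP0 : 0 ≤ P₁) (hP : P₁ ≤ P₂) (hPE : P₂ + E ≤ 1)
    (q0 : P₂ - sn (v + 1) w + 20 * (((v + 1 : ℕ) : ℝ) + 1) * φ ≤ 1 - w)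
    (q1 : ∀ l < v + 1, P₂ - sn (v + 1) w + 20 * (((v + 1 : ℕ) : ℝ) + 1) * φ ≤ 1 - sn l w)
    (n01 : ∀ i, r₀ ≤ i → i < v + 1 → 0 ≤ n i ∧ n i ≤ 1)
    (t0 : ∀ i, r₀ ≤ i → i < v + 1 → n i - sn i w + 20 * (((v + 1 : ℕ) : ℝ) + 1) * φ ≤ 1 - w)
    (t1 : ∀ i, r₀ ≤ i → i < v + 1 → ∀ l < i,
      n i - sn i w + 20 * (((v + 1 : ℕ) : ℝ) + 1) * φ ≤ 1 - sn l w)
    {h δ : ℝ} (hraw : RawN S ((range (v + 1)).image c) (c (v + 1)) P₁ (P₂ - P₁) h δ)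
    (hyW : ∀ (J : ℕ) (F : Fam m J), ∃ ψ : γ J F → ℕ × F.ζ, ∀ ω, ψ (y J F ω) = F.W ω)
    (hyX : ∀ (J : ℕ) (F : Fam m J), ∃ ψ : γ J F → (Fin m → ℤ), ∀ ω, ∀ l < r₀,
      ψ (y J F ω) (c l) = F.X ⌊p₀ * J⌋₊ ω (c l)) {ε : ℝ} (hε : 0 < ε) :
    RwC S y c r₀ v w p n P₁ P₂ h
      (δ + (∑ i ∈ range (v + 1), (sn i x - N i)) * Real.log 2 + ε) := by
  intro c₀ hc₀
  obtain ⟨C₀, htm⟩ := L.tm
  obtain ⟨u₁', rd', hrd', hch⟩ := L.ch.ch w L.wG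
  have hφ := L.φ0
  have hl2 : 0 < Real.log 2 := Real.log_pos one_lt_two
  obtain ⟨R, hR⟩ : ∃ R : ℝ, R = ((v + 1 : ℕ) : ℝ) := ⟨_, rfl⟩
  have hR0 : 0 ≤ R := by rw [hR]; exact Nat.cast_nonneg _
  obtain ⟨ρ, hρ⟩ : ∃ ρ : ℝ, ρ = ε / (4 * (R + 4)) := ⟨_, rfl⟩
  have hρ0 : 0 < ρ := by rw [hρ]; positivity
  have hρε : ρ * (4 * (R + 4)) = ε := by
    rw [hρ]
    exact div_mul_cancel₀ _ (by positivity)
  obtain ⟨kl, hkl, el, hel, Hl⟩ := L.low hat hup hr hp₀ hV (pr := p (v + 1))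
    (fun i a b => hp i a b.le) hn hNn hN (hp (v + 1) hr le_rfl) hP₁ hP₂ hρ0
  obtain ⟨k₁, hk₁, e₁, he₁, H₁⟩ := exc_all (r₀ := r₀) (p := p) (n := n) htm L.pos hch hφ
    (fun i a b => hp i a b.le) n01 t0 t1 (mul_pos hρ0 hc₀) le_rfl
  obtain ⟨k₂, hk₂, e₂, he₂, H₂⟩ := exc (i := v + 1) (pr := p (v + 1)) (N := P₁) htm L.pos hch
    le_rfl hφ hrk hE hatt (hp (v + 1) hr le_rfl) hP0 (by linarith) (by linarith)
    (fun l hl => by linarith [q1 l hl]) (ρ * c₀) (mul_pos hρ0 hc₀)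
  obtain ⟨k₃, hk₃, e₃, he₃, H₃⟩ := exc (i := v + 1) (pr := p (v + 1)) (N := P₂) htm L.pos hch
    le_rfl hφ hrk hE hatt (hp (v + 1) hr le_rfl) (hP0.trans hP) hPE q0 q1 (ρ * c₀)
    (mul_pos hρ0 hc₀)
  obtain ⟨k, hk, j1, j2, j3⟩ : ∃ k : ℝ, 0 < k ∧ k ≤ k₁ ∧ k ≤ k₂ ∧ k ≤ k₃ :=
    ⟨min k₁ (min k₂ k₃), lt_min hk₁ (lt_min hk₂ hk₃), min_le_left _ _,
      (min_le_right _ _).trans (min_le_left _ _), (min_le_right _ _).trans (min_le_right _ _)⟩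
  obtain ⟨e₀, he₀, l0, l1, l2, l3⟩ : ∃ e₀ : ℝ, 0 < e₀ ∧ e₀ ≤ el ∧ e₀ ≤ e₁ ∧ e₀ ≤ e₂ ∧ e₀ ≤ e₃ :=
    ⟨min (min el e₁) (min e₂ e₃), lt_min (lt_min hel he₁) (lt_min he₂ he₃),
      (min_le_left _ _).trans (min_le_left _ _), (min_le_left _ _).trans (min_le_right _ _),
      (min_le_right _ _).trans (min_le_left _ _), (min_le_right _ _).trans (min_le_right _ _)⟩
  obtain ⟨J₀, hJ₀⟩ := exists_nat_ge (R * Real.log 9 / ρ)
  have hcc : 0 < 1 / c₀ := by positivity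
  refine ⟨k, hk, e₀, he₀, fun K => Bas.mono J₀ (((Pool.GRW.bas_part (Hl K) hcc).and
    ((H₁ K).and (H₂ K))).and ((H₃ K).and ((Pool.GRW.bas_part (hraw 0 le_rfl (by linarith))
      hcc).and (pos_bas L.pos)))) ?_⟩
  rintro J hJ F A ⟨⟨Hl, H₁, H₂⟩, H₃, hraw, hA⟩ V z hz u u₁ u₂ hu hu₁ hu₂ B' hB hc
  have hJ0 : (0 : ℝ) ≤ J := Nat.cast_nonneg J
  have hJ1 : (J₀ : ℝ) ≤ J := by exact_mod_cast hJ
  have hP' : Pe F.p A ≤ 1 / c₀ * Pe F.p B' := by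
    rw [one_div, ← div_eq_inv_mul, le_div_iff₀ hc₀]
    linarith
  have hB0 : 0 < Pe F.p B' := lt_of_lt_of_le (mul_pos hc₀ hA) hc
  obtain ⟨V', z', hz', hfin⟩ := mx_fin (fun J F => ptr F J) (vg x) F hB0
  have g0 := Hl B' hB hP' V' z' (hz' kl hkl.le) u u₁ u₂
    ((qJets m _ _ _ _ _ _ _).sub hB ((qJets m _ _ _ _ _ _ _).mono le_rfl l0 hu))
    ((qJet m _ _ _ _ _ _).sub hB ((qJet m _ _ _ _ _ _).mono le_rfl l0 hu₁))
    ((qJet m _ _ _ _ _ _).sub hB ((qJet m _ _ _ _ _ _).mono le_rfl l0 hu₂))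
  have g1 := H₁ V z (Mx.le' j1 hz) u ((qJets m _ _ _ _ _ _ _).mono le_rfl l1 hu)
  have g2 := (H₂ V z (Mx.le' j2 hz) u₁ ((qJet m _ _ _ _ _ _).mono le_rfl l2 hu₁)).2
  have g3 := (H₃ V z (Mx.le' j3 hz) u₂ ((qJet m _ _ _ _ _ _).mono le_rfl l3 hu₂)).1
  have g4 := hraw B' hB hP'
  obtain ⟨qA, hqA⟩ : ∃ qA : F.Ω → ℝ, qA = Pool.Agent.H49.Ent.cond F.p A True := ⟨_, rfl⟩
  have hqAl : IsLaw qA := by
    rw [hqA]
    exact isLaw_cond F.isLaw hA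
  obtain ⟨q', hq'⟩ : ∃ q' : F.Ω → ℝ, q' = Pool.Agent.H49.Ent.cond F.p B' True := ⟨_, rfl⟩
  have hq'l : IsLaw q' := by
    rw [hq']
    exact isLaw_cond F.isLaw hB0
  have h0 := hq'l.nonneg
  have hq'B : ∀ ω, 0 < q' ω → B' ω := fun ω hω => by
    rw [hq'] at hω
    exact of_cond_pos hω
  -- from `A` to `B'`
  have hdiv : ∀ {β₁ β₂ : Type} (M : F.Ω → β₁) (Z : F.Ω → β₂),
      CH qA M Z ≤ ρ * c₀ * J → CH q' M Z ≤ ρ * J := by
    intro β₁ β₂ M Z hM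
    have e1 : Pool.Agent.H49.Ent.cond qA B' True = q' := by
      rw [hqA, hq']
      rw [hqA] at hqAl
      exact Pool.SQ.cond_sub hqAl hB
    have e2 : c₀ ≤ law qA B' True := by
      rw [Pool.SQ.law_eq_Pe]
      have e3 : (fun ω => B' ω = True) = B' := by
        funext ω
        exact propext ⟨fun h => of_eq_true h, fun h => eq_true h⟩
      rw [e3, hqA, Pool.SQ.pe_cond_sub hB, le_div_iff₀ hA]
      exact hc
    have e4 := Pool.D2P.CH_ev_div hqAl M Z B' hc₀ e2 hM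
    rw [e1] at e4
    refine e4.trans (le_of_eq ?_)
    field_simp
  rw [← hqA] at g1 g2 g3
  rw [← hq'] at g0 g4 ⊢
  have g2' := hdiv _ _ g2
  have g3' := hdiv _ _ g3
  -- the record at `w` is a function of the record at `x`
  have hx1 : x ≤ 1 := L.x1.le
  have hzx : ∀ ω ω', B' ω → B' ω' → z' ω = z' ω' → z ω = z ω' := by
    refine hfin V z ?_
    obtain ⟨⟨φ₁, hφ₁⟩, ψ₁, hψ₁⟩ := hz.1
    obtain ⟨ψ, hψ⟩ := vg_mono L.wx hx1 J F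
    exact ⟨⟨φ₁, fun ω hω => hφ₁ ω (hB ω hω)⟩, fun a => ψ₁ (ψ a), fun ω hω => by
      rw [hψ₁ ω (hB ω hω), hψ ω]⟩
  obtain ⟨X, hXd⟩ : ∃ X : F.Ω → Fin (v + 1) → ℤ, X = fun ω (l : Fin (v + 1)) =>
    F.X J ω (c l) := ⟨_, rfl⟩
  obtain ⟨Xp, hXp⟩ : ∃ Xp : F.Ω → Fin r₀ → ℤ, Xp = fun ω (l : Fin r₀) =>
    F.X ⌊p₀ * J⌋₊ ω (c l) := ⟨_, rfl⟩
  obtain ⟨Y, hYd⟩ : ∃ Y : F.Ω → ℤ × ((ℕ → ℕ → ℤ) × (V × ((Fin r₀ → ℤ) × (ℕ × F.ζ)))), Y =
    fun ω => (u₁ ω, (u ω, (z ω, (Xp ω, F.W ω)))) := ⟨_, rfl⟩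
  obtain ⟨ψW, hψW⟩ := hyW J F
  obtain ⟨ψX, hψX⟩ := hyX J F
  have m0 : CH q' u₂ (fun ω => (u₁ ω, (u ω, (z ω, y J F ω)))) ≤ CH q' u₂ Y := by
    refine CH_mono_cond h0 fun ω ω' _ _ e => ?_
    simp only [Prod.mk.injEq] at e
    rw [hYd]
    simp only [Prod.mk.injEq]
    refine ⟨e.1, e.2.1, e.2.2.1, ?_, ?_⟩
    · rw [hXp]
      funext l
      change F.X ⌊p₀ * J⌋₊ ω (c l) = F.X ⌊p₀ * J⌋₊ ω' (c l)
      rw [← hψX ω l l.2, ← hψX ω' l l.2, e.2.2.2]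
    · rw [← hψW ω, ← hψW ω', e.2.2.2]
  refine m0.trans ?_
  have hXe : ∀ ω ω', X ω = X ω' → ceI ((range (v + 1)).image c) (fun _ => J) (F.x ω) =
      ceI ((range (v + 1)).image c) (fun _ => J) (F.x ω') := by
    intro ω ω' e
    refine ceI_tup le_rfl fun l hl => ?_
    rw [hXd] at e
    exact congrFun e ⟨l, hl⟩
  -- the positions from above
  obtain ⟨Bd, hBd⟩ : ∃ Bd : ℕ → ℝ, Bd = fun i =>
    (1 - nh r₀ p₀ n i) * J * Real.log 2 + Real.log 9 + ρ * J := ⟨_, rfl⟩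
  have hρJ : 0 ≤ ρ * J := by positivity
  have a1 : CH q' X Y ≤ 0 + ∑ i ∈ Finset.Ico 0 (v + 1), Bd i := by
    rw [hXd]
    refine tup_le h0 (fun i ω => F.X J ω (c i)) (Nat.zero_le _) Y
      (le_of_eq (CH_eq_zero h0 fun ω ω' _ _ _ => funext fun l => l.elim0)) ?_
    intro i _ hi
    rw [hBd]
    by_cases hi0 : i < r₀
    · have b1 := x_more F hq'l (c i) (n := p₀) hp₁ Y
      have b2 : CH q' (fun ω => F.X J ω (c i))
          (fun ω => ((fun l : Fin i => F.X J ω (c l)), Y ω)) ≤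
          CH q' (fun ω => F.X J ω (c i)) (fun ω => (F.X ⌊p₀ * J⌋₊ ω (c i), Y ω)) := by
        refine CH_mono_cond h0 fun ω ω' _ _ e => ?_
        have e1 := (Prod.ext_iff.mp e).2
        refine Prod.ext ?_ e1
        simp only at e1
        rw [hYd] at e1
        simp only [Prod.mk.injEq] at e1
        have e2 := congrFun e1.2.2.2.1 ⟨i, hi0⟩
        rw [hXp] at e2
        exact e2
      have b3 : nh r₀ p₀ n i = p₀ := by
        unfold nh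
        rw [if_pos hi0]
      simp only
      rw [b3]
      linarith
    · have b1 := x_more F hq'l (c i) (n := n i) (n01 i (by omega) hi).2
        (fun ω => ((fun l : Fin i => F.X J ω (c l)), Y ω))
      have b2 := hdiv _ _ (g1 i (by omega) hi)
      have b3 := CH_le_add h0 (fun ω => F.X J ω (c i)) (fun ω => F.X ⌊n i * J⌋₊ ω (c i))
        (fun ω => ((fun l : Fin i => F.X J ω (c l)), Y ω))
      have b4 : CH q' (fun ω => F.X ⌊n i * J⌋₊ ω (c i))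
          (fun ω => ((fun l : Fin i => F.X J ω (c l)), Y ω)) ≤
          CH q' (fun ω => F.X ⌊n i * J⌋₊ ω (c i)) (fun ω => (u ω i 0,
          (ceI ((range i).image c) (fun _ => J) (F.x ω), (z ω, F.W ω)))) := by
        refine CH_mono_cond h0 fun ω ω' _ _ e => ?_
        have e1 := (Prod.ext_iff.mp e).2
        have e2 := (Prod.ext_iff.mp e).1
        simp only at e1 e2
        rw [hYd] at e1
        simp only [Prod.mk.injEq] at e1 ⊢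
        refine ⟨by rw [e1.2.1], ceI_tup le_rfl fun l hl => congrFun e2 ⟨l, hl⟩, e1.2.2.1,
          e1.2.2.2.2⟩
      have b5 : nh r₀ p₀ n i = n i := by
        unfold nh
        rw [if_neg hi0]
      simp only
      rw [b5]
      linarith
  have a2 : ∑ i ∈ Finset.Ico 0 (v + 1), Bd i = (∑ i ∈ range (v + 1), (1 - nh r₀ p₀ n i)) *
      Real.log 2 * J + R * Real.log 9 + R * (ρ * J) := by
    rw [← Finset.range_eq_Ico, hBd, Finset.sum_add_distrib, Finset.sum_add_distrib,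
      Finset.sum_const, Finset.sum_const, Finset.card_range, nsmul_eq_mul, nsmul_eq_mul, ← hR,
      Finset.sum_mul, Finset.sum_mul]
    congr 2
    refine Finset.sum_congr rfl fun i _ => ?_
    ring
  -- the row given the exact positions
  have r1 := CH_le_add h0 u₂ (fun ω => F.X ⌊P₁ * J⌋₊ ω (c (v + 1))) (fun ω => (X ω, Y ω))
  have r2 := CH_le_add h0 u₂ (fun ω => F.X ⌊P₂ * J⌋₊ ω (c (v + 1)))
    (fun ω => (F.X ⌊P₁ * J⌋₊ ω (c (v + 1)), (X ω, Y ω)))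
  have r3 : CH q' (fun ω => F.X ⌊P₁ * J⌋₊ ω (c (v + 1))) (fun ω => (X ω, Y ω)) ≤ ρ * J := by
    refine le_trans (CH_mono_cond h0 fun ω ω' _ _ e => ?_) g2'
    rw [hYd] at e
    simp only [Prod.mk.injEq] at e ⊢
    exact ⟨e.2.1, hXe ω ω' e.1, e.2.2.2.1, e.2.2.2.2.2⟩
  have r4 : CH q' u₂ (fun ω => (F.X ⌊P₂ * J⌋₊ ω (c (v + 1)),
      (F.X ⌊P₁ * J⌋₊ ω (c (v + 1)), (X ω, Y ω)))) ≤ ρ * J := by
    refine le_trans (CH_mono_cond h0 fun ω ω' _ _ e => ?_) g3'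
    rw [hYd] at e
    simp only [Prod.mk.injEq] at e ⊢
    exact ⟨e.1, hXe ω ω' e.2.2.1, e.2.2.2.2.2.1, e.2.2.2.2.2.2.2⟩
  have r5 : CH q' (fun ω => F.X ⌊P₂ * J⌋₊ ω (c (v + 1)))
      (fun ω => (F.X ⌊P₁ * J⌋₊ ω (c (v + 1)), (X ω, Y ω))) ≤
      ((1 - h) * (P₂ - P₁) * Real.log 2 + δ) * J := by
    have e1 : P₁ + (P₂ - P₁) = P₂ := by ring
    have e2 : P₂ - P₁ - 0 = P₂ - P₁ := by ring
    rw [e1, e2, add_zero] at g4
    refine le_trans (CH_mono_cond h0 fun ω ω' _ _ e => ?_) g4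
    rw [hYd] at e
    simp only [Prod.mk.injEq] at e ⊢
    exact ⟨e.1, hXe ω ω' e.2.1, e.2.2.2.2.2.2⟩
  have s1 := CH_exch h0 u₂ X Y
  have s2 : CH q' X (fun ω => ((u₂ ω, u₁ ω), (u ω, (Xp ω, (z' ω, F.W ω))))) ≤
      CH q' X (fun ω => (u₂ ω, Y ω)) := by
    refine CH_mono_cond h0 fun ω ω' hω hω' e => ?_
    rw [hYd]
    simp only [Prod.mk.injEq] at e ⊢
    exact ⟨e.1.1, e.1.2, e.2.1, hzx ω ω' (hq'B ω hω) (hq'B ω' hω') e.2.2.2.1, e.2.2.1,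
      e.2.2.2.2⟩
  rw [← hXd] at g0
  rw [hXp] at s2
  have g0' := g0.trans s2
  have e9 : R * Real.log 9 ≤ ρ * J := by
    have := hJ₀.trans hJ1
    rw [div_le_iff₀ hρ0] at this
    linarith
  rw [a2, zero_add] at a1
  have e4 : ((1 - h) * (P₂ - P₁) * Real.log 2 +
      (δ + (∑ i ∈ range (v + 1), (sn i x - N i)) * Real.log 2 + ε)) * J =
      ((1 - h) * (P₂ - P₁) * Real.log 2 + δ) * J +
        (∑ i ∈ range (v + 1), (sn i x - N i)) * Real.log 2 * J + 4 * (R + 4) * (ρ * J) := by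
    rw [← hρε]
    ring
  have e5 : ((∑ i ∈ range (v + 1), (1 - nh r₀ p₀ n i)) -
      ∑ i ∈ range (v + 1), (sn i x - N i)) * Real.log 2 * J =
      (∑ i ∈ range (v + 1), (1 - nh r₀ p₀ n i)) * Real.log 2 * J -
        (∑ i ∈ range (v + 1), (sn i x - N i)) * Real.log 2 * J := by ring
  rw [e5] at g0'
  rw [e4]
  have e6 : 0 ≤ R * (ρ * J) := mul_nonneg hR0 hρJ
  linarith only [s1, a1, g0', r1, r2, r3, r4, r5, e9, e6, hρJ]

end wnd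

end Pool.AVG50
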