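import Pool.Agent.H50.AVG.Rwc

/-!
# Labels of the base

`ful_dg`: the places of a full set are full one after the other. `ful_take`: a part of a full set is
full. `AtV`: labels of the places of the base, of the precision of the window; they exist in every
class with numbers (`atV_of`). `chn_dn`: the chain with the base.
-/

set_option autoImplicit false

namespace Pool.AVG50

open Finset Real MvPolynomial
open Pool.Agent.H49.Ent Pool.Agent.H32.Dense Pool.STK Pool.KA Pool.KSAT Pool.K2S Pool.PB Pool.GEN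
open Pool.S6C Pool.RCD Pool.LA91 Pool.AVG96 Pool.OWN68
open Pool.UNJ (ceI)

variable {m : ℕ} {S : PCl m} {c : ℕ → Fin m}

/-- **The places of a full set are full** one after the other. -/
theorem ful_dg (hpos : ∀ (τ : ℝ) (J : ℕ) (F : Fam m J) (A : F.Ω → Prop), S.St τ J F A →
    0 < Pe F.p A) {n : ℕ} {w u : ℝ} (hu0 : 0 ≤ u) (hu1 : u ≤ 1) (hc : Set.InjOn c (Set.Iio n))
    (h : Ful S ((range n).image c) w u) {ρ : ℝ} (hρ : 0 < ρ) :
    Bas S (fun J F A => ∀ (V : Type) (z : PtT F → V) (z' : LnT F → V),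
      (∀ ω, A ω → z (ptr F J ω) = z' (slam F ⌊w * J⌋₊ ω)) → ∀ i < n,
      ((1 - u) - ρ) * Real.log 2 * J ≤ CH (Pool.Agent.H49.Ent.cond F.p A True)
        (fun ω => F.X J ω (c i)) (fun ω => ((fun l : Fin i => F.X J ω (c l)),
          ((fun l : Fin n => F.X ⌊u * J⌋₊ ω (c l)), z' (slam F ⌊w * J⌋₊ ω), F.W ω)))) := by
  have hl2 : 0 < Real.log 2 := Real.log_pos one_lt_two
  have hn0 : (0 : ℝ) ≤ n := Nat.cast_nonneg n
  have hl9 : 0 ≤ Real.log 9 := Real.log_nonneg (by norm_num)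
  obtain ⟨J₀, hJ₀⟩ := exists_nat_ge (n * Real.log 9 / (ρ * Real.log 2 / 2))
  refine Bas.mono J₀ ((h (ρ * Real.log 2 / 2) (by positivity)).and (pos_bas hpos)) ?_
  rintro J hJ F A ⟨H, hA⟩ V z z' hz i hi
  have hcl := isLaw_cond F.isLaw hA
  have h0 := hcl.nonneg
  have hJ0 : (0 : ℝ) ≤ J := Nat.cast_nonneg J
  have hJ1 : (J₀ : ℝ) ≤ J := by exact_mod_cast hJ
  obtain ⟨q, hq⟩ : ∃ q : F.Ω → ℝ, q = Pool.Agent.H49.Ent.cond F.p A True := ⟨_, rfl⟩
  rw [← hq] at hcl h0 ⊢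
  have h1 := H V z z' hz
  rw [card_im hc le_rfl, ← hq] at h1
  have h2 := h1.trans (base_dig h0 (fun ω => z' (slam F ⌊w * J⌋₊ ω)))
  obtain ⟨Y, hY⟩ : ∃ Y : F.Ω → (Fin n → ℤ) × V × (ℕ × F.ζ), Y = fun ω =>
    ((fun l : Fin n => F.X ⌊u * J⌋₊ ω (c l)), z' (slam F ⌊w * J⌋₊ ω), F.W ω) := ⟨_, rfl⟩
  rw [← hY] at h2
  obtain ⟨D, hD⟩ : ∃ D : ℝ, D = CH q (fun ω => F.X J ω (c i))
    (fun ω => ((fun l : Fin i => F.X J ω (c l)), Y ω)) := ⟨_, rfl⟩
  suffices hg : ((1 - u) - ρ) * Real.log 2 * J ≤ D by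
    rw [hD, hY] at hg
    exact hg
  obtain ⟨E, hE⟩ : ∃ E : ℝ, E = (1 - u) * J * Real.log 2 + Real.log 9 := ⟨_, rfl⟩
  have h3 := tup_le h0 (fun i ω => F.X J ω (c i)) (Nat.zero_le n) Y
    (B₀ := 0) (B := fun k => if k = i then D else E)
    (le_of_eq (CH_eq_zero h0 fun ω ω' _ _ _ => funext fun l => l.elim0)) (by
    intro k _ hk
    by_cases hki : k = i
    · rw [if_pos hki, hD, hki]
    · rw [if_neg hki, hE]
      refine le_trans (CH_mono_cond h0 fun ω ω' _ _ e => ?_)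
        (x_more F hcl (c k) (n := u) hu1 Y)
      have e1 := (Prod.ext_iff.mp e).2
      refine Prod.ext ?_ e1
      simp only at e1
      rw [hY] at e1
      exact congrFun (Prod.ext_iff.mp e1).1 ⟨k, hk⟩)
  have h4 : ∑ k ∈ Finset.Ico 0 n, (if k = i then D else E) = D + ((n : ℝ) - 1) * E := by
    rw [← Finset.range_eq_Ico]
    have e1 : ∀ k ∈ range n, (if k = i then D else E) = E + (if k = i then D - E else 0) := by
      intro k _
      by_cases hk : k = i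
      · rw [if_pos hk, if_pos hk]
        ring
      · rw [if_neg hk, if_neg hk]
        ring
    rw [Finset.sum_congr rfl e1, Finset.sum_add_distrib, Finset.sum_const, Finset.card_range,
      nsmul_eq_mul, Finset.sum_ite_eq' (range n) i, if_pos (mem_range.2 hi)]
    ring
  rw [h4, zero_add] at h3
  have h5 := h2.trans h3
  have hfl : ((⌊u * J⌋₊ : ℕ) : ℝ) ≤ u * J := Nat.floor_le (by positivity)
  have hfJ : ⌊u * J⌋₊ ≤ J := floor_le hu1 J
  rw [Nat.cast_sub hfJ] at h5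
  have h6 : (1 - u) * J * Real.log 2 ≤ ((J : ℝ) - (⌊u * J⌋₊ : ℕ)) * Real.log 2 :=
    mul_le_mul_of_nonneg_right (by linarith) hl2.le
  have h7 := mul_le_mul_of_nonneg_left h6 hn0
  have h8 : n * Real.log 9 ≤ ρ * Real.log 2 / 2 * J := by
    have := hJ₀.trans hJ1
    rw [div_le_iff₀ (by positivity)] at this
    linarith
  rw [hE] at h5
  nlinarith only [h5, h7, h8, hl9]

/-- **A part of a full set is full.** -/
theorem ful_take (hpos : ∀ (τ : ℝ) (J : ℕ) (F : Fam m J) (A : F.Ω → Prop), S.St τ J F A →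
    0 < Pe F.p A) {n k : ℕ} (hk : k ≤ n) {w u : ℝ} (hu0 : 0 ≤ u) (hu1 : u ≤ 1)
    (hc : Set.InjOn c (Set.Iio n)) (h : Ful S ((range n).image c) w u) :
    Ful S ((range k).image c) w u := by
  intro ρ hρ
  have hl2 : 0 < Real.log 2 := Real.log_pos one_lt_two
  have hk0 : (0 : ℝ) ≤ k := Nat.cast_nonneg k
  obtain ⟨J₀, hJ₀⟩ := exists_nat_ge (k * Real.log 2 / (ρ / 2))
  obtain ⟨ρ', hρ'⟩ : ∃ ρ' : ℝ, ρ' = ρ / (2 * ((k + 1) * Real.log 2)) := ⟨_, rfl⟩
  have hρ0 : 0 < ρ' := by rw [hρ']; positivity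
  have hρe : ρ' * (2 * ((k + 1) * Real.log 2)) = ρ := by
    rw [hρ']
    exact div_mul_cancel₀ _ (by positivity)
  refine Bas.mono J₀ ((ful_dg hpos hu0 hu1 hc h hρ0).and (pos_bas hpos)) ?_
  rintro J hJ F A ⟨H, hA⟩ V z z' hz
  have hcl := isLaw_cond F.isLaw hA
  have h0 := hcl.nonneg
  have hJ0 : (0 : ℝ) ≤ J := Nat.cast_nonneg J
  have hJ1 : (J₀ : ℝ) ≤ J := by exact_mod_cast hJ
  obtain ⟨q, hq⟩ : ∃ q : F.Ω → ℝ, q = Pool.Agent.H49.Ent.cond F.p A True := ⟨_, rfl⟩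
  rw [← hq] at hcl h0 ⊢
  have h1 := H V z z' hz
  rw [← hq] at h1
  obtain ⟨Y, hY⟩ : ∃ Y : F.Ω → (Fin n → ℤ) × V × (ℕ × F.ζ), Y = fun ω =>
    ((fun l : Fin n => F.X ⌊u * J⌋₊ ω (c l)), z' (slam F ⌊w * J⌋₊ ω), F.W ω) := ⟨_, rfl⟩
  have h2 := le_tup h0 (fun i ω => F.X J ω (c i)) (Nat.zero_le k) Y
    (B₀ := 0) (B := fun _ => ((1 - u) - ρ') * Real.log 2 * J) (CH_nonneg h0 _ _)
    (fun i _ hi => by
      rw [hY]
      exact h1 i (by omega))
  rw [← Finset.range_eq_Ico, Finset.sum_const, Finset.card_range, nsmul_eq_mul, zero_add] at h2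
  have h3 : CH q (fun ω (l : Fin k) => F.X J ω (c l)) Y ≤
      CH q (fun ω => ceI ((range k).image c) (fun _ => J) (F.x ω))
        (fun ω => (ceI ((range k).image c) (fun _ => ⌊u * J⌋₊) (F.x ω),
          z' (slam F ⌊w * J⌋₊ ω), F.W ω)) := by
    refine (CH_mono_left h0 (X' := fun ω => ceI ((range k).image c) (fun _ => J) (F.x ω))
      fun ω ω' _ _ hh => ?_).trans (CH_mono_cond h0 fun ω ω' _ _ hh => ?_)
    · have h4 := Prod.ext_iff.mp hh
      refine _root_.funext fun l => ?_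
      have h5 := congrFun h4.1 (c l)
      have h6 : c l ∈ (range k).image c := mem_image_of_mem _ (mem_range.2 l.2)
      unfold ceI at h5
      simp only [if_pos h6] at h5
      exact h5
    · rw [hY] at hh
      have h4 := Prod.ext_iff.mp hh
      refine Prod.ext ?_ h4.2
      funext i
      unfold ceI
      by_cases hi : i ∈ (range k).image c
      · obtain ⟨l, hl, rfl⟩ := mem_image.1 hi
        simp only [if_pos hi]
        exact congrFun h4.1 ⟨l, by have := mem_range.1 hl; omega⟩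
      · simp only [if_neg hi]
  rw [card_im (hc.mono (Set.Iio_subset_Iio hk)) le_rfl]
  refine le_trans ?_ (h2.trans h3)
  have hfl : u * J < ((⌊u * J⌋₊ : ℕ) : ℝ) + 1 := Nat.lt_floor_add_one _
  have hfJ : ⌊u * J⌋₊ ≤ J := floor_le hu1 J
  rw [Nat.cast_sub hfJ]
  have h6 : ((J : ℝ) - (⌊u * J⌋₊ : ℕ)) * Real.log 2 ≤ ((1 - u) * J + 1) * Real.log 2 :=
    mul_le_mul_of_nonneg_right (by linarith) hl2.le
  have h7 := mul_le_mul_of_nonneg_left h6 hk0
  have h8 : k * Real.log 2 ≤ ρ / 2 * J := by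
    have := hJ₀.trans hJ1
    rw [div_le_iff₀ (by positivity)] at this
    linarith
  have h9 : 0 ≤ ρ' * Real.log 2 * J := by positivity
  have h10 : k * (ρ' * Real.log 2 * J) ≤ ρ / 2 * J := by
    have e1 : ρ / 2 * J = (k + 1) * (ρ' * Real.log 2 * J) := by
      rw [← hρe]
      ring
    rw [e1]
    linarith
  nlinarith only [h7, h8, h10]

/-- **Labels of the places of the base**, of the precision of the window. -/
def AtV (S : PCl m) (c : ℕ → Fin m) (r₀ : ℕ) (w : ℝ) : Prop :=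
  ∀ l < r₀, Att S ((range l).image c) (c l) w w 0

/-- The labels of the base exist in a class with numbers. -/
theorem atV_of {L : Finset (Fin m) → Fin m → ℝ → ℝ → ℝ} (hL : LamW S L) {r₀ : ℕ} {w : ℝ}
    (hw0 : 0 < w) (hw1 : w ≤ 1) : AtV S c r₀ w := by
  intro l _
  refine Pool.LA91.LamW.att' hL _ _ hw0 hw1 fun a ha => ⟨(max a 0 + w) / 2, ?_, ?_⟩
  · have : max a 0 < w := max_lt ha hw0
    linarith
  · have h1 : max a 0 < w := max_lt ha hw0
    have h2 := hL.low ((range l).image c) (c l) ((max a 0 + w) / 2) 0 (by linarith)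
    have h3 := le_max_left a 0
    linarith

theorem AtV.sub {S' : PCl m} (hs : ∀ (τ : ℝ) (J : ℕ) (F : Fam m J) (A : F.Ω → Prop),
    S'.St τ J F A → S.St τ J F A) {r₀ : ℕ} {w : ℝ} (h : AtV S c r₀ w) : AtV S' c r₀ w :=
  fun l hl => (h l hl).sub hs

/-- The levels with the base. -/
noncomputable def sv (r₀ : ℕ) (w : ℝ) (s : ℕ → ℝ) (l : ℕ) : ℝ := if l < r₀ then w else s l

theorem sv_lt {r₀ : ℕ} {w : ℝ} {s : ℕ → ℝ} {l : ℕ} (h : l < r₀) : sv r₀ w s l = w := if_pos h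

theorem sv_ge {r₀ : ℕ} {w : ℝ} {s : ℕ → ℝ} {l : ℕ} (h : r₀ ≤ l) : sv r₀ w s l = s l :=
  if_neg (by omega)

/-- **The chain with the base.** -/
theorem chn_dn (hpos : ∀ (τ : ℝ) (J : ℕ) (F : Fam m J) (A : F.Ω → Prop), S.St τ J F A →
    0 < Pe F.p A) {r₀ r : ℕ} {w u₁ : ℝ} {s rd : ℕ → ℝ} (h : Chn S c r₀ r w w u₁ s rd)
    (hV : AtV S c r₀ w) : Chn S c 0 r w w u₁ (sv r₀ w s) (sv r₀ 0 rd) where
  hr := Nat.zero_le _
  inj := h.inj
  w0 := h.w0
  wu0 := h.wu0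
  u0 := h.u0
  wu1 := h.wu1
  u1 := h.u1
  s0 i _ hi := by
    rcases Nat.lt_or_ge i r₀ with h1 | h1
    · rw [sv_lt h1]
      exact ⟨h.w0, h.u0⟩
    · rw [sv_ge h1]
      exact h.s0 i h1 hi
  r1 i _ hi := by
    rcases Nat.lt_or_ge i r₀ with h1 | h1
    · rw [sv_lt h1]
      exact one_pos
    · rw [sv_ge h1]
      exact h.r1 i h1 hi
  att i _ hi := by
    rcases Nat.lt_or_ge i r₀ with h1 | h1
    · rw [sv_lt h1, sv_lt h1]
      exact hV i h1
    · rw [sv_ge h1, sv_ge h1]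
      exact h.att i h1 hi
  base u hu hu1 := by
    have h1 := h.base u hu hu1
    exact ful_take hpos (Nat.zero_le _) (h.w0.trans hu.le) hu1.le
      (h.inj.mono (Set.Iio_subset_Iio h.hr)) h1
  pre n _ hn := by
    rcases Nat.lt_or_ge n r₀ with h1 | h1
    · exact ful_take hpos h1.le (h.w0.trans h.wu1) h.u1.le
        (h.inj.mono (Set.Iio_subset_Iio h.hr)) (h.pre r₀ le_rfl h.hr)
    · exact h.pre n h1 hn
  ful := by
    intro ρ hρ
    obtain ⟨u, hu, hu2⟩ : ∃ u, w < u ∧ u ≤ w + ρ / 2 ∧ u < 1 := by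
      refine ⟨min (w + ρ / 2) ((w + 1) / 2), lt_min (by linarith) (by linarith [h.u0]),
        min_le_left _ _, (min_le_right _ _).trans_lt (by linarith [h.u0])⟩
    have h1 := ful_dg hpos (h.w0.trans hu.le) hu2.2.le (h.inj.mono (Set.Iio_subset_Iio h.hr))
      (h.base u hu hu2.2) (half_pos hρ)
    refine Bas.mono 0 (((h.ful ρ hρ).and h1).and (pos_bas hpos)) ?_
    rintro J - F A ⟨⟨H₁, H₂⟩, hA⟩ V z z' hz i _ hi
    rcases Nat.lt_or_ge i r₀ with h2 | h2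
    · rw [sv_lt h2]
      have hJ0 : (0 : ℝ) ≤ J := Nat.cast_nonneg J
      have hl2 : 0 < Real.log 2 := Real.log_pos one_lt_two
      have h3 := H₂ V z z' hz i h2
      have h4 : ((1 - w) - ρ) * Real.log 2 * J ≤ ((1 - u) - ρ / 2) * Real.log 2 * J :=
        mul_le_mul_of_nonneg_right (mul_le_mul_of_nonneg_right (by linarith) hl2.le) hJ0
      refine h4.trans (h3.trans (CH_mono_cond (isLaw_cond F.isLaw hA).nonneg
        fun ω ω' _ _ e => ?_))
      exact Prod.ext (Prod.ext_iff.mp e).1 (Prod.ext_iff.mp (Prod.ext_iff.mp e).2).2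
    · rw [sv_ge h2]
      exact H₁ V z z' hz i h2 hi

end Pool.AVG50
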