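import Pool.Agent.H50.AVG.Rwd

/-!
# The numbers of the rows

`Nms`: levels with slopes `Sh i ≤ σ` between `w` and `x`, `σ (x - w) ≈ D`. `nnS`: the digits over the
labels of the windows between. The conditions of `Wnd` and `Ngt`.
-/

set_option autoImplicit false

namespace Pool.AVG50

open Finset Real

/-- **The numbers.** `a`: the error of the slopes, `D`: the digits of the target. -/
structure Nms (r : ℕ) (sn : ℕ → ℝ → ℝ) (G : Set ℝ) (w x σ a D : ℝ) (Sh : ℕ → ℝ) : Prop where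
  wG : w ∈ G
  xG : x ∈ G
  sub : ∀ u ∈ G, w ≤ u ∧ u ≤ x
  a0 : 0 < a
  σ1 : 1 ≤ σ
  shb : ∀ i < r, 0 ≤ Sh i ∧ Sh i ≤ σ
  shT : Sh r = σ
  sl : ∀ i ≤ r, ∀ u ∈ G, ∀ u' ∈ G, u ≤ u' → |sn i u' - sn i u - Sh i * (u' - u)| ≤ a
  mo : ∀ i ≤ r, ∀ u ∈ G, ∀ u' ∈ G, u ≤ u' → sn i u ≤ sn i u'
  x1 : D + σ * a ≤ σ * (x - w)
  x2 : σ * (x - w) ≤ D + 2 * σ * a
  D0 : 0 ≤ D
  rm : D + ((r : ℝ) + 4) * ((3 * σ + 10) * a) + x ≤ 1

/-- The digits over the labels of `u`. -/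
noncomputable def nnS (r : ℕ) (sn : ℕ → ℝ → ℝ) (w σ a D : ℝ) (Sh : ℕ → ℝ) (i : ℕ) (u : ℝ) : ℝ :=
  sn i w + D + ((r : ℝ) + 1 - i) * ((3 * σ + 10) * a) - (σ - Sh i) * (u - w)

section

variable {r : ℕ} {sn : ℕ → ℝ → ℝ} {G : Set ℝ} {w x σ a D : ℝ} {Sh : ℕ → ℝ}

theorem Nms.ka (N : Nms r sn G w x σ a D Sh) : 13 * a ≤ (3 * σ + 10) * a ∧ 0 ≤ σ * a := by
  have h1 := N.a0
  have h2 := N.σ1
  exact ⟨mul_le_mul_of_nonneg_right (by linarith) h1.le, by positivity⟩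

/-- The excess. -/
theorem Nms.exc (N : Nms r sn G w x σ a D Sh) {i : ℕ} (hi : i < r) {u : ℝ} (hu : u ∈ G) :
    D - σ * (u - w) + ((r : ℝ) + 1 - i) * ((3 * σ + 10) * a) - a ≤
      nnS r sn w σ a D Sh i u - sn i u ∧
    nnS r sn w σ a D Sh i u - sn i u ≤
      D - σ * (u - w) + ((r : ℝ) + 1 - i) * ((3 * σ + 10) * a) + a := by
  have h1 := abs_le.1 (N.sl i hi.le w N.wG u hu (N.sub u hu).1)
  unfold nnS
  constructor <;> nlinarith [h1.1, h1.2]

theorem Nms.sxu (N : Nms r sn G w x σ a D Sh) {u : ℝ} (hu : u ∈ G) :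
    0 ≤ σ * (u - w) ∧ σ * (u - w) ≤ D + 2 * σ * a := by
  have h2 := N.σ1
  have h3 := N.sub u hu
  refine ⟨mul_nonneg (by linarith) (by linarith), le_trans ?_ N.x2⟩
  exact mul_le_mul_of_nonneg_left (by linarith) (by linarith)

theorem Nms.ci (N : Nms r sn G w x σ a D Sh) {i : ℕ} (hi : i < r) :
    2 * ((3 * σ + 10) * a) ≤ ((r : ℝ) + 1 - i) * ((3 * σ + 10) * a) ∧
      ((r : ℝ) + 1 - i) * ((3 * σ + 10) * a) ≤ ((r : ℝ) + 1) * ((3 * σ + 10) * a) := by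
  have h1 := N.ka
  have h2 := N.a0
  have h3 : (i : ℝ) + 1 ≤ r := by exact_mod_cast hi
  have h4 : (0 : ℝ) ≤ i := Nat.cast_nonneg i
  have h5 : 0 ≤ (3 * σ + 10) * a := by linarith
  exact ⟨mul_le_mul_of_nonneg_right (by linarith) h5,
    mul_le_mul_of_nonneg_right (by linarith) h5⟩

theorem Nms.lo (N : Nms r sn G w x σ a D Sh) {i : ℕ} (hi : i < r) {u : ℝ} (hu : u ∈ G) :
    sn i u + 2 * a ≤ nnS r sn w σ a D Sh i u := by
  have h1 := N.exc hi hu
  have h2 := N.sxu hu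
  have h3 := N.ci hi
  have h4 := N.ka
  have h5 := N.a0
  linarith [h1.1, h2.2, h3.1]

theorem Nms.mon (N : Nms r sn G w x σ a D Sh) {i : ℕ} (hi : i < r) {u u' : ℝ} (h : u ≤ u') :
    nnS r sn w σ a D Sh i u' ≤ nnS r sn w σ a D Sh i u := by
  have h1 := N.shb i hi
  have h2 : (σ - Sh i) * (u - w) ≤ (σ - Sh i) * (u' - w) :=
    mul_le_mul_of_nonneg_left (by linarith) (by linarith)
  unfold nnS
  linarith

theorem Nms.st (N : Nms r sn G w x σ a D Sh) {i : ℕ} (hi : i < r) {u u' : ℝ} (hu : u ∈ G)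
    (hu' : u' ∈ G) (h1 : u ≤ u') (h2 : u' ≤ u + 3 * a) : sn i u' ≤ sn i u + 3 * σ * a + a := by
  have h3 := abs_le.1 (N.sl i hi.le u hu u' hu' h1)
  have h4 := N.shb i hi
  have h5 : Sh i * (u' - u) ≤ σ * (u' - u) := mul_le_mul_of_nonneg_right h4.2 (by linarith)
  have h6 : σ * (u' - u) ≤ σ * (3 * a) := mul_le_mul_of_nonneg_left (by linarith)
    (by linarith [N.σ1])
  linarith [h3.2]

theorem Nms.t0 (N : Nms r sn G w x σ a D Sh) {i : ℕ} (hi : i < r) {u u' : ℝ} (hu : u ∈ G)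
    (hu' : u' ∈ G) (h1 : u ≤ u') (h2 : u' ≤ u + 3 * a) :
    nnS r sn w σ a D Sh i u' + 4 * a ≤ sn i u + (1 - u') := by
  have h3 := N.st hi hu hu' h1 h2
  have h4 := (N.exc hi hu').2
  have h5 := N.sxu hu'
  have h6 := N.ci hi
  have h7 := N.rm
  have h8 := (N.sub u' hu').2
  have h9 := N.ka
  have h10 := N.a0
  linarith [h6.2]

theorem Nms.ne (N : Nms r sn G w x σ a D Sh) {i : ℕ} (hi : i < r) {l : ℕ} (hl : l < i) {u u' : ℝ}
    (hu : u ∈ G) (hu' : u' ∈ G) (h1 : u ≤ u') (h2 : u' ≤ u + 3 * a) :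
    nnS r sn w σ a D Sh i u' + 4 * a ≤ sn i u + (nnS r sn w σ a D Sh l u' - sn l u') := by
  have h3 := N.st hi hu hu' h1 h2
  have h4 := (N.exc hi hu').2
  have h5 := (N.exc (hl.trans hi) hu').1
  have h6 : (l : ℝ) + 1 ≤ i := by exact_mod_cast hl
  have h7 := N.ka
  have h8 : ((r : ℝ) + 1 - i) * ((3 * σ + 10) * a) + (3 * σ + 10) * a ≤
      ((r : ℝ) + 1 - l) * ((3 * σ + 10) * a) := by
    have h9 : 0 ≤ (3 * σ + 10) * a := by linarith [N.a0]
    have h10 : ((r : ℝ) + 1 - i + 1) * ((3 * σ + 10) * a) ≤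
      ((r : ℝ) + 1 - l) * ((3 * σ + 10) * a) := mul_le_mul_of_nonneg_right (by linarith) h9
    linarith
  have h9 := N.a0
  linarith

/-- The heights of the chain are known at `x`. -/
theorem Nms.ngt (N : Nms r sn G w x σ a D Sh) {i : ℕ} (hi : i < r) :
    Ngt r sn G w x a (nnS r sn w σ a D Sh) i (sn i x - (5 * σ + 8) * a) := by
  have a0 := N.a0
  have ka := N.ka
  have hxu : ∀ u ∈ G, sn i x ≤ sn i u + σ * (x - u) + a := by
    intro u hu
    have h3 := abs_le.1 (N.sl i hi.le u hu x N.xG (N.sub u hu).2)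
    have h4 := N.shb i hi
    have h5 : Sh i * (x - u) ≤ σ * (x - u) := mul_le_mul_of_nonneg_right h4.2
      (by linarith [(N.sub u hu).2])
    linarith [h3.2]
  refine ⟨by nlinarith [N.σ1], fun u hu u' hu' _ h1 _ h2 => ?_,
    fun l hl u hu u' hu' _ h1 _ h2 => ?_⟩
  · have h3 := hxu u hu
    have h4 : σ * (x - u) ≤ σ * (x - w) := mul_le_mul_of_nonneg_left
      (by linarith [(N.sub u hu).1]) (by linarith [N.σ1])
    have h5 := N.x2
    have h6 := N.rm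
    have h7 := (N.sub u' hu').2
    have h8 : (0 : ℝ) ≤ r * ((3 * σ + 10) * a) := by
      have : 0 ≤ (3 * σ + 10) * a := by linarith
      positivity
    linarith
  · have h3 := hxu u hu
    have h4 := (N.exc (hl.trans hi) hu').1
    have h5 := N.x2
    have h6 := (N.ci (hl.trans hi)).1
    have h7 : σ * (u' - u) ≤ σ * (3 * a) := mul_le_mul_of_nonneg_left (by linarith)
      (by linarith [N.σ1])
    linarith

/-- The heights of the target are known at `x`. -/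
theorem Nms.ngtT (N : Nms r sn G w x σ a D Sh) {P : ℝ} (hP : P ≤ sn r w + D) :
    Ngt r sn G w x a (nnS r sn w σ a D Sh) r P := by
  have a0 := N.a0
  have ka := N.ka
  have σ1 := N.σ1
  have hwu : ∀ u ∈ G, sn r w + σ * (u - w) - a ≤ sn r u := by
    intro u hu
    have h3 := abs_le.1 (N.sl r le_rfl w N.wG u hu (N.sub u hu).1)
    rw [N.shT] at h3
    linarith [h3.1]
  refine ⟨?_, fun u hu u' hu' _ h1 _ h2 => ?_, fun l hl u hu u' hu' _ h1 _ h2 => ?_⟩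
  · have h3 := hwu x N.xG
    have h4 := N.x1
    have h5 : a ≤ σ * a := by nlinarith
    linarith
  · have h3 := hwu u hu
    have h4 := (N.sxu hu).1
    have h6 := N.rm
    have h7 := (N.sub u' hu').2
    have h8 : (0 : ℝ) ≤ r * ((3 * σ + 10) * a) := by
      have : 0 ≤ (3 * σ + 10) * a := by linarith
      positivity
    linarith
  · have h3 := hwu u hu
    have h4 := (N.exc hl hu').1
    have h6 := (N.ci hl).1
    have h7 : σ * (u' - u) ≤ σ * (3 * a) := mul_le_mul_of_nonneg_left (by linarith)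
      (by linarith)
    linarith

theorem Nms.hNn (N : Nms r sn G w x σ a D Sh) {i : ℕ} (hi : i < r) :
    sn i x - (5 * σ + 8) * a ≤ nnS r sn w σ a D Sh i w := by
  have h3 := abs_le.1 (N.sl i hi.le w N.wG x N.xG (N.sub x N.xG).1)
  have h4 := N.shb i hi
  have h5 : Sh i * (x - w) ≤ σ * (x - w) := mul_le_mul_of_nonneg_right h4.2
    (by linarith [(N.sub x N.xG).1])
  have h6 := N.x2
  have h7 := (N.ci hi).1
  have h8 := N.ka
  have h9 := N.a0
  unfold nnS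
  linarith [h3.2]

end

end Pool.AVG50
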