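import Pool.Agent.H50.AVG.Rwe

/-!
# More digits of the target

`rwc_ext`: the condition `RwC` beyond the digits `Pm`; the digits beyond `Pm` are counted in full.
`rwc_mono`: a larger error.
-/

set_option autoImplicit false

namespace Pool.AVG50

open Finset Real MvPolynomial
open Pool.Agent.H49.Ent Pool.Agent.H32.Dense Pool.STK Pool.KA Pool.KSAT Pool.K2S Pool.PB Pool.GEN
open Pool.S6C Pool.RCD Pool.LA91 Pool.AVG96 Pool.OWN68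
open Pool.AVG57 (RwC)

variable {m : ℕ} {γ : ∀ J : ℕ, Fam m J → Type} {y : ∀ (J : ℕ) (F : Fam m J), F.Ω → γ J F}
  {S : PCl m} {c : ℕ → Fin m} {r₀ v : ℕ} {w : ℝ} {p n : ℕ → ℝ} {P₁ P₂ h δ : ℝ}

/-- Fewer digits. -/
theorem hgt_dn {Ω β : Type} [Fintype Ω] {q' : Ω → ℝ} (hq' : IsLaw q') (o : Ω → ℝ) {N n : ℝ}
    (J : ℕ) (hNn : N ≤ n) (Y : Ω → β) :
    CH q' (fun ω => ⌊(2 : ℝ) ^ (N * J) * o ω⌋)
      (fun ω => (⌊(2 : ℝ) ^ (n * J) * o ω⌋, Y ω)) ≤ Real.log 5 := by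
  have hJ0 : (0 : ℝ) ≤ J := Nat.cast_nonneg J
  have e1 : (2 : ℝ) ^ ((N - n) * J) ≤ 1 :=
    Real.rpow_le_one_of_one_le_of_nonpos (by norm_num)
      (mul_nonpos_of_nonpos_of_nonneg (by linarith) hJ0)
  have key := CH_pair hq' (fun ω => ⌊(2 : ℝ) ^ (N * J) * o ω⌋)
    (fun ω => (⌊(2 : ℝ) ^ (n * J) * o ω⌋, Y ω)) (D := 1 + 1) (by
      intro ω ω' hω hω' e
      have g2 := fl_one_mul (Real.rpow_pos_of_pos (by norm_num) _) (Prod.ext_iff.mp e).1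
      refine floor_sub_le ?_
      rw [← mul_sub]
      have e5 : (2 : ℝ) ^ (N * J) = 2 ^ ((N - n) * J) * 2 ^ (n * J) := by
        rw [← Real.rpow_add (by norm_num)]
        congr 1
        ring
      rw [e5, mul_assoc, abs_mul, abs_of_pos (Real.rpow_pos_of_pos (by norm_num) _)]
      have e6 := mul_le_mul e1 g2 (abs_nonneg _) zero_le_one
      rw [Nat.cast_one]
      linarith)
  refine key.trans (le_of_eq ?_)
  norm_num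

theorem rwc_mono {δ' : ℝ} (H : RwC S y c r₀ v w p n P₁ P₂ h δ) (hδ : δ ≤ δ') :
    RwC S y c r₀ v w p n P₁ P₂ h δ' := by
  intro c₀ hc₀
  obtain ⟨k, hk, e₀, he₀, H⟩ := H c₀ hc₀
  refine ⟨k, hk, e₀, he₀, fun K => Bas.mono 0 (H K) ?_⟩
  intro J _ F A H V z hz u u₁ u₂ hu hu₁ hu₂ B' hB hc
  refine (H V z hz u u₁ u₂ hu hu₁ hu₂ B' hB hc).trans ?_
  exact mul_le_mul_of_nonneg_right (by linarith) (Nat.cast_nonneg J)

/-- **The digits beyond `Pm`** are counted in full. -/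
theorem rwc_ext
    (hpos : ∀ (τ : ℝ) (J : ℕ) (F : Fam m J) (A : F.Ω → Prop), S.St τ J F A → 0 < Pe F.p A)
    {Pm : ℝ} (hP : P₁ ≤ P₂) (hh : h ≤ 1)
    (H : RwC S y c r₀ v w p n (min P₁ Pm) (min P₂ Pm) h δ) {ε : ℝ} (hε : 0 < ε) :
    RwC S y c r₀ v w p n P₁ P₂ h (δ + max 0 (P₂ - Pm) * Real.log 2 + ε) := by
  intro c₀ hc₀
  obtain ⟨k, hk, e₀, he₀, H⟩ := H c₀ hc₀
  have hl2 : 0 < Real.log 2 := Real.log_pos one_lt_two
  obtain ⟨J₁, hJ₁⟩ := exists_nat_ge ((Real.log 5 + Real.log 7) / ε)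
  obtain ⟨J₂, hJ₂⟩ := exists_nat_ge (Real.log 5)
  refine ⟨k, hk, e₀, he₀, fun K => Bas.mono (max J₁ J₂) ((H (K + 1)).and (pos_bas hpos)) ?_⟩
  rintro J hJ F A ⟨H, hA⟩ V z hz u u₁ u₂ hu ⟨hc1, V1, z1, z1', G1, hlb1, hu1⟩
    ⟨hc2, V2, z2, z2', G2, hlb2, hu2⟩ B' hB hc
  have hJ0 : (0 : ℝ) ≤ J := Nat.cast_nonneg J
  have j1 : (J₁ : ℝ) ≤ J := by exact_mod_cast (le_max_left _ _).trans hJ
  have j2 : (J₂ : ℝ) ≤ J := by exact_mod_cast (le_max_right _ _).trans hJ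
  have hB0 : 0 < Pe F.p B' := lt_of_lt_of_le (mul_pos hc₀ hA) hc
  obtain ⟨q, hq⟩ : ∃ q : F.Ω → ℝ, q = Pool.Agent.H49.Ent.cond F.p B' True := ⟨_, rfl⟩
  have hcl : IsLaw q := by
    rw [hq]
    exact isLaw_cond F.isLaw hB0
  have h0 := hcl.nonneg
  have hqA : ∀ ω, 0 < q ω → A ω := fun ω hω => by
    rw [hq] at hω
    exact hB ω (of_cond_pos hω)
  obtain ⟨X1, hX1⟩ : ∃ X1 : F.Ω → ℝ, X1 = fun ω =>
    ojet F (c (v + 1)) 0 (G1 (z1' (slam F ⌊w * J⌋₊ ω))) ω := ⟨_, rfl⟩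
  obtain ⟨X2, hX2⟩ : ∃ X2 : F.Ω → ℝ, X2 = fun ω =>
    ojet F (c (v + 1)) 0 (G2 (z2' (slam F ⌊w * J⌋₊ ω))) ω := ⟨_, rfl⟩
  have g1 : ∀ ω, A ω → u₁ ω = ⌊(2 : ℝ) ^ (P₁ * J) * X1 ω⌋ := by
    rw [hX1]
    exact hu1
  have g2 : ∀ ω, A ω → u₂ ω = ⌊(2 : ℝ) ^ (P₂ * J) * X2 ω⌋ := by
    rw [hX2]
    exact hu2
  have hcnt : ∀ (N N' : ℝ) (X : F.Ω → ℝ) (u' : F.Ω → ℤ), N ≤ N' →
      (∀ ω, A ω → u' ω = ⌊(2 : ℝ) ^ (N' * J) * X ω⌋) → (cnt F.p u' A : ℝ) ≤ Real.exp (K * J) →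
      (cnt F.p (fun ω => ⌊(2 : ℝ) ^ (N * J) * X ω⌋) A : ℝ) ≤ Real.exp ((K + 1 : ℕ) * J) := by
    intro N N' X u' hN hu' hc'
    refine (cnt_dig (p := F.p) X (mul_le_mul_of_nonneg_right hN hJ0) hu').trans
      ((mul_le_mul_of_nonneg_right hc' (by norm_num)).trans ?_)
    calc Real.exp (K * J) * 5 = Real.exp (K * J) * Real.exp (Real.log 5) := by
          rw [Real.exp_log (by norm_num)]
      _ = Real.exp (K * J + Real.log 5) := (Real.exp_add _ _).symm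
      _ ≤ Real.exp ((K + 1 : ℕ) * J) := by
          refine Real.exp_le_exp.2 ?_
          push_cast
          linarith [hJ₂.trans j2]
  have key := H V z hz u (fun ω => ⌊(2 : ℝ) ^ (min P₁ Pm * J) * X1 ω⌋)
    (fun ω => ⌊(2 : ℝ) ^ (min P₂ Pm * J) * X2 ω⌋)
    ((qJets m _ _ _ _ _ _ _).mono (Nat.le_succ K) le_rfl hu)
    ⟨hcnt _ _ X1 u₁ (min_le_left _ _) g1 hc1, V1, z1, z1', G1,
      hlb1.mono (Finset.Subset.refl _) (Nat.le_succ K) le_rfl, fun ω _ => by rw [hX1]⟩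
    ⟨hcnt _ _ X2 u₂ (min_le_left _ _) g2 hc2, V2, z2, z2', G2,
      hlb2.mono (Finset.Subset.refl _) (Nat.le_succ K) le_rfl, fun ω _ => by rw [hX2]⟩ B' hB hc
  rw [← hq] at key ⊢
  obtain ⟨C, hC⟩ : ∃ C : F.Ω → (ℕ → ℕ → ℤ) × (V × γ J F), C = fun ω =>
    (u ω, (z ω, y J F ω)) := ⟨_, rfl⟩
  obtain ⟨a1, ha1⟩ : ∃ a1 : F.Ω → ℤ, a1 = fun ω => ⌊(2 : ℝ) ^ (min P₁ Pm * J) * X1 ω⌋ :=
    ⟨_, rfl⟩
  obtain ⟨a2, ha2⟩ : ∃ a2 : F.Ω → ℤ, a2 = fun ω => ⌊(2 : ℝ) ^ (min P₂ Pm * J) * X2 ω⌋ :=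
    ⟨_, rfl⟩
  have key' : CH q a2 (fun ω => (a1 ω, C ω)) ≤
      ((1 - h) * (min P₂ Pm - min P₁ Pm) * Real.log 2 + δ) * J := by
    rw [ha1, ha2, hC]
    exact key
  have s1 := CH_le_add h0 u₂ a2 (fun ω => (u₁ ω, C ω))
  have s2 := CH_le_add h0 a2 a1 (fun ω => (u₁ ω, C ω))
  have s3 : CH q a2 (fun ω => (a1 ω, (u₁ ω, C ω))) ≤ CH q a2 (fun ω => (a1 ω, C ω)) := by
    refine CH_mono_cond h0 fun ω ω' _ _ e => ?_
    exact Prod.ext (Prod.ext_iff.mp e).1 (Prod.ext_iff.mp (Prod.ext_iff.mp e).2).2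
  have s4 : CH q a1 (fun ω => (u₁ ω, C ω)) ≤ Real.log 5 := by
    have t1 := hgt_dn hcl X1 (N := min P₁ Pm) (n := P₁) J (min_le_left _ _) C
    rw [← ha1] at t1
    refine le_trans (CH_mono_cond h0 fun ω ω' hω hω' e => ?_) t1
    refine Prod.ext ?_ (Prod.ext_iff.mp e).2
    have e1 := (Prod.ext_iff.mp e).1
    simp only at e1 ⊢
    rw [← g1 ω (hqA ω hω), ← g1 ω' (hqA ω' hω')]
    exact e1
  have s5 : CH q u₂ (fun ω => (a2 ω, (u₁ ω, C ω))) ≤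
      (P₂ - min P₂ Pm) * J * Real.log 2 + Real.log 7 := by
    have t1 := hgt_cnt hcl X2 (N := min P₂ Pm) (n := P₂) J (min_le_left _ _)
      (fun ω => (u₁ ω, C ω))
    refine le_trans ?_ t1
    rw [ha2]
    refine CH_mono_left h0 fun ω ω' hω hω' e => ?_
    rw [g2 ω (hqA ω hω), g2 ω' (hqA ω' hω')]
    exact (Prod.ext_iff.mp e).1
  have s6 : Real.log 5 + Real.log 7 ≤ ε * J := by
    have := hJ₁.trans j1
    rw [div_le_iff₀ hε] at this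
    linarith
  have s7 : P₂ - min P₂ Pm = max 0 (P₂ - Pm) := by
    rcases le_total P₂ Pm with h1 | h1
    · rw [min_eq_left h1, max_eq_left (by linarith)]
      ring
    · rw [min_eq_right h1, max_eq_right (by linarith)]
  have s8 : min P₂ Pm - min P₁ Pm ≤ P₂ - P₁ := by
    rcases le_total P₁ Pm with h1 | h1
    · rw [min_eq_left h1]
      linarith [min_le_left P₂ Pm]
    · rw [min_eq_right h1, min_eq_right (h1.trans hP)]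
      linarith
  have s9 : (1 - h) * (min P₂ Pm - min P₁ Pm) * Real.log 2 * J ≤
      (1 - h) * (P₂ - P₁) * Real.log 2 * J := by
    refine mul_le_mul_of_nonneg_right (mul_le_mul_of_nonneg_right
      (mul_le_mul_of_nonneg_left s8 (by linarith)) hl2.le) hJ0
  rw [s7] at s5
  have s10 : CH q u₂ (fun ω => (u₁ ω, (u ω, (z ω, y J F ω)))) = CH q u₂ (fun ω => (u₁ ω, C ω)) := by
    rw [hC]
  rw [s10]
  nlinarith only [s1, s2, s3, s4, s5, s6, s9, key']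

end Pool.AVG50
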