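import Pool.Agent.H50.AVG.Rwf
import Pool.Agent.H57.AVG.C2a
import Pool.Agent.H3.V0F.Ag

/-!
# The rows of the target at a window near `g`

`AtTg`: labels of the target with a gradient exponent, uniformly near `g`. `rwc_gen`: the condition
`RwC` at all windows near `g`, up to the error `e R`. `rwc_box`: the form for the boxes `Bx1`.
-/

set_option autoImplicit false

namespace Pool.AVG50

open Finset Real MvPolynomial
open Pool.Agent.H49.Ent Pool.Agent.H32.Dense Pool.STK Pool.KA Pool.KSAT Pool.K2S Pool.PB Pool.GEN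
open Pool.S6C Pool.RCD Pool.LA91 Pool.AVG96 Pool.OWN68
open Pool.AVG57 (RwC Bx1)

/-- A common radius. -/
theorem fin_rho {P : ℕ → ℝ → Prop} {n : ℕ}
    (h : ∀ l < n, ∃ ρ : ℝ, 0 < ρ ∧ ∀ t : ℝ, 0 < t → t < ρ → P l t) :
    ∃ ρ : ℝ, 0 < ρ ∧ ∀ t : ℝ, 0 < t → t < ρ → ∀ l < n, P l t := by
  induction n with
  | zero => exact ⟨1, one_pos, fun t _ _ l hl => by omega⟩
  | succ n ih =>
    obtain ⟨ρ₁, h1, h2⟩ := ih fun l hl => h l (by omega)
    obtain ⟨ρ₂, h3, h4⟩ := h n (by omega)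
    refine ⟨min ρ₁ ρ₂, lt_min h1 h3, fun t ht htρ l hl => ?_⟩
    rcases Nat.lt_or_ge l n with h5 | h5
    · exact h2 t ht (htρ.trans_le (min_le_left _ _)) l h5
    · obtain rfl : l = n := by omega
      exact h4 t ht (htρ.trans_le (min_le_right _ _))

variable {m : ℕ} {α γ : ∀ J : ℕ, Fam m J → Type}
  {f : ∀ (J : ℕ) (F : Fam m J), F.Ω → α J F} {y : ∀ (J : ℕ) (F : Fam m J), F.Ω → γ J F}
  {S : PCl m} {c : ℕ → Fin m} {r₀ v : ℕ} {s₀ A B Λ : ℝ} {sn : ℝ → ℕ → ℝ} {G : Set ℝ}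

/-- **Labels of the target with a gradient exponent**, uniformly near `g`. -/
def AtTg (S : PCl m) (c : ℕ → Fin m) (r : ℕ) (sn : ℝ → ℕ → ℝ) (G : Set ℝ) (g : ℝ) : Prop :=
  ∃ e₁ : ℝ, 0 < e₁ ∧ ∃ ρ₁ : ℝ, 0 < ρ₁ ∧ ∀ w ∈ G, g - ρ₁ ≤ w → w ≤ g + ρ₁ → ∃ rk E : ℝ, 0 ≤ rk ∧
    rk < 1 ∧ 0 ≤ E ∧ E + sn w r + e₁ ≤ 1 ∧ AttG S ((range r).image c) (c r) w (sn w r) rk E

/-- **The rows of the target near `g`.** -/
theorem rwc_gen (h : GCh S f y c r₀ (v + 1) s₀ A B Λ sn G) (hr : r₀ ≤ v)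
    (hV : ∀ w ∈ G, A ≤ w → w < B → AtV S c r₀ w) {g : ℝ} (hgA : A < g) (hgB : g < B)
    {Sl : ℕ → ℝ} (hSl : SlpG sn r₀ (v + 1) G g Sl) (hσ : 1 < Sl (v + 1))
    (hS : ∀ l, r₀ ≤ l → l ≤ v → Sl l ≤ Sl (v + 1)) (hT : AtTg S c (v + 1) sn G g)
    (hyW : ∀ (J : ℕ) (F : Fam m J), ∃ ψ : γ J F → F.ζ × ℕ, ∀ ω, ψ (y J F ω) = (F.Z ω, F.T ω))
    {hd : ℝ} (hd1 : hd ≤ 1) {ξ₀ C e : ℝ} (hξ : 0 < ξ₀) (hC : 0 < C) (he : 0 < e) :
    ∃ φ : ℝ, 0 < φ ∧ ∃ ρ : ℝ, 0 < ρ ∧ ∀ R : ℝ, 0 < R → R < ρ → ∀ w ∈ G, g - R ≤ w → w ≤ g + R →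
      ∀ (Q : ℝ) (p n : ℕ → ℝ) (P₁ P₂ δ : ℝ), ξ₀ * R ≤ Q → Q ≤ C * R →
        (∀ l, r₀ ≤ l → l ≤ v + 1 → sn w l - φ * R ≤ p l) →
        (∀ l, r₀ ≤ l → l ≤ v → sn w l + Q ≤ n l ∧ n l ≤ sn w l + C * R) →
        0 ≤ sn w (v + 1) → 0 ≤ P₁ → P₁ ≤ P₂ →
        (∀ P₁' P₂' : ℝ, min P₁ (sn w (v + 1)) ≤ P₁' → P₁' ≤ P₁ → P₁' ≤ P₂' → P₂' ≤ P₂ →
          RawN S ((range (v + 1)).image c) (c (v + 1)) P₁' (P₂' - P₁') hd δ) →
        RwC S y c r₀ v w p n P₁ P₂ hd
          (δ + max 0 (P₂ - (sn w (v + 1) + Q)) * Real.log 2 + e * R) := by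
  obtain ⟨σ, hσd⟩ : ∃ σ : ℝ, σ = Sl (v + 1) := ⟨_, rfl⟩
  rw [← hσd] at hσ hS
  have hl2 : 0 < Real.log 2 := Real.log_pos one_lt_two
  have hl1 : Real.log 2 ≤ 1 := by
    have := Real.log_two_lt_d9
    linarith
  have hB1 := h.B1
  have hA0 := h.A0
  obtain ⟨p₀, lam, hp₀1, -, hBp, hkn⟩ := h.kn
  have hΛ := h.Λ0
  have hv0 : (0 : ℝ) ≤ v := Nat.cast_nonneg v
  obtain ⟨M, hM⟩ : ∃ M : ℝ, M = C + 4 := ⟨_, rfl⟩
  have hM0 : 0 < M := by linarith
  obtain ⟨Z, hZ⟩ : ∃ Z : ℝ, Z = ((v : ℝ) + 6) * (5 * σ + 10) := ⟨_, rfl⟩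
  have hZ90 : 90 ≤ Z := by
    rw [hZ]
    nlinarith
  have hZ0 : 0 < Z := by linarith
  obtain ⟨η, hη⟩ : ∃ η : ℝ, η = min (ξ₀ / 2) (min (e / 4) (1 / 4)) / (Z * M) := ⟨_, rfl⟩
  have hmin0 : 0 < min (ξ₀ / 2) (min (e / 4) (1 / 4)) :=
    lt_min (by linarith) (lt_min (by linarith) (by norm_num))
  have hη0 : 0 < η := by
    rw [hη]
    positivity
  have hηZ : Z * (η * M) = min (ξ₀ / 2) (min (e / 4) (1 / 4)) := by
    rw [hη]
    field_simp
  obtain ⟨w₂, hw₂, hgw, hwB⟩ : ∃ w₂ ∈ G, g < w₂ ∧ w₂ < B := by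
    obtain ⟨ρ, hρ, H⟩ := hSl.gap (1 / 2) (by norm_num)
    obtain ⟨t, ht⟩ : ∃ t : ℝ, t = min (ρ / 2) ((B - g) / 2) := ⟨_, rfl⟩
    have t0 : 0 < t := by rw [ht]; exact lt_min (by linarith) (by linarith)
    have t1 : t ≤ ρ / 2 := by rw [ht]; exact min_le_left _ _
    have t2 : t ≤ (B - g) / 2 := by rw [ht]; exact min_le_right _ _
    obtain ⟨u, hu, a1, a2⟩ := H t t0 (by linarith) (g + t) (by linarith) le_rfl
    exact ⟨u, hu, by linarith, by linarith⟩
  obtain ⟨u₂, rd₂, -, hch₂⟩ := h.ch w₂ hw₂ (hgA.trans hgw).le hwB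
  obtain ⟨τ, hτ, hτ1⟩ : ∃ τ : ℝ, 0 < τ ∧ ∀ l, r₀ ≤ l → l ≤ v → sn w₂ l + τ ≤ 1 := by
    obtain ⟨ρ, hρ, H⟩ := fin_rho (P := fun l t => r₀ ≤ l → sn w₂ l + t ≤ 1) (n := v + 1)
      (fun l hl => by
        by_cases h0 : r₀ ≤ l
        · have h1 := (hch₂.s0 l h0 hl).2
          exact ⟨1 - sn w₂ l, by linarith, fun t _ ht _ => by linarith⟩
        · exact ⟨1, one_pos, fun t _ _ h1 => absurd h1 h0⟩)
    exact ⟨ρ / 2, half_pos hρ, fun l h0 h1 => H (ρ / 2) (half_pos hρ) (by linarith) l (by omega) h0⟩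
  obtain ⟨ρs, hρs, Hs⟩ := fin_rho (P := fun l t => r₀ ≤ l → ∀ w ∈ G, ∀ v ∈ G, g - t ≤ w →
      w ≤ v → v ≤ g + t → |sn v l - sn w l - Sl l * (v - w)| ≤ η * t) (n := v + 2)
    (fun l hl => by
      by_cases h0 : r₀ ≤ l
      · obtain ⟨ρ, hρ, H⟩ := hSl.sl l h0 (by omega) η hη0
        exact ⟨ρ, hρ, fun t t0 t1 _ => H t t0 t1⟩
      · exact ⟨1, one_pos, fun t _ _ h1 => absurd h1 h0⟩)
  obtain ⟨ρg, hρg, Hg⟩ := hSl.gap η hη0
  obtain ⟨e₁, he₁, ρ₁, hρ₁, HT⟩ := hT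
  obtain ⟨ρm, hρm⟩ : ∃ ρm : ℝ, ρm = min (min (min ρs ρg) (min e₁ ρ₁))
    (min (min (min (g - A) (B - g)) (min (w₂ - g) τ)) (min (1 - B) Λ)) := ⟨_, rfl⟩
  have hρm0 : 0 < ρm := by
    rw [hρm]
    exact lt_min (lt_min (lt_min hρs hρg) (lt_min he₁ hρ₁)) (lt_min (lt_min (lt_min (by linarith)
      (by linarith)) (lt_min (by linarith) hτ)) (lt_min (by linarith) hΛ))
  have b1 : ρm ≤ ρs := by
    rw [hρm]
    exact (min_le_left _ _).trans ((min_le_left _ _).trans (min_le_left _ _))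
  have b2 : ρm ≤ ρg := by
    rw [hρm]
    exact (min_le_left _ _).trans ((min_le_left _ _).trans (min_le_right _ _))
  have b3 : ρm ≤ e₁ := by
    rw [hρm]
    exact (min_le_left _ _).trans ((min_le_right _ _).trans (min_le_left _ _))
  have b4 : ρm ≤ ρ₁ := by
    rw [hρm]
    exact (min_le_left _ _).trans ((min_le_right _ _).trans (min_le_right _ _))
  have b5 : ρm ≤ g - A := by
    rw [hρm]
    exact (min_le_right _ _).trans ((min_le_left _ _).trans ((min_le_left _ _).trans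
      (min_le_left _ _)))
  have b6 : ρm ≤ B - g := by
    rw [hρm]
    exact (min_le_right _ _).trans ((min_le_left _ _).trans ((min_le_left _ _).trans
      (min_le_right _ _)))
  have b7 : ρm ≤ w₂ - g := by
    rw [hρm]
    exact (min_le_right _ _).trans ((min_le_left _ _).trans ((min_le_right _ _).trans
      (min_le_left _ _)))
  have b8 : ρm ≤ τ := by
    rw [hρm]
    exact (min_le_right _ _).trans ((min_le_left _ _).trans ((min_le_right _ _).trans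
      (min_le_right _ _)))
  have b9 : ρm ≤ 1 - B := by
    rw [hρm]
    exact (min_le_right _ _).trans ((min_le_right _ _).trans (min_le_left _ _))
  have b10 : ρm ≤ Λ := by
    rw [hρm]
    exact (min_le_right _ _).trans ((min_le_right _ _).trans (min_le_right _ _))
  refine ⟨η * M, by positivity, ρm / (M + 1), by positivity, ?_⟩
  intro R hR hRρ w hw hw1 hw2 Q p n P₁ P₂ δ hQ1 hQ2 hp hn hst hP0 hP hraw
  have hMR : (M + 1) * R < ρm := by
    rw [lt_div_iff₀ (by linarith)] at hRρ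
    linarith
  obtain ⟨a, ha⟩ : ∃ a : ℝ, a = η * (M * R) := ⟨_, rfl⟩
  have ha0 : 0 < a := by rw [ha]; positivity
  have hMR0 : 0 < M * R := by positivity
  have hCR : 0 ≤ C * R := by positivity
  have hMe : M * R = C * R + 4 * R := by rw [hM]; ring
  have hM1 : (M + 1) * R = C * R + 5 * R := by rw [hM]; ring
  rw [hM1] at hMR
  have hZa : Z * a = min (ξ₀ / 2) (min (e / 4) (1 / 4)) * R := by
    rw [ha, ← hηZ]
    ring
  have z1 : Z * a ≤ ξ₀ * R / 2 := by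
    rw [hZa]
    have := mul_le_mul_of_nonneg_right (min_le_left (ξ₀ / 2) (min (e / 4) (1 / 4))) hR.le
    linarith
  have z2 : Z * a ≤ e * R / 4 := by
    rw [hZa]
    have := mul_le_mul_of_nonneg_right ((min_le_right (ξ₀ / 2) (min (e / 4) (1 / 4))).trans
      (min_le_left _ _)) hR.le
    linarith
  have z3 : Z * a ≤ R / 4 := by
    rw [hZa]
    have := mul_le_mul_of_nonneg_right ((min_le_right (ξ₀ / 2) (min (e / 4) (1 / 4))).trans
      (min_le_right _ _)) hR.le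
    linarith
  have za1 : a ≤ Z * a := by nlinarith
  -- the multiples of `a`
  have zk : ((v : ℝ) + 5) * ((3 * σ + 10) * a) ≤ Z * a := by
    rw [hZ, ← mul_assoc]
    refine mul_le_mul_of_nonneg_right ?_ ha0.le
    nlinarith
  have zs : ((v : ℝ) + 1) * ((5 * σ + 8) * a) ≤ Z * a := by
    rw [hZ, ← mul_assoc]
    refine mul_le_mul_of_nonneg_right ?_ ha0.le
    nlinarith
  have z20 : 20 * (((v + 1 : ℕ) : ℝ) + 1) * a ≤ 2 * (Z * a) := by
    rw [hZ]
    have : 20 * (((v + 1 : ℕ) : ℝ) + 1) ≤ 2 * (((v : ℝ) + 6) * (5 * σ + 10)) := by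
      push_cast
      nlinarith
    have := mul_le_mul_of_nonneg_right this ha0.le
    linarith
  obtain ⟨D, hD⟩ : ∃ D : ℝ, D = Q - ((v : ℝ) + 2) * ((3 * σ + 10) * a) := ⟨_, rfl⟩
  have hk0 : 0 ≤ (3 * σ + 10) * a := by positivity
  have hD0 : 0 ≤ D := by
    rw [hD]
    nlinarith
  have hDQ : D ≤ Q := by
    rw [hD]
    have : 0 ≤ ((v : ℝ) + 2) * ((3 * σ + 10) * a) := by positivity
    linarith
  have hQD : Q - D ≤ Z * a := by
    rw [hD]
    nlinarith
  have hDσ : D / σ ≤ D := div_le_self hD0 hσ.le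
  have hDσ0 : 0 ≤ D / σ := by positivity
  have hσD : σ * (D / σ) = D := by field_simp
  obtain ⟨x, hxG, hx1, hx2⟩ := Hg (M * R) hMR0 (by linarith) (w + D / σ + 2 * a) (by linarith)
    (by linarith)
  rw [← ha] at hx1
  have hwx : w ≤ x := by linarith
  have hxM : x ≤ g + M * R := by linarith
  have hwA : A ≤ w := by linarith
  have hin : ∀ u ∈ G, w ≤ u → u ≤ x → A ≤ u ∧ u < B ∧ u ≤ w₂ := fun u _ h1 h2 =>
    ⟨hwA.trans h1, by linarith, by linarith⟩
  have hxi := hin x hxG hwx le_rfl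
  have hwi := hin w hw le_rfl hwx
  obtain ⟨G', hG'⟩ : ∃ G' : Set ℝ, G' = G ∩ Set.Icc w x := ⟨_, rfl⟩
  have hG'i : ∀ u ∈ G', u ∈ G ∧ w ≤ u ∧ u ≤ x := fun u hu => by
    rw [hG'] at hu
    exact ⟨hu.1, hu.2.1, hu.2.2⟩
  obtain ⟨s', hs'⟩ : ∃ s' : ℕ → ℝ → ℝ, s' = fun i u => sv r₀ u (sn u) i := ⟨_, rfl⟩
  have s'lt : ∀ i u, i < r₀ → s' i u = u := fun i u hi => by rw [hs']; exact sv_lt hi
  have s'ge : ∀ i u, r₀ ≤ i → s' i u = sn u i := fun i u hi => by rw [hs']; exact sv_ge hi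
  obtain ⟨Sh, hSh⟩ : ∃ Sh : ℕ → ℝ, Sh = fun i => if i < r₀ then 1 else Sl i := ⟨_, rfl⟩
  have Shlt : ∀ i, i < r₀ → Sh i = 1 := fun i hi => by rw [hSh]; exact if_pos hi
  have Shge : ∀ i, r₀ ≤ i → Sh i = Sl i := fun i hi => by rw [hSh]; exact if_neg (by omega)
  have N : Nms (v + 1) s' G' w x σ a D Sh :=
    { wG := by rw [hG']; exact ⟨hw, le_rfl, hwx⟩
      xG := by rw [hG']; exact ⟨hxG, hwx, le_rfl⟩
      sub := fun u hu => (hG'i u hu).2
      a0 := ha0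
      σ1 := hσ.le
      shb := fun i hi => by
        rcases Nat.lt_or_ge i r₀ with h0 | h0
        · rw [Shlt i h0]
          exact ⟨zero_le_one, hσ.le⟩
        · rw [Shge i h0]
          exact ⟨hSl.nn i h0 (by omega), hS i h0 (by omega)⟩
      shT := by rw [Shge _ (by omega), hσd]
      sl := fun i hi u hu u' hu' huu => by
        rcases Nat.lt_or_ge i r₀ with h0 | h0
        · rw [Shlt i h0, s'lt i u h0, s'lt i u' h0]
          have : u' - u - 1 * (u' - u) = 0 := by ring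
          rw [this, abs_zero]
          exact ha0.le
        · rw [Shge i h0, s'ge i u h0, s'ge i u' h0, ha]
          have h1 := hG'i u hu
          have h2 := hG'i u' hu'
          exact Hs (M * R) hMR0 (by linarith) i (by omega) h0 u h1.1 u' h2.1 (by linarith) huu
            (by linarith)
      mo := fun i hi u hu u' hu' huu => by
        have h1 := hG'i u hu
        have h2 := hG'i u' hu'
        rcases Nat.lt_or_ge i r₀ with h0 | h0
        · rw [s'lt i u h0, s'lt i u' h0]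
          exact huu
        · rw [s'ge i u h0, s'ge i u' h0]
          exact h.mono' h0 hi h1.1 h2.1 (hin u h1.1 h1.2.1 h1.2.2).1 huu
            (hin u' h2.1 h2.2.1 h2.2.2).2.1
      x1 := by
        have h1 : σ * (D / σ + a) ≤ σ * (x - w) := mul_le_mul_of_nonneg_left (by linarith)
          (by linarith)
        rw [mul_add, hσD] at h1
        exact h1
      x2 := by
        have h1 : σ * (x - w) ≤ σ * (D / σ + 2 * a) := mul_le_mul_of_nonneg_left (by linarith)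
          (by linarith)
        rw [mul_add, hσD] at h1
        linarith
      D0 := hD0
      rm := by
        push_cast
        have h1 : ((v : ℝ) + 1 + 4) * ((3 * σ + 10) * a) = ((v : ℝ) + 5) * ((3 * σ + 10) * a) := by
          ring
        rw [h1]
        linarith }
  have W : Wnd S c (v + 1) s' G' w x a (nnS (v + 1) s' w σ a D Sh) :=
    { tm := h.tm
      pos := h.pos
      ch := ⟨fun u hu => by
        have h1 := hG'i u hu
        have h2 := hin u h1.1 h1.2.1 h1.2.2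
        obtain ⟨u₁, rd, h3, h4⟩ := h.ch u h1.1 h2.1 h2.2.1
        refine ⟨u₁, sv r₀ 0 rd, fun i hi => ?_, ?_⟩
        · rcases Nat.lt_or_ge i r₀ with h0 | h0
          · rw [sv_lt h0]
          · rw [sv_ge h0]
            exact h3 i h0 hi
        · rw [hs']
          exact chn_dn h.pos h4 (hV u h1.1 h2.1 h2.2.1)⟩
      wG := N.wG
      xG := N.xG
      wx := hwx
      φ0 := ha0
      gap := fun u hu1 hu2 => by
        obtain ⟨o, ho, o1, o2⟩ := Hg (M * R) hMR0 (by linarith) u (by linarith) (by linarith)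
        rw [← ha] at o1
        rcases le_total w o with h1 | h1
        · refine ⟨o, by rw [hG']; exact ⟨ho, h1, by linarith⟩, ?_⟩
          rw [abs_le]
          constructor <;> linarith
        · refine ⟨w, N.wG, ?_⟩
          rw [abs_le]
          constructor <;> linarith
      up := fun i hi u hu u' hu' _ huu _ => by
        have h1 := N.mo i hi.le u hu u' hu' huu
        linarith
      lo := fun i hi u hu _ _ => N.lo hi hu
      mo := fun i hi u _ u' _ _ huu _ => N.mon hi huu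
      t0 := fun i hi u hu u' hu' _ huu _ h3 => N.t0 hi hu hu' huu h3
      ne := fun i hi l hl u hu u' hu' _ huu _ h3 => N.ne hi hl hu hu' huu h3 }
  obtain ⟨rk, E, -, hrk, hE, hEe, hatt⟩ := HT w hw (by linarith) (by linarith)
  obtain ⟨Pm, hPm⟩ : ∃ Pm : ℝ, Pm = sn w (v + 1) + D := ⟨_, rfl⟩
  have s't : ∀ u, s' (v + 1) u = sn u (v + 1) := fun u => s'ge _ u (by omega)
  have hlev : ∀ l, r₀ ≤ l → l ≤ v → sn w l + τ ≤ 1 := fun l h0 h1 => by
    have h2 := h.mono' h0 (by omega : l ≤ v + 1) hw hw₂ hwi.1 hwi.2.2 hwB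
    linarith [hτ1 l h0 h1]
  obtain ⟨u₁, rd, -, hchw⟩ := h.ch w hw hwi.1 hwi.2.1
  have hlw : ∀ l < v + 1, s' l w + (C * R + R) ≤ 1 := fun l hl => by
    rcases Nat.lt_or_ge l r₀ with h0 | h0
    · rw [s'lt l w h0]
      linarith
    · rw [s'ge l w h0]
      linarith [hlev l h0 (by omega)]
  have hP2m : min P₂ Pm ≤ sn w (v + 1) + D := by
    rw [← hPm]
    exact min_le_right _ _
  have hp₀' : 0 < p₀ := by linarith
  have key := rwc_ev (y := y) (p := p) (n := n) (P₁ := min P₁ Pm) (P₂ := min P₂ Pm) (r₀ := r₀)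
    (rd := fun _ => 0) (p₀ := p₀) (N := fun i => s' i x - (5 * σ + 8) * a) (rk := rk) (E := E)
    (h := hd) (δ := δ) (ε := e * R / 8) W
    (fun u hu _ _ N' => by
      have h1 := hG'i u hu
      obtain ⟨rk', E', h2, -, h3, -, h4⟩ := HT u h1.1 (by linarith) (by linarith)
      rw [s't u]
      exact Pool.V0F.exs_jetE h2 h3 h4)
    (fun u hu u' hu' _ huu _ => by
      have h1 := N.mo (v + 1) le_rfl u hu u' hu' huu
      linarith)
    (by omega) hp₀'.le hp₀1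
    (fun l hl => by
      refine ⟨hp₀', ?_⟩
      rw [s'lt l w hl]
      exact hV w hw hwi.1 hwi.2.1 l hl)
    (fun i h0 h1 => by
      rw [s'ge i w h0]
      have h2 := hp i h0 h1
      have h3 : η * M * R = a := by rw [ha]; ring
      rw [h3] at h2
      exact h2)
    (fun i hi => by
      have h1 := (N.ci hi).2
      have h2 : nnS (v + 1) s' w σ a D Sh i w ≤ s' i w + Q := by
        unfold nnS
        push_cast at h1 ⊢
        rw [sub_self, mul_zero, hD]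
        linarith
      rcases Nat.lt_or_ge i r₀ with h0 | h0
      · unfold nh
        rw [if_pos h0]
        rw [s'lt i w h0] at h2
        linarith
      · unfold nh
        rw [if_neg (by omega)]
        rw [s'ge i w h0] at h2
        linarith [(hn i h0 (by omega)).1])
    (fun i hi => by
      have h1 := N.hNn hi
      have h3 := (N.ci hi).2
      have h2 : nnS (v + 1) s' w σ a D Sh i w ≤ s' i w + Q := by
        unfold nnS
        push_cast at h3 ⊢
        rw [sub_self, mul_zero, hD]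
        linarith
      rcases Nat.lt_or_ge i r₀ with h0 | h0
      · unfold nh
        rw [if_pos h0]
        rw [s'lt i w h0] at h2
        linarith
      · unfold nh
        rw [if_neg (by omega)]
        rw [s'ge i w h0] at h2
        linarith [(hn i h0 (by omega)).1])
    (fun i hi => N.ngt hi)
    (N.ngtT (by rw [s't w, ← hPm]; exact min_le_right _ _))
    (N.ngtT (by rw [s't w, ← hPm]; exact min_le_right _ _))
    hrk hE (by rw [s't w]; exact hatt) (le_min hP0 (by rw [hPm]; linarith))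
    (min_le_min hP le_rfl) (by linarith)
    (by
      rw [s't w]
      linarith)
    (fun l hl => by
      rw [s't w]
      linarith [hlw l hl])
    (fun i h0 hi => by
      have h1 := hn i h0 (by omega)
      have h2 := hlev i h0 (by omega)
      have h3 := (hchw.s0 i h0 hi).1
      constructor <;> linarith)
    (fun i h0 hi => by
      have h1 := hn i h0 (by omega)
      rw [s'ge i w h0]
      linarith)
    (fun i h0 hi l hl => by
      have h1 := hn i h0 (by omega)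
      rw [s'ge i w h0]
      linarith [hlw l (by omega)])
    (hraw _ _ (min_le_min_left _ (by rw [hPm]; linarith)) (min_le_left _ _)
      (min_le_min hP le_rfl) (min_le_left _ _))
    (fun J F => by
      obtain ⟨ψ, hψ⟩ := hyW J F
      refine ⟨fun x => ((ψ x).2, (ψ x).1), fun ω => ?_⟩
      show ((ψ (y J F ω)).2, (ψ (y J F ω)).1) = F.W ω
      rw [hψ ω]
      rfl)
    (fun J F => by
      obtain ⟨ψ, hψ⟩ := hkn J F
      refine ⟨fun x => (ψ x).2.1, fun ω l hl => ?_⟩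
      show (ψ (y J F ω)).2.1 (c l) = _
      rw [hψ ω]
      exact if_pos (mem_image_of_mem _ (mem_range.2 hl)))
    (by positivity)
  have key2 := rwc_ext h.pos hP hd1 key (ε := e * R / 8) (by positivity)
  refine rwc_mono key2 ?_
  have h1 : ∑ i ∈ range (v + 1), (s' i x - (s' i x - (5 * σ + 8) * a)) =
      ((v : ℝ) + 1) * ((5 * σ + 8) * a) := by
    rw [Finset.sum_congr rfl (fun i _ => by ring : ∀ i ∈ range (v + 1),
      s' i x - (s' i x - (5 * σ + 8) * a) = (5 * σ + 8) * a), Finset.sum_const,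
      Finset.card_range, nsmul_eq_mul]
    push_cast
    ring
  rw [h1]
  have h2 : max 0 (P₂ - Pm) ≤ max 0 (P₂ - (sn w (v + 1) + Q)) + Z * a := by
    refine max_le ?_ ?_
    · have := le_max_left 0 (P₂ - (sn w (v + 1) + Q))
      have h3 : 0 ≤ Z * a := by positivity
      linarith
    · have := le_max_right 0 (P₂ - (sn w (v + 1) + Q))
      rw [hPm]
      linarith
  have h3 := mul_le_mul_of_nonneg_right h2 hl2.le
  have h4 : Z * a * Real.log 2 ≤ Z * a * 1 := mul_le_mul_of_nonneg_left hl1 (by positivity)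
  have h5 := mul_le_mul_of_nonneg_right zs hl2.le
  have h6 : 0 ≤ e * R := by positivity
  linarith only [h3, h4, h5, z2, h6]

/-- **The rows of the target in a box** `Bx1`: the condition `C1R.row`. -/
theorem rwc_box (h : GCh S f y c r₀ (v + 1) s₀ A B Λ sn G) (hr : r₀ ≤ v)
    (hV : ∀ w ∈ G, A ≤ w → w < B → AtV S c r₀ w) {g : ℝ} (hgA : A < g) (hgB : g < B)
    {Sl : ℕ → ℝ} (hSl : SlpG sn r₀ (v + 1) G g Sl) (hσ : 1 < Sl (v + 1))
    (hS : ∀ l, r₀ ≤ l → l ≤ v → Sl l ≤ Sl (v + 1)) (hT : AtTg S c (v + 1) sn G g)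
    (hyW : ∀ (J : ℕ) (F : Fam m J), ∃ ψ : γ J F → F.ζ × ℕ, ∀ ω, ψ (y J F ω) = (F.Z ω, F.T ω))
    {hd : ℝ} (hd1 : hd ≤ 1) {ξ₀ C e : ℝ} (hξ : 0 < ξ₀) (hC : 0 < C) (he : 0 < e) :
    ∃ φ : ℝ, 0 < φ ∧ ∃ ρ : ℝ, 0 < ρ ∧ ∀ R : ℝ, 0 < R → R < ρ → ∀ w ∈ G, g - R ≤ w → w ≤ g + R →
      ∀ (j x δW q ξ μ ν φ' : ℝ) (p s n n' : ℕ → ℝ) (lo hi δ η : ℝ),
        Bx1 sn r₀ v Sl w j x δW q ξ μ ν φ' (C * R) p s n n' → φ' ≤ φ * R → ξ₀ * R ≤ q + ξ →
        0 ≤ lo →
        (∀ P₁ P₂ : ℝ, min lo (s (v + 1)) ≤ P₁ → P₁ ≤ P₂ → P₂ ≤ hi →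
          RawN S ((range (v + 1)).image c) (c (v + 1)) P₁ (P₂ - P₁) hd δ) →
        δ + max 0 (hi - (s (v + 1) + q + ξ)) * Real.log 2 + e * R ≤ η →
        ∀ P₁ P₂ : ℝ, lo ≤ P₁ → P₁ ≤ P₂ → P₂ ≤ hi →
          RwC S y c r₀ v w p (fun l => if l = v then s v + q + ξ else n l) P₁ P₂ hd η := by
  obtain ⟨φ, hφ, ρ, hρ, H⟩ := rwc_gen h hr hV hgA hgB hSl hσ hS hT hyW hd1 hξ hC he
  refine ⟨φ, hφ, ρ, hρ, ?_⟩
  intro R hR hRρ w hw hw1 hw2 j x δW q ξ μ ν φ' p s n n' lo hi δ η N hφ' hξR hlo hraw hη P₁ P₂ h1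
    h2 h3
  have hμ := N.μ0
  have hqC := N.qC
  have hl2 : 0 < Real.log 2 := Real.log_pos one_lt_two
  have hst := N.sc (v + 1) (by omega) le_rfl
  have hsv := N.sc v hr (by omega)
  have h4 := H R hR hRρ w hw hw1 hw2 (q + ξ) p (fun l => if l = v then s v + q + ξ else n l) P₁ P₂
    δ hξR (by linarith) (fun l a b => by linarith [(N.pc l a b).1]) (fun l a b => by
      by_cases hl : l = v
      · rw [if_pos hl, hl, hsv]
        constructor <;> linarith
      · rw [if_neg hl]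
        obtain ⟨c1, c2, -⟩ := N.nc l a b
        constructor <;> linarith)
    ((N.p0 (v + 1) (by omega) le_rfl).trans (N.pc (v + 1) (by omega) le_rfl).2)
    (hlo.trans h1) h2 (fun P₁' P₂' a1 _ a3 a4 => hraw P₁' P₂' (by
      rw [hst]
      exact (min_le_min_right _ h1).trans a1) a3 (a4.trans h3))
  refine rwc_mono h4 (le_trans ?_ hη)
  have h5 : max 0 (P₂ - (sn w (v + 1) + (q + ξ))) ≤ max 0 (hi - (s (v + 1) + q + ξ)) :=
    max_le_max le_rfl (by rw [hst]; linarith)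
  have h6 := mul_le_mul_of_nonneg_right h5 hl2.le
  linarith

end Pool.AVG50
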